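import Pool.Agent.D0H80.CD.Susp

set_option autoImplicit false
set_option linter.unusedSectionVars false
set_option linter.unusedVariables false

/-! # The amplification -/

namespace Pool.Agent.D0H80.CD

open Pool.Agent.W497.FS

/-- `(-1)^n` times the sum of the quantities `ω` of the links of the faces with `j` elements -/
noncomputable def kap {N : ℕ} (n j : ℕ) (T : Finset (Finset (Fin N))) : ℝ :=
  (((-1) ^ n * ∑ F ∈ T.filter (fun F => F.card = j),
    omega (T.filter (fun G => Disjoint G F ∧ G ∪ F ∈ T)) : ℚ) : ℝ)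

variable {ι : Type} {k : ι → Type} [∀ i, Field (k i)]

theorem rz_of [Nonempty ι] {N d : ℕ} {S : Finset (Finset (Fin N))}
    (h : ∀ i, IsFlagSphere (k i) d S) : Rz k d (omega S) (numVert S) := by
  obtain ⟨i₀⟩ := ‹Nonempty ι›
  refine ⟨Fin N, inferInstance, inferInstance, skel S, vert S, ⟨(h i₀).np, fun i => ?_⟩, ?_, ?_⟩
  · obtain ⟨r, hr⟩ := h i
    exact Pool.Agent.W216.FS.HR.main Pool.Agent.W216.FS.BB.main (k i) N d S r hr
  · rw [(h i₀).omega_eq]
  · rw [numVert_eq]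

theorem kap_zero [Nonempty ι] {N d n : ℕ} {T : Finset (Finset (Fin N))}
    (h : ∀ i, IsFlagSphere (k i) d T) : kap n 0 T = (((-1) ^ n * omega T : ℚ) : ℝ) := by
  obtain ⟨i₀⟩ := ‹Nonempty ι›
  have h0 : (∅ : Finset (Fin N)) ∈ T := by
    rw [← (h i₀).cl_eq]; exact empty_mem_cl
  have e1 : T.filter (fun F => F.card = 0) = {∅} := by
    ext F
    rw [Finset.mem_filter, Finset.mem_singleton, Finset.card_eq_zero]
    constructor
    · exact fun h => h.2
    · rintro rfl; exact ⟨h0, rfl⟩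
  have e2 : T.filter (fun G => Disjoint G ∅ ∧ G ∪ ∅ ∈ T) = T := by
    ext G
    rw [Finset.mem_filter, Finset.union_empty]
    exact ⟨fun h => h.1, fun h => ⟨h, Finset.disjoint_empty_right _, h⟩⟩
  rw [kap, e1, Finset.sum_singleton, e2]

theorem kap_of_rj {n j : ℕ} {d : ℕ} {l : ℚ} {v : ℕ} (h : Rj k d j l v) :
    ∃ (N : ℕ) (T : Finset (Finset (Fin N))), (∀ i, IsFlagSphere (k i) d T) ∧
      kap n j T = (((-1) ^ n * l : ℚ) : ℝ) ∧ numVert T ≤ v := by
  obtain ⟨N, T, h1, h2, h3⟩ := h.fin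
  exact ⟨N, T, h1, by rw [kap, h2], h3⟩

/-- rank zero -/
theorem omega_rank_zero [Nonempty ι] {N : ℕ} {S : Finset (Finset (Fin N))}
    (h : ∀ i, IsFlagSphere (k i) (2 * 0) S) : 0 ≤ (-1) ^ 0 * omega S := by
  obtain ⟨i₀⟩ := ‹Nonempty ι›
  have h1 : vert S = ∅ := (h i₀).np
  rw [(h i₀).omega_eq, h1, lam_empty]
  norm_num

/-- **amplification in fixed dimension** -/
theorem fixed [Nonempty ι] {m n j : ℕ} (hmn : m ≤ n)
    (hT : ∀ ε : ℝ, 0 < ε → ∃ C : ℝ, ∀ (N : ℕ) (T : Finset (Finset (Fin N))),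
      (∀ i, IsFlagSphere (k i) (2 * n + j) T) →
        -(ε * (numVert T : ℝ) ^ (n - m + 1)) - C ≤ kap n j T)
    {N : ℕ} {S : Finset (Finset (Fin N))} (hS : ∀ i, IsFlagSphere (k i) (2 * m) S) :
    0 ≤ (-1) ^ m * omega S := by
  rcases Nat.eq_zero_or_pos m with rfl | hm
  · exact omega_rank_zero hS
  by_contra hneg
  push Not at hneg
  obtain ⟨r, rfl⟩ : ∃ r, n = m + r := ⟨n - m, by omega⟩
  have er : m + r - m = r := by omega
  rw [er] at hT
  set l := omega S with hl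
  set v := numVert S with hv
  have hR := rz_of hS
  rw [← hl, ← hv] at hR
  obtain ⟨d, hd⟩ : ∃ d, 2 * m = d + 1 := ⟨2 * m - 1, by omega⟩
  rw [hd] at hR
  -- the constants
  set c : ℝ := -(((-1) ^ m * l : ℚ) : ℝ) with hc
  have hcpos : 0 < c := by
    rw [hc]
    have : (((-1) ^ m * l : ℚ) : ℝ) < 0 := by exact_mod_cast hneg
    linarith
  set V : ℝ := v + 5 * r + 2 * j with hV
  have hV0 : 0 ≤ V := by rw [hV]; positivity
  set a : ℝ := 2 ^ j * c / 4 ^ r with ha
  have hapos : 0 < a := by rw [ha]; positivity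
  set ε : ℝ := a / (2 * (V ^ (r + 1) + 1)) with hε
  have hεpos : 0 < ε := by rw [hε]; positivity
  have hεV : ε * V ^ (r + 1) ≤ a / 2 := by
    have h1 : 0 ≤ V ^ (r + 1) := by positivity
    rw [hε, div_mul_eq_mul_div, div_le_div_iff₀ (by positivity) (by norm_num)]
    nlinarith
  obtain ⟨C, hC⟩ := hT ε hεpos
  obtain ⟨M, hM⟩ := pow_unbounded_of_one_lt (2 * |C| / a + 1) (by norm_num : (1 : ℝ) < 2)
  have hA := (hR.amplify M r).rj j
  have e1 : d + 1 + r * 2 + j = 2 * (m + r) + j := by omega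
  rw [e1] at hA
  obtain ⟨N', T, hTs, hTk, hTv⟩ := kap_of_rj (n := m + r) hA
  have hb := hC N' T hTs
  -- the value
  have hval : kap (m + r) j T = -(a * (2 ^ M) ^ (r + 1)) := by
    rw [hTk, ha, hc]
    push_cast
    have e2 : ((2 : ℝ) ^ M * (-1 / 4)) ^ r = (-1) ^ r * ((2 ^ M) ^ r / 4 ^ r) := by
      rw [mul_pow, div_pow]
      ring
    rw [e2, pow_add]
    have e3 : (-1 : ℝ) ^ r * (-1) ^ r = 1 := by rw [← mul_pow]; norm_num
    calc (-1 : ℝ) ^ m * (-1) ^ r * (2 ^ j * (2 ^ M * (l : ℝ) * ((-1) ^ r * ((2 ^ M) ^ r / 4 ^ r))))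
        = ((-1) ^ r * (-1) ^ r) * ((-1 : ℝ) ^ m * (2 ^ j * (2 ^ M * (l : ℝ) *
          ((2 ^ M) ^ r / 4 ^ r)))) := by ring
      _ = _ := by rw [e3, pow_succ]; ring
  -- the number of vertices
  have hnum : (numVert T : ℝ) ≤ 2 ^ M * V := by
    have h1 : (numVert T : ℝ) ≤ ((2 ^ M * v + r * (2 ^ M * 5) + 2 * j : ℕ) : ℝ) := by
      exact_mod_cast hTv
    refine h1.trans ?_
    rw [hV]
    push_cast
    have h2 : (1 : ℝ) ≤ 2 ^ M := one_le_pow₀ (by norm_num)
    have h3 : (0 : ℝ) ≤ j := Nat.cast_nonneg j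
    nlinarith
  have hpow : (numVert T : ℝ) ^ (r + 1) ≤ (2 ^ M) ^ (r + 1) * V ^ (r + 1) := by
    rw [← mul_pow]
    exact pow_le_pow_left₀ (Nat.cast_nonneg _) hnum _
  rw [hval] at hb
  have hx : (2 : ℝ) ^ M ≤ (2 ^ M) ^ (r + 1) := by
    have h2 : (1 : ℝ) ≤ 2 ^ M := one_le_pow₀ (by norm_num)
    calc (2 : ℝ) ^ M = (2 ^ M) ^ 1 := (pow_one _).symm
      _ ≤ (2 ^ M) ^ (r + 1) := pow_le_pow_right₀ h2 (by omega)
  set x : ℝ := (2 ^ M) ^ (r + 1) with hxdef
  have hx0 : 0 ≤ x := by rw [hxdef]; positivity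
  have h4 : ε * (numVert T : ℝ) ^ (r + 1) ≤ a / 2 * x := by
    calc ε * (numVert T : ℝ) ^ (r + 1) ≤ ε * (x * V ^ (r + 1)) :=
          mul_le_mul_of_nonneg_left hpow hεpos.le
      _ = (ε * V ^ (r + 1)) * x := by ring
      _ ≤ a / 2 * x := mul_le_mul_of_nonneg_right hεV hx0
  have h5 : a / 2 * x ≤ C := by linarith
  have h6 : 2 * |C| / a + 1 < x := lt_of_lt_of_le hM hx
  have h7 : a / 2 * (2 * |C| / a + 1) < a / 2 * x := mul_lt_mul_of_pos_left h6 (by positivity)
  have h8 : a / 2 * (2 * |C| / a + 1) = |C| + a / 2 := by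
    field_simp
  have h9 : C ≤ |C| := le_abs_self C
  linarith

/-- **all dimensions, polynomial error terms** -/
theorem all_poly [Nonempty ι] :
    (∀ (m N : ℕ) (S : Finset (Finset (Fin N))), (∀ i, IsFlagSphere (k i) (2 * m) S) →
      0 ≤ (-1) ^ m * omega S) ↔
    ∀ g : ℕ, ∃ n j : ℕ, g ≤ n ∧ ∃ C : ℝ, ∀ (N : ℕ) (T : Finset (Finset (Fin N))),
      (∀ i, IsFlagSphere (k i) (2 * n + j) T) → -(C * (numVert T : ℝ) ^ (n - g)) ≤ kap n j T := by
  constructor
  · intro h g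
    refine ⟨g, 0, le_rfl, 0, fun N T hT => ?_⟩
    rw [zero_mul, neg_zero, kap_zero hT]
    exact_mod_cast h g N T hT
  · intro h m N S hS
    obtain ⟨n, j, hmn, C, hC⟩ := h m
    refine fixed hmn (j := j) (fun ε hε => ⟨|C| * (|C| / ε) ^ (n - m), fun N' T hT => ?_⟩) hS
    have h1 := hC N' T hT
    refine le_trans ?_ h1
    set x : ℝ := (numVert T : ℝ) with hx
    have hx0 : 0 ≤ x := Nat.cast_nonneg _
    have h2 : C * x ^ (n - m) ≤ |C| * x ^ (n - m) :=
      mul_le_mul_of_nonneg_right (le_abs_self C) (by positivity)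
    have h3 : |C| * x ^ (n - m) ≤ ε * x ^ (n - m + 1) + |C| * (|C| / ε) ^ (n - m) := by
      rcases le_total (|C| / ε) x with h4 | h4
      · have h5 : |C| ≤ ε * x := by
          rw [div_le_iff₀ hε] at h4
          linarith
        have h6 : |C| * x ^ (n - m) ≤ ε * x * x ^ (n - m) :=
          mul_le_mul_of_nonneg_right h5 (by positivity)
        have h7 : ε * x * x ^ (n - m) = ε * x ^ (n - m + 1) := by rw [pow_succ]; ring
        have h8 : 0 ≤ |C| * (|C| / ε) ^ (n - m) := by positivity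
        linarith
      · have h5 : x ^ (n - m) ≤ (|C| / ε) ^ (n - m) := pow_le_pow_left₀ hx0 h4 _
        have h6 : |C| * x ^ (n - m) ≤ |C| * (|C| / ε) ^ (n - m) :=
          mul_le_mul_of_nonneg_left h5 (abs_nonneg C)
        have h8 : 0 ≤ ε * x ^ (n - m + 1) := by positivity
        linarith
    linarith

/-- **all dimensions, exponential error terms** -/
theorem all_exp [Nonempty ι] :
    (∀ (m N : ℕ) (S : Finset (Finset (Fin N))), (∀ i, IsFlagSphere (k i) (2 * m) S) →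
      0 ≤ (-1) ^ m * omega S) ↔
    ∃ (j : ℕ) (β C : ℝ), 0 ≤ β ∧ β ^ 10 < 2 ∧ ∀ (n N : ℕ) (T : Finset (Finset (Fin N))),
      (∀ i, IsFlagSphere (k i) (2 * n + j) T) → -(C * β ^ numVert T) ≤ kap n j T := by
  constructor
  · intro h
    refine ⟨0, 1, 0, zero_le_one, by norm_num, fun n N T hT => ?_⟩
    rw [zero_mul, neg_zero, kap_zero hT]
    exact_mod_cast h n N T hT
  · rintro ⟨j, β, C, hβ0, hβ, hC⟩ m N S hS
    by_contra hneg
    push Not at hneg
    set l := omega S with hl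
    set v := numVert S with hv
    have hR := rz_of hS
    rw [← hl, ← hv] at hR
    set c : ℝ := -(((-1) ^ m * l : ℚ) : ℝ) with hc
    have hcpos : 0 < c := by
      rw [hc]
      have : (((-1) ^ m * l : ℚ) : ℝ) < 0 := by exact_mod_cast hneg
      linarith
    set b : ℝ := max β 1 with hb
    have hb1 : 1 ≤ b := le_max_right _ _
    have hb10 : b ^ 10 < 2 := by
      rcases le_total β 1 with h | h
      · rw [hb, max_eq_right h]; norm_num
      · rw [hb, max_eq_left h]; exact hβ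
    have hb20 : b ^ 20 < 4 := by
      have h1 : b ^ 20 = (b ^ 10) ^ 2 := by ring
      have h2 : 0 ≤ b ^ 10 := by positivity
      rw [h1]
      nlinarith
    set q : ℝ := b ^ 20 / 4 with hq
    have hq0 : 0 ≤ q := by rw [hq]; positivity
    have hq1 : q < 1 := by rw [hq]; linarith
    set D : ℝ := |C| * b ^ (v + 2 * j) + 1 with hD
    have hDpos : 0 < D := by rw [hD]; positivity
    obtain ⟨r, hr⟩ := exists_pow_lt_of_lt_one (show 0 < c / D by positivity) hq1
    have hA := (hR.join ((Rz_twenty (k := k)).pow r)).rj j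
    have e1 : 2 * m + r * 2 + j = 2 * (m + r) + j := by omega
    rw [e1] at hA
    obtain ⟨N', T, hTs, hTk, hTv⟩ := kap_of_rj (n := m + r) hA
    have hbd := hC (m + r) N' T hTs
    have hval : kap (m + r) j T = -(2 ^ j * c * 4 ^ r) := by
      rw [hTk, hc]
      push_cast
      have e2 : (-4 : ℝ) ^ r = (-1) ^ r * 4 ^ r := by rw [← mul_pow]; norm_num
      have e3 : (-1 : ℝ) ^ r * (-1) ^ r = 1 := by rw [← mul_pow]; norm_num
      rw [e2, pow_add]
      calc (-1 : ℝ) ^ m * (-1) ^ r * (2 ^ j * ((l : ℝ) * ((-1) ^ r * 4 ^ r)))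
          = ((-1) ^ r * (-1) ^ r) * ((-1 : ℝ) ^ m * (2 ^ j * ((l : ℝ) * 4 ^ r))) := by ring
        _ = _ := by rw [e3]; ring
    rw [hval] at hbd
    have h1 : C * β ^ numVert T ≤ |C| * b ^ (v + 2 * j) * (b ^ 20) ^ r := by
      have h2 : β ^ numVert T ≤ b ^ numVert T := pow_le_pow_left₀ hβ0 (le_max_left _ _) _
      have h3 : b ^ numVert T ≤ b ^ (v + r * 20 + 2 * j) := pow_le_pow_right₀ hb1 hTv
      have h4 : b ^ (v + r * 20 + 2 * j) = b ^ (v + 2 * j) * (b ^ 20) ^ r := by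
        rw [← pow_mul, ← pow_add]
        congr 1
        ring
      calc C * β ^ numVert T ≤ |C| * β ^ numVert T :=
            mul_le_mul_of_nonneg_right (le_abs_self C) (by positivity)
        _ ≤ |C| * (b ^ (v + 2 * j) * (b ^ 20) ^ r) := by
            rw [← h4]
            exact mul_le_mul_of_nonneg_left (h2.trans h3) (abs_nonneg C)
        _ = _ := by ring
    have h5 : 2 ^ j * c * 4 ^ r ≤ D * (b ^ 20) ^ r := by
      have h6 : |C| * b ^ (v + 2 * j) * (b ^ 20) ^ r ≤ D * (b ^ 20) ^ r := by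
        refine mul_le_mul_of_nonneg_right ?_ (by positivity)
        rw [hD]; linarith
      linarith
    have h7 : (b ^ 20) ^ r = q ^ r * 4 ^ r := by
      rw [hq, div_pow, div_mul_cancel₀]
      positivity
    rw [h7, ← mul_assoc] at h5
    have h8 : 2 ^ j * c ≤ D * q ^ r := le_of_mul_le_mul_right h5 (by positivity)
    have h9 : D * q ^ r < c := by
      rw [lt_div_iff₀ hDpos] at hr
      linarith
    have h10 : c ≤ 2 ^ j * c := by
      have : (1 : ℝ) ≤ 2 ^ j := one_le_pow₀ (by norm_num)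
      nlinarith
    linarith

end Pool.Agent.D0H80.CD
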