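import Pool.Agent.D0H80.CD.Port

set_option autoImplicit false
set_option linter.unusedSectionVars false
set_option linter.unusedVariables false

/-! # Any two spheres of the same rank are links in a sphere -/

namespace Pool.Agent.D0H80.CD

open Pool.Agent.W497.FS

section Join

/-- the left summand -/
def jl {α β : Type} (a : α) : α ⊕ₗ β := toLex (Sum.inl a)

/-- the right summand -/
def jr {α β : Type} (b : β) : α ⊕ₗ β := toLex (Sum.inr b)

theorem jcases {α β : Type} (p : α ⊕ₗ β) : (∃ a, p = jl a) ∨ ∃ b, p = jr b := by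
  rcases h : ofLex p with a | b
  · left; exact ⟨a, by rw [jl, ← h]; rfl⟩
  · right; exact ⟨b, by rw [jr, ← h]; rfl⟩

theorem jl_inj {α β : Type} {a a' : α} (h : (jl a : α ⊕ₗ β) = jl a') : a = a' :=
  Sum.inl_injective (toLex.injective h)

theorem jr_inj {α β : Type} {a a' : β} (h : (jr a : α ⊕ₗ β) = jr a') : a = a' :=
  Sum.inr_injective (toLex.injective h)

theorem jlr {α β : Type} {a : α} {b : β} (h : (jl a : α ⊕ₗ β) = jr b) : False := by
  have := toLex.injective h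
  simp at this

/-- the vertices of a join -/
def JW {α β : Type} (W : Finset α) (V : Finset β) : Finset (α ⊕ₗ β) :=
  (W.disjSum V).map toLex.toEmbedding

variable {α β : Type} {W : Finset α} {V : Finset β} {H : SimpleGraph α} {K : SimpleGraph β}

theorem mem_JW_l {a : α} : (jl a : α ⊕ₗ β) ∈ JW W V ↔ a ∈ W := by
  rw [JW, Finset.mem_map]
  constructor
  · rintro ⟨p, hp, he⟩
    have : p = Sum.inl a := toLex.injective he
    rw [this] at hp
    exact Finset.inl_mem_disjSum.1 hp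
  · intro h
    exact ⟨Sum.inl a, Finset.inl_mem_disjSum.2 h, rfl⟩

theorem mem_JW_r {b : β} : (jr b : α ⊕ₗ β) ∈ JW W V ↔ b ∈ V := by
  rw [JW, Finset.mem_map]
  constructor
  · rintro ⟨p, hp, he⟩
    have : p = Sum.inr b := toLex.injective he
    rw [this] at hp
    exact Finset.inr_mem_disjSum.1 hp
  · intro h
    exact ⟨Sum.inr b, Finset.inr_mem_disjSum.2 h, rfl⟩

theorem jll {a a' : α} : (joinG H K).Adj (jl a) (jl a') ↔ H.Adj a a' := Iff.rfl
theorem jrr {a a' : β} : (joinG H K).Adj (jr a) (jr a') ↔ K.Adj a a' := Iff.rfl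
theorem jladj {a : α} {b : β} : (joinG H K).Adj (jl a) (jr b) := trivial
theorem jradj {a : α} {b : β} : (joinG H K).Adj (jr b) (jl a) := trivial

theorem lk_jl {a : α} : lk (joinG H K) (JW W V) (jl a) = JW (lk H W a) V := by
  ext p
  rw [mem_lk]
  rcases jcases p with ⟨a', rfl⟩ | ⟨b', rfl⟩
  · rw [mem_JW_l, mem_JW_l, mem_lk, jll]
  · rw [mem_JW_r, mem_JW_r]
    exact ⟨fun h => h.1, fun h => ⟨h, jladj⟩⟩

theorem lk_jr {b : β} : lk (joinG H K) (JW W V) (jr b) = JW W (lk K V b) := by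
  ext p
  rw [mem_lk]
  rcases jcases p with ⟨a', rfl⟩ | ⟨b', rfl⟩
  · rw [mem_JW_l, mem_JW_l]
    exact ⟨fun h => h.1, fun h => ⟨h, jradj⟩⟩
  · rw [mem_JW_r, mem_JW_r, mem_lk, jrr]

theorem LI_jl {μ : Type} {M : SimpleGraph μ} {Y : Finset μ} {x : α} (h : LI H W x M Y) :
    LI (joinG H K) (JW W V) (jl x) (joinG M K) (JW Y V) := by
  obtain ⟨g, h1, h2, h3, h4⟩ := h
  let g' : μ ⊕ₗ β → α ⊕ₗ β := fun p => match ofLex p with
    | Sum.inl y => jl (g y)
    | Sum.inr b => jr b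
  have e1 : ∀ y, g' (jl y) = jl (g y) := fun y => rfl
  have e2 : ∀ b, g' (jr b) = jr b := fun b => rfl
  refine ⟨g', ?_, ?_, ?_, ?_⟩
  · intro p hp
    rw [lk_jl]
    rcases jcases p with ⟨a', rfl⟩ | ⟨b', rfl⟩
    · rw [e1, mem_JW_l]; exact h1 _ (mem_JW_l.1 hp)
    · rw [e2, mem_JW_r]; exact mem_JW_r.1 hp
  · intro p hp q hq he
    rcases jcases p with ⟨a, rfl⟩ | ⟨b, rfl⟩ <;> rcases jcases q with ⟨a', rfl⟩ | ⟨b', rfl⟩
    · rw [h2 a (mem_JW_l.1 hp) a' (mem_JW_l.1 hq) (jl_inj he)]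
    · exact absurd he jlr
    · exact absurd he.symm jlr
    · rw [jr_inj he]
  · intro p hp
    rw [lk_jl] at hp
    rcases jcases p with ⟨a, rfl⟩ | ⟨b, rfl⟩
    · obtain ⟨y, hy, rfl⟩ := h3 a (mem_JW_l.1 hp)
      exact ⟨jl y, mem_JW_l.2 hy, rfl⟩
    · exact ⟨jr b, mem_JW_r.2 (mem_JW_r.1 hp), rfl⟩
  · intro p hp q hq
    rcases jcases p with ⟨a, rfl⟩ | ⟨b, rfl⟩ <;> rcases jcases q with ⟨a', rfl⟩ | ⟨b', rfl⟩
    · exact h4 a (mem_JW_l.1 hp) a' (mem_JW_l.1 hq)
    · exact Iff.rfl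
    · exact Iff.rfl
    · exact Iff.rfl

variable {ι : Type} {k : ι → Type} [∀ i, Field (k i)]

theorem Sp_join [LinearOrder α] [Fintype α] [LinearOrder β] [Fintype β] {d e : ℕ}
    (h : Sp k H d W) (h' : Sp k K e V) :
    Sp k (joinG H K) (d + e) (JW W V) ∧ lam (joinG H K) (JW W V) = lam H W * lam K V := by
  let f : α ↪o (α ⊕ₗ β) := OrderEmbedding.ofStrictMono _ (Sum.Lex.inl_strictMono (α := α) (β := β))
  let g : β ↪o (α ⊕ₗ β) := OrderEmbedding.ofStrictMono _ (Sum.Lex.inr_strictMono (α := α) (β := β))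
  have c1 : Cmp f H (joinG H K) W := fun a _ b _ => Iff.rfl
  have c2 : Cmp g K (joinG H K) V := fun a _ b _ => Iff.rfl
  have hfull : Full (joinG H K) (W.map f.toEmbedding) (V.map g.toEmbedding) := by
    intro a ha b hb
    obtain ⟨x, _, rfl⟩ := Finset.mem_map.1 ha
    obtain ⟨y, _, rfl⟩ := Finset.mem_map.1 hb
    exact trivial
  have n1 := NP_map c1 h.np
  have n2 := NP_map c2 h'.np
  have hU : JW W V = W.map f.toEmbedding ∪ V.map g.toEmbedding := by
    ext p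
    rw [Finset.mem_union, Finset.mem_map, Finset.mem_map]
    rcases jcases p with ⟨a, rfl⟩ | ⟨b, rfl⟩
    · rw [mem_JW_l]
      constructor
      · exact fun ha => Or.inl ⟨a, ha, rfl⟩
      · rintro (⟨a', ha', he⟩ | ⟨b', hb', he⟩)
        · have : (jl a' : α ⊕ₗ β) = jl a := he
          rw [← jl_inj this]; exact ha'
        · have : (jr b' : α ⊕ₗ β) = jl a := he
          exact absurd this.symm jlr
    · rw [mem_JW_r]
      constructor
      · exact fun ha => Or.inr ⟨b, ha, rfl⟩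
      · rintro (⟨a', ha', he⟩ | ⟨b', hb', he⟩)
        · have : (jl a' : α ⊕ₗ β) = jr b := he
          exact absurd this jlr
        · have : (jr b' : α ⊕ₗ β) = jr b := he
          rw [← jr_inj this]; exact hb'
  rw [hU]
  exact ⟨⟨join_np _ rfl hfull n1 n2, fun i =>
    join_hs _ rfl hfull n1 n2 (HS_map c1 (h.hs i)) (HS_map c2 (h'.hs i))⟩, by
      rw [lam_join hfull, lam_map c1, lam_map c2]⟩

theorem BS.join {d e : ℕ} {μ ν : Type} {M : SimpleGraph μ} {Y : Finset μ}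
    {M' : SimpleGraph ν} {Y' : Finset ν} {l : ℚ} [LinearOrder β] [Fintype β]
    (h : BS k d M Y M' Y' l) (h' : Sp k K e V) :
    BS k (d + e) (joinG M K) (JW Y V) (joinG M' K) (JW Y' V) (l * lam K V) := by
  obtain ⟨α, o, ft, H, W, x, x', h1, h2, h3, h4, h5, h6, h7, rfl⟩ := h
  obtain ⟨s1, s2⟩ := Sp_join h1 h'
  exact ⟨α ⊕ₗ β, inferInstance, inferInstance, joinG H K, JW W V, jl x, jl x', s1, mem_JW_l.2 h2,
    mem_JW_l.2 h3, fun h => h4 (jl_inj h), h5, LI_jl h6, LI_jl h7, s2⟩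

end Join

section

variable {ι : Type} {k : ι → Type} [∀ i, Field (k i)]

theorem Sp.lk {α : Type} [LinearOrder α] [Fintype α] {H : SimpleGraph α} {W : Finset α} {d : ℕ}
    (h : Sp k H (d + 1) W) {v : α} (hv : v ∈ W) : Sp k H d (lk H W v) :=
  ⟨h.np.lk hv, fun i => (h.hs i).lk hv⟩

theorem Sp_pentagon : Sp k pent 2 (Finset.univ : Finset (Fin 5)) := ⟨NP_pent, fun i => HS_pent⟩

/-- subdividing an edge of the suspension -/
theorem U_step {μ : Type} [LinearOrder μ] [Fintype μ] {M : SimpleGraph μ} {Y : Finset μ} {e : ℕ}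
    (hS : Sp k M (e + 1) Y) {z : μ} (hz : z ∈ Y) :
    ∃ c, BS k (e + 2) M Y (joinG M (⊥ : SimpleGraph (Fin 2))) (JW (lk M Y z) {0, 1}) c := by
  classical
  have hA := (Sp_join hS (Sp_pair (k := k))).1
  have hB := (Sp_join (hS.lk hz) (Sp_pentagon (k := k))).1
  set A : SimpleGraph (μ ⊕ₗ Fin 2) := joinG M ⊥ with hAdef
  set B : SimpleGraph (μ ⊕ₗ Fin 5) := joinG M pent with hBdef
  set D := lk M Y z with hD
  have p0 : lk pent (Finset.univ : Finset (Fin 5)) 0 = {4, 1} := by rw [lk_pent]; decide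
  have p2 : lk pent (Finset.univ : Finset (Fin 5)) 2 = {1, 3} := by rw [lk_pent]; decide
  have lA : lk A (JW Y {0, 1}) (jl z) = JW D {0, 1} := lk_jl
  have lB : lk B (JW D Finset.univ) (jr 0) = JW D {4, 1} := by rw [← p0]; exact lk_jr
  have lB2 : lk B (JW D Finset.univ) (jr 2) = JW D {1, 3} := by rw [← p2]; exact lk_jr
  let t0 : Fin 5 → Fin 2 := fun t => if t = 4 then 0 else 1
  let φ : μ ⊕ₗ Fin 5 → μ ⊕ₗ Fin 2 := fun p => match ofLex p with
    | Sum.inl m => jl m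
    | Sum.inr t => jr (t0 t)
  have φl : ∀ m, φ (jl m) = jl m := fun m => rfl
  have φr : ∀ t, φ (jr t) = jr (t0 t) := fun t => rfl
  have tt : ∀ t ∈ ({4, 1} : Finset (Fin 5)), t0 t ∈ ({0, 1} : Finset (Fin 2)) := by decide
  have ti : ∀ t ∈ ({4, 1} : Finset (Fin 5)), ∀ t' ∈ ({4, 1} : Finset (Fin 5)), t0 t = t0 t' →
    t = t' := by decide
  have ts : ∀ s ∈ ({0, 1} : Finset (Fin 2)), ∃ t ∈ ({4, 1} : Finset (Fin 5)), t0 t = s := by decide
  have ta : ∀ t ∈ ({4, 1} : Finset (Fin 5)), ∀ t' ∈ ({4, 1} : Finset (Fin 5)),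
    ¬ pent.Adj t t' := by decide
  obtain ⟨γ, oγ, fγ, G, i, j, c1, c2, hG, hSp, hlam, hji, hij⟩ := glue_abs (φ := φ)
    (v := (jl z : μ ⊕ₗ Fin 2)) (u := (jr 0 : μ ⊕ₗ Fin 5)) hA hB (mem_JW_l.2 hz)
    (mem_JW_r.2 (Finset.mem_univ _))
    (by
      intro b hb
      rw [lB] at hb
      rw [lA]
      rcases jcases b with ⟨m, rfl⟩ | ⟨t, rfl⟩
      · rw [φl, mem_JW_l]; exact mem_JW_l.1 hb
      · rw [φr, mem_JW_r]; exact tt t (mem_JW_r.1 hb))
    (by
      intro b hb b' hb' he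
      rw [lB] at hb hb'
      rcases jcases b with ⟨m, rfl⟩ | ⟨t, rfl⟩ <;> rcases jcases b' with ⟨m', rfl⟩ | ⟨t', rfl⟩
      · rw [jl_inj he]
      · exact absurd he jlr
      · exact absurd he.symm jlr
      · rw [ti t (mem_JW_r.1 hb) t' (mem_JW_r.1 hb') (jr_inj he)])
    (by
      intro a ha
      rw [lA] at ha
      rw [lB]
      rcases jcases a with ⟨m, rfl⟩ | ⟨s, rfl⟩
      · exact ⟨jl m, mem_JW_l.2 (mem_JW_l.1 ha), rfl⟩
      · obtain ⟨t, ht, rfl⟩ := ts s (mem_JW_r.1 ha)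
        exact ⟨jr t, mem_JW_r.2 ht, rfl⟩)
    (by
      intro b hb b' hb'
      rw [lB] at hb hb'
      rcases jcases b with ⟨m, rfl⟩ | ⟨t, rfl⟩ <;> rcases jcases b' with ⟨m', rfl⟩ | ⟨t', rfl⟩
      · exact Iff.rfl
      · exact Iff.rfl
      · exact Iff.rfl
      · constructor
        · intro h; exact absurd h (ta t (mem_JW_r.1 hb) t' (mem_JW_r.1 hb'))
        · intro h; exact absurd h (fun h => h))
  -- the second vertex
  have L2 : LI B (JW D Finset.univ) (jr 2) A (JW D {0, 1}) := by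
    let s0 : Fin 2 → Fin 5 := fun s => if s = 0 then 1 else 3
    let g : μ ⊕ₗ Fin 2 → μ ⊕ₗ Fin 5 := fun p => match ofLex p with
      | Sum.inl m => jl m
      | Sum.inr s => jr (s0 s)
    have gl : ∀ m, g (jl m) = jl m := fun m => rfl
    have gr : ∀ s, g (jr s) = jr (s0 s) := fun s => rfl
    have q1 : ∀ s ∈ ({0, 1} : Finset (Fin 2)), s0 s ∈ ({1, 3} : Finset (Fin 5)) := by decide
    have q2 : ∀ s ∈ ({0, 1} : Finset (Fin 2)), ∀ s' ∈ ({0, 1} : Finset (Fin 2)), s0 s = s0 s' →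
      s = s' := by decide
    have q3 : ∀ t ∈ ({1, 3} : Finset (Fin 5)), ∃ s ∈ ({0, 1} : Finset (Fin 2)), s0 s = t := by
      decide
    have q4 : ∀ s ∈ ({0, 1} : Finset (Fin 2)), ∀ s' ∈ ({0, 1} : Finset (Fin 2)),
      ¬ pent.Adj (s0 s) (s0 s') := by decide
    refine ⟨g, ?_, ?_, ?_, ?_⟩
    · intro b hb
      rw [lB2]
      rcases jcases b with ⟨m, rfl⟩ | ⟨t, rfl⟩
      · rw [gl, mem_JW_l]; exact mem_JW_l.1 hb
      · rw [gr, mem_JW_r]; exact q1 t (mem_JW_r.1 hb)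
    · intro b hb b' hb' he
      rcases jcases b with ⟨m, rfl⟩ | ⟨t, rfl⟩ <;> rcases jcases b' with ⟨m', rfl⟩ | ⟨t', rfl⟩
      · rw [jl_inj he]
      · exact absurd he jlr
      · exact absurd he.symm jlr
      · rw [q2 t (mem_JW_r.1 hb) t' (mem_JW_r.1 hb') (jr_inj he)]
    · intro a ha
      rw [lB2] at ha
      rcases jcases a with ⟨m, rfl⟩ | ⟨s, rfl⟩
      · exact ⟨jl m, mem_JW_l.2 (mem_JW_l.1 ha), rfl⟩
      · obtain ⟨t, ht, rfl⟩ := q3 s (mem_JW_r.1 ha)
        exact ⟨jr t, mem_JW_r.2 ht, rfl⟩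
    · intro b hb b' hb'
      rcases jcases b with ⟨m, rfl⟩ | ⟨t, rfl⟩ <;> rcases jcases b' with ⟨m', rfl⟩ | ⟨t', rfl⟩
      · exact Iff.rfl
      · exact Iff.rfl
      · exact Iff.rfl
      · constructor
        · intro h; exact absurd h (fun h => h)
        · intro h; exact absurd h (q4 t (mem_JW_r.1 hb) t' (mem_JW_r.1 hb'))
  have n20 : ¬ pent.Adj 2 0 := by decide
  have n03 : ¬ pent.Adj 0 3 := by decide
  have n42 : ¬ pent.Adj 4 2 := by decide
  have a43 : pent.Adj 4 3 := by decide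
  obtain ⟨b1, b2, b3⟩ := LI_glue c2 hG.symm (mem_JW_r.2 (Finset.mem_univ _))
    (x := (jr 2 : μ ⊕ₗ Fin 5)) (mem_JW_r.2 (Finset.mem_univ _))
    (fun h => absurd (jr_inj h) (by decide)) n20 L2
  rw [glueG_comm, Finset.union_comm] at b3
  -- the first vertex
  set X₁ := ((JW Y {0, 1}).map i).erase (i (jl z)) with hX₁
  set X₂ := ((JW D Finset.univ).map j).erase (j (jr 0)) with hX₂
  have m4 : (jr 4 : μ ⊕ₗ Fin 5) ∈ lk B (JW D Finset.univ) (jr 0) := by
    rw [lB, mem_JW_r]; decide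
  have hx : j (jr 4) = i (jr 0) := hji _ m4
  have x1 : i (jr 0) ∈ X₁ := Finset.mem_erase.2 ⟨fun h => jlr (i.injective h).symm,
    Finset.mem_map_of_mem _ (mem_JW_r.2 (Finset.mem_insert_self _ _))⟩
  have x2 : i (jr 0) ∈ X₂ := by
    rw [← hx]
    exact Finset.mem_erase.2 ⟨fun h => absurd (jr_inj (j.injective h)) (by decide),
      Finset.mem_map_of_mem _ (mem_JW_r.2 (Finset.mem_univ _))⟩
  have r3 : j (jr 3) ∈ X₂ := Finset.mem_erase.2
    ⟨fun h => absurd (jr_inj (j.injective h)) (by decide),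
      Finset.mem_map_of_mem _ (mem_JW_r.2 (Finset.mem_univ _))⟩
  have r3' : j (jr 3) ∉ X₁ := by
    intro h
    obtain ⟨a, -, ha⟩ := Finset.mem_map.1 (Finset.mem_of_mem_erase h)
    have h1 := (hij a _ ha).1
    rw [lB, mem_JW_r] at h1
    exact absurd h1 (by decide)
  have y1 : ∀ y ∈ Y, y ≠ z → i (jl y) ∈ X₁ := fun y hy hyz =>
    Finset.mem_erase.2 ⟨fun h => hyz (jl_inj (i.injective h)),
      Finset.mem_map_of_mem _ (mem_JW_l.2 hy)⟩
  have y2 : ∀ y ∈ D, j (jl y) = i (jl y) := fun y hy => hji _ (by rw [lB]; exact mem_JW_l.2 hy)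
  have y3 : ∀ y ∈ D, i (jl y) ∈ X₂ := fun y hy => by
    rw [← y2 y hy]
    exact Finset.mem_erase.2 ⟨fun h => jlr (j.injective h),
      Finset.mem_map_of_mem _ (mem_JW_l.2 hy)⟩
  have y4 : ∀ y, i (jl y) ∈ X₂ → y ∈ D := by
    intro y h
    obtain ⟨b, -, hb⟩ := Finset.mem_map.1 (Finset.mem_of_mem_erase h)
    obtain ⟨h1, h2⟩ := hij _ _ hb.symm
    rw [lB] at h1
    rcases jcases b with ⟨m, rfl⟩ | ⟨t, rfl⟩
    · rw [φl] at h2
      rw [jl_inj h2]
      exact mem_JW_l.1 h1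
    · rw [φr] at h2
      exact absurd h2 jlr
  have e1 : lk (glueG G X₁ X₂) (X₁ ∪ X₂) (i (jr 0)) = lk G X₁ (i (jr 0)) ∪ lk G X₂ (i (jr 0)) :=
    lk_glue_both x1 x2
  have key : ∀ y ∈ Y, y ≠ z → (M.Adj z y ↔ (glueG G X₁ X₂).Adj (j (jr 3)) (i (jl y))) := by
    intro y hy hyz
    constructor
    · intro h
      have hyD : y ∈ D := mem_lk.2 ⟨hy, h⟩
      refine ⟨?_, Or.inr ⟨r3, y3 y hyD⟩⟩
      rw [← y2 y hyD]
      exact (c2 _ (mem_JW_r.2 (Finset.mem_univ _)) _ (mem_JW_l.2 hyD)).1 jradj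
    · rintro ⟨-, h | h⟩
      · exact absurd h.1 r3'
      · exact (mem_lk.1 (y4 y h.2)).2
  have L1 : LI (glueG G X₁ X₂) (X₁ ∪ X₂) (i (jr 0)) M Y := by
    let g : μ → γ := fun y => if y = z then j (jr 3) else i (jl y)
    have gz : g z = j (jr 3) := if_pos rfl
    have gn : ∀ y, y ≠ z → g y = i (jl y) := fun y h => if_neg h
    refine ⟨g, ?_, ?_, ?_, ?_⟩
    · intro y hy
      rw [e1, Finset.mem_union]
      by_cases h : y = z
      · right
        rw [h, gz, mem_lk]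
        refine ⟨r3, ?_⟩
        rw [← hx]
        exact (c2 _ (mem_JW_r.2 (Finset.mem_univ _)) _ (mem_JW_r.2 (Finset.mem_univ _))).1 a43
      · left
        rw [gn y h, mem_lk]
        exact ⟨y1 y hy h, (c1 _ (mem_JW_r.2 (Finset.mem_insert_self _ _)) _ (mem_JW_l.2 hy)).1
          jradj⟩
    · intro y hy y' hy' he
      by_cases h : y = z <;> by_cases h' : y' = z
      · rw [h, h']
      · rw [h, gz, gn y' h'] at he
        have := y1 y' hy' h'
        rw [← he] at this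
        exact absurd this r3'
      · rw [h', gz, gn y h] at he
        have := y1 y hy h
        rw [he] at this
        exact absurd this r3'
      · rw [gn y h, gn y' h'] at he
        exact jl_inj (i.injective he)
    · intro p hp
      rw [e1, Finset.mem_union] at hp
      rcases hp with hp | hp
      · obtain ⟨h1, h2⟩ := mem_lk.1 hp
        obtain ⟨h3, h4⟩ := Finset.mem_erase.1 h1
        obtain ⟨q, hq, rfl⟩ := Finset.mem_map.1 h4
        have h5 := (c1 _ (mem_JW_r.2 (Finset.mem_insert_self _ _)) _ hq).2 h2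
        rcases jcases q with ⟨y, rfl⟩ | ⟨s, rfl⟩
        · have hyz : y ≠ z := fun h => h3 (by rw [h])
          exact ⟨y, mem_JW_l.1 hq, gn y hyz⟩
        · exact absurd h5 (fun h => h)
      · obtain ⟨h1, h2⟩ := mem_lk.1 hp
        obtain ⟨h3, h4⟩ := Finset.mem_erase.1 h1
        obtain ⟨q, hq, rfl⟩ := Finset.mem_map.1 h4
        rw [← hx] at h2
        have h5 := (c2 _ (mem_JW_r.2 (Finset.mem_univ _)) _ hq).2 h2
        rcases jcases q with ⟨y, rfl⟩ | ⟨t, rfl⟩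
        · have hyD : y ∈ D := mem_JW_l.1 hq
          have hyz : y ≠ z := fun h => not_mem_lk_self (h ▸ hyD)
          refine ⟨y, lk_subset hyD, ?_⟩
          rw [gn y hyz]
          exact (y2 y hyD).symm
        · have h6 : pent.Adj 4 t := h5
          have h7 : t ≠ 0 := fun h => h3 (by rw [h])
          have h8 : ∀ t : Fin 5, pent.Adj 4 t → t ≠ 0 → t = 3 := by decide
          rw [h8 t h6 h7]
          exact ⟨z, hz, gz⟩
    · intro y hy y' hy'
      by_cases h : y = z <;> by_cases h' : y' = z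
      · rw [h, h']
        exact ⟨fun hh => absurd hh M.irrefl, fun hh => absurd hh (SimpleGraph.irrefl _)⟩
      · rw [h, gz, gn y' h']
        exact key y' hy' h'
      · rw [h', gz, gn y h, SimpleGraph.adj_comm, SimpleGraph.adj_comm _ (i (jl y))]
        exact key y hy h
      · rw [gn y h, gn y' h']
        constructor
        · intro hh
          exact ⟨(c1 _ (mem_JW_l.2 hy) _ (mem_JW_l.2 hy')).1 hh, Or.inl ⟨y1 y hy h, y1 y' hy' h'⟩⟩
        · rintro ⟨hh, -⟩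
          exact (c1 _ (mem_JW_l.2 hy) _ (mem_JW_l.2 hy')).2 hh
  refine ⟨_, γ, oγ, fγ, _, _, i (jr 0), j (jr 2), hSp, Finset.mem_union_left _ x1,
    Finset.mem_union_right _ b1, ?_, ?_, L1, b3, rfl⟩
  · intro h
    rw [← h] at b2
    exact b2 x1
  · rintro ⟨h, -⟩
    rw [← hx] at h
    exact n42 ((c2 _ (mem_JW_r.2 (Finset.mem_univ _)) _ (mem_JW_r.2 (Finset.mem_univ _))).2 h)

/-- **any two flag homology spheres of the same rank are links of non-adjacent vertices of a flag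
homology sphere** -/
theorem conv : ∀ (e : ℕ) {μ ν : Type} [LinearOrder μ] [Fintype μ] [LinearOrder ν] [Fintype ν]
    {M : SimpleGraph μ} {Y : Finset μ} {M' : SimpleGraph ν} {Y' : Finset ν},
    Sp k M e Y → Sp k M' e Y' → ∃ c, BS k (e + 1) M Y M' Y' c := by
  intro e
  induction e with
  | zero =>
    intro μ ν _ _ _ _ M Y M' Y' h h'
    have h0 : Y = ∅ := h.np
    have h0' : Y' = ∅ := h'.np
    subst h0 h0'
    have hn : ¬ (⊥ : SimpleGraph (Fin 2)).Adj 0 1 := fun h => h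
    have hn' : ¬ (⊥ : SimpleGraph (Fin 2)).Adj 1 0 := fun h => h
    have l1 : lk (⊥ : SimpleGraph (Fin 2)) {0, 1} 1 = ∅ := lk_pair_right (by decide) hn
    have l0 : lk (⊥ : SimpleGraph (Fin 2)) {0, 1} 0 = ∅ := by
      rw [Finset.pair_comm]
      exact lk_pair_right (by decide) hn'
    refine ⟨_, Fin 2, inferInstance, inferInstance, ⊥, {0, 1}, 0, 1, Sp_pair,
      Finset.mem_insert_self _ _, Finset.mem_insert_of_mem (Finset.mem_singleton_self _),
      by decide, hn, ?_, ?_, rfl⟩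
    · refine ⟨fun _ => 0, fun y hy => absurd hy (Finset.notMem_empty _),
        fun y hy => absurd hy (Finset.notMem_empty _), fun a ha => ?_,
        fun y hy => absurd hy (Finset.notMem_empty _)⟩
      rw [l0] at ha
      exact absurd ha (Finset.notMem_empty _)
    · refine ⟨fun _ => 0, fun y hy => absurd hy (Finset.notMem_empty _),
        fun y hy => absurd hy (Finset.notMem_empty _), fun a ha => ?_,
        fun y hy => absurd hy (Finset.notMem_empty _)⟩
      rw [l1] at ha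
      exact absurd ha (Finset.notMem_empty _)
  | succ e ih =>
    intro μ ν _ _ _ _ M Y M' Y' h h'
    obtain ⟨z, hz⟩ := h.np.nonempty
    obtain ⟨z', hz'⟩ := h'.np.nonempty
    obtain ⟨c, hc⟩ := ih (h.lk hz) (h'.lk hz')
    obtain ⟨c1, h1⟩ := U_step h hz
    obtain ⟨c2, h2⟩ := U_step h' hz'
    have h3 := hc.join (Sp_pair (k := k))
    exact ⟨_, (h1.comp h3).comp h2.symm⟩

end

end Pool.Agent.D0H80.CD
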