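import Pool.Agent.D0H80.CD.Amp

set_option autoImplicit false
set_option linter.unusedSectionVars false
set_option linter.unusedVariables false

/-! # The exponential growth rate -/

namespace Pool.Agent.D0H80.CD

open Pool.Agent.W497.FS

variable {ι : Type} {k : ι → Type} [∀ i, Field (k i)]

/-- a counterexample gives counterexamples with the growth rate of any sphere `K` -/
theorem growth [Nonempty ι] {a N₀ : ℕ} {K : Finset (Finset (Fin N₀))}
    (hK : ∀ i, IsFlagSphere (k i) (2 * a) K) {j : ℕ} {β C : ℝ} (hβ0 : 0 ≤ β)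
    (hβ : β ^ numVert K < |((omega K : ℚ) : ℝ)|)
    (hC : ∀ (n N : ℕ) (T : Finset (Finset (Fin N))),
      (∀ i, IsFlagSphere (k i) (2 * n + j) T) → -(C * β ^ numVert T) ≤ kap n j T)
    {m N : ℕ} {S : Finset (Finset (Fin N))} (hS : ∀ i, IsFlagSphere (k i) (2 * m) S) :
    0 ≤ (-1) ^ m * omega S := by
  by_contra hneg
  push Not at hneg
  set l := omega S with hl
  set v := numVert S with hv
  have hR := rz_of hS
  rw [← hl, ← hv] at hR
  have hRK := rz_of hK
  set w := numVert K with hw
  set o : ℝ := ((omega K : ℚ) : ℝ) with ho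
  set c : ℝ := -(((-1) ^ m * l : ℚ) : ℝ) with hc
  have hcpos : 0 < c := by
    rw [hc]
    have : (((-1) ^ m * l : ℚ) : ℝ) < 0 := by exact_mod_cast hneg
    linarith
  -- the ratio
  have ho2 : 0 < o ^ 2 := by
    have h1 : 0 < |o| := lt_of_le_of_lt (by positivity) hβ
    rw [← sq_abs]
    positivity
  -- the exponent of `β` may be enlarged
  rcases le_or_gt β 1 with hβ1 | hβ1
  · -- bounded error terms: use doubles
    rcases Nat.eq_zero_or_pos m with rfl | hm
    · have := omega_rank_zero hS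
      rw [← hl] at this
      linarith
    obtain ⟨d, hd⟩ : ∃ d, 2 * m = d + 1 := ⟨2 * m - 1, by omega⟩
    rw [hd] at hR
    obtain ⟨M, hM⟩ := pow_unbounded_of_one_lt (|C| / c) (by norm_num : (1 : ℝ) < 2)
    have hA := (hR.double_iter M).rj j
    rw [← hd] at hA
    obtain ⟨N', T, hTs, hTk, hTv⟩ := kap_of_rj (n := m) hA
    have hbd := hC m N' T hTs
    have hval : kap m j T = -(2 ^ j * c * 2 ^ M) := by
      rw [hTk, hc]
      push_cast
      ring
    rw [hval] at hbd
    have h1 : C * β ^ numVert T ≤ |C| := by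
      calc C * β ^ numVert T ≤ |C| * β ^ numVert T :=
            mul_le_mul_of_nonneg_right (le_abs_self C) (by positivity)
        _ ≤ |C| * 1 := mul_le_mul_of_nonneg_left (pow_le_one₀ hβ0 hβ1) (abs_nonneg C)
        _ = |C| := mul_one _
    rw [div_lt_iff₀ hcpos] at hM
    have h10 : c ≤ 2 ^ j * c := by
      have : (1 : ℝ) ≤ 2 ^ j := one_le_pow₀ (by norm_num)
      nlinarith
    have h11 : c * 2 ^ M ≤ 2 ^ j * c * 2 ^ M := mul_le_mul_of_nonneg_right h10 (by positivity)
    nlinarith
  · have hb1 : 1 ≤ β := hβ1.le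
    set b : ℝ := β ^ w with hb
    have hb0 : 0 < b := by rw [hb]; positivity
    have hb2 : b ^ 2 < o ^ 2 := by
      rw [← sq_abs o]
      exact pow_lt_pow_left₀ hβ hb0.le (by norm_num)
    set q : ℝ := b ^ 2 / o ^ 2 with hq
    have hq0 : 0 ≤ q := by rw [hq]; positivity
    have hq1 : q < 1 := by rw [hq, div_lt_one ho2]; exact hb2
    set D : ℝ := |C| * β ^ (v + 2 * j) + 1 with hD
    have hDpos : 0 < D := by rw [hD]; positivity
    obtain ⟨r, hr⟩ := exists_pow_lt_of_lt_one (show 0 < c / D by positivity) hq1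
    have hA := (hR.join (hRK.pow (2 * r))).rj j
    have e1 : 2 * m + 2 * r * (2 * a) + j = 2 * (m + 2 * (r * a)) + j := by ring
    rw [e1] at hA
    obtain ⟨N', T, hTs, hTk, hTv⟩ := kap_of_rj (n := m + 2 * (r * a)) hA
    have hbd := hC (m + 2 * (r * a)) N' T hTs
    have hval : kap (m + 2 * (r * a)) j T = -(2 ^ j * c * (o ^ 2) ^ r) := by
      rw [hTk, hc]
      push_cast
      have e2 : (-1 : ℝ) ^ (m + 2 * (r * a)) = (-1) ^ m := by
        rw [pow_add, pow_mul]
        norm_num
      rw [e2, ← ho, ← pow_mul]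
      ring
    rw [hval] at hbd
    have h1 : C * β ^ numVert T ≤ |C| * β ^ (v + 2 * j) * (b ^ 2) ^ r := by
      have h3 : β ^ numVert T ≤ β ^ (v + 2 * r * w + 2 * j) := pow_le_pow_right₀ hb1 hTv
      have h4 : β ^ (v + 2 * r * w + 2 * j) = β ^ (v + 2 * j) * (b ^ 2) ^ r := by
        rw [hb, ← pow_mul, ← pow_mul, ← pow_add]
        congr 1
        ring
      calc C * β ^ numVert T ≤ |C| * β ^ numVert T :=
            mul_le_mul_of_nonneg_right (le_abs_self C) (by positivity)
        _ ≤ |C| * (β ^ (v + 2 * j) * (b ^ 2) ^ r) := by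
            rw [← h4]
            exact mul_le_mul_of_nonneg_left h3 (abs_nonneg C)
        _ = _ := by ring
    have h5 : 2 ^ j * c * (o ^ 2) ^ r ≤ D * (b ^ 2) ^ r := by
      have h6 : |C| * β ^ (v + 2 * j) * (b ^ 2) ^ r ≤ D * (b ^ 2) ^ r := by
        refine mul_le_mul_of_nonneg_right ?_ (by positivity)
        rw [hD]; linarith
      linarith
    have h7 : (b ^ 2) ^ r = q ^ r * (o ^ 2) ^ r := by
      rw [hq, div_pow, div_mul_cancel₀]
      positivity
    rw [h7, ← mul_assoc] at h5
    have h8 : 2 ^ j * c ≤ D * q ^ r := le_of_mul_le_mul_right h5 (by positivity)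
    have h9 : D * q ^ r < c := by
      rw [lt_div_iff₀ hDpos] at hr
      linarith
    have h10 : c ≤ 2 ^ j * c := by
      have : (1 : ℝ) ≤ 2 ^ j := one_le_pow₀ (by norm_num)
      nlinarith
    linarith

end Pool.Agent.D0H80.CD
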