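import Pool.Agent.W497.FS.Acyc
import Pool.Agent.W497.FS.Final
import Pool.Agent.W497.FS.FarThm
import Pool.Agent.W216.FS.BB

set_option autoImplicit false
set_option linter.unusedSectionVars false
set_option linter.unusedVariables false

/-! # Homology spheres: adding a vertex, gluing, joins -/

namespace Pool.Agent.D0H80.CD

open Pool.Agent.W497.FS

variable {k : Type} [Field k] {α : Type} [LinearOrder α] [Fintype α] {H : SimpleGraph α}

theorem bd_bd (c : Finset α → k) : bd (bd c) = 0 := Pool.Agent.W216.FS.BB.main k α c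

/-- no reduced homology -/
def Acy (k : Type) [Field k] {α : Type} [LinearOrder α] [Fintype α] (H : SimpleGraph α)
    (X : Finset α) : Prop := ∀ j, Ex k H X j

/-- the homology of a sphere of rank `d`, except for the uniqueness of the top cycle -/
structure GH (k : Type) [Field k] {α : Type} [LinearOrder α] [Fintype α] (H : SimpleGraph α)
    (d : ℕ) (X : Finset α) : Prop where
  ex : ∀ j, j < d → Ex k H X j
  top : ∃ z : Finset α → k, On H X d z ∧ bd z = 0 ∧ z ≠ 0

theorem HS.gh {d : ℕ} {W : Finset α} (h : HS k H d W) : GH k H d W := by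
  constructor
  · intro j hj
    have := h.ex ∅ empty_mem_cl j (by simpa using hj)
    rwa [lkF_empty''] at this
  · have := h.top ∅ empty_mem_cl
    rwa [lkF_empty'', Finset.card_empty, Nat.sub_zero] at this

theorem HS.of_lk {d : ℕ} {W : Finset α} (h : GH k H d W)
    (hl : ∀ v ∈ W, ∃ e, d = e + 1 ∧ HS k H e (lk H W v)) : HS k H d W := by
  have key : ∀ κ ∈ cl H W, κ.Nonempty → ∃ v ∈ κ, v ∈ W ∧ κ.erase v ∈ cl H (lk H W v) ∧
      lkF H W κ = lkF H (lk H W v) (κ.erase v) ∧ κ.card = (κ.erase v).card + 1 := by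
    rintro κ hκ ⟨v, hv⟩
    rw [mem_cl] at hκ
    refine ⟨v, hv, hκ.1 hv, ?_, ?_, ?_⟩
    · rw [mem_cl]
      exact ⟨fun x hx => mem_lk.2 ⟨hκ.1 (Finset.mem_of_mem_erase hx),
        hκ.2 v hv x (Finset.mem_of_mem_erase hx) (Finset.ne_of_mem_erase hx).symm⟩,
        fun x hx y hy hxy => hκ.2 x (Finset.mem_of_mem_erase hx) y (Finset.mem_of_mem_erase hy) hxy⟩
    · rw [lkF_insert', Finset.insert_erase hv]
    · rw [Finset.card_erase_of_mem hv]
      have : 0 < κ.card := Finset.card_pos.2 ⟨v, hv⟩
      omega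
  constructor
  · intro κ hκ j hj
    rcases κ.eq_empty_or_nonempty with rfl | hne
    · rw [lkF_empty'']
      exact h.ex j (by simpa using hj)
    · obtain ⟨v, hv, hvW, h1, h2, h3⟩ := key κ hκ hne
      obtain ⟨e, he, hHS⟩ := hl v hvW
      rw [h2]
      exact hHS.ex _ h1 j (by omega)
  · intro κ hκ
    rcases κ.eq_empty_or_nonempty with rfl | hne
    · rw [lkF_empty'', Finset.card_empty, Nat.sub_zero]
      exact h.top
    · obtain ⟨v, hv, hvW, h1, h2, h3⟩ := key κ hκ hne
      obtain ⟨e, he, hHS⟩ := hl v hvW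
      have := hHS.top _ h1
      rw [h2]
      have e1 : d - κ.card = e - (κ.erase v).card := by omega
      rw [e1]
      exact this

/-! ### Cones and adding a vertex -/

/-- the cone over a chain -/
def cone (u : α) (e : Finset α → k) : Finset α → k :=
  fun A => if u ∈ A then sg k u (A.erase u) * e (A.erase u) else 0

theorem sg_insert_self (u : α) (A : Finset α) : sg k u (insert u A) = sg k u A := by
  rw [sg, sg, Finset.filter_insert, if_neg (lt_irrefl u)]

theorem cone_on {Y : Finset α} {u : α} (hu : u ∈ Y) {j : ℕ} {e : Finset α → k}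
    (he : On H (lk H Y u) j e) : On H Y (j + 1) (cone u e) := by
  intro A hA
  rw [cone] at hA
  split_ifs at hA with huA
  · obtain ⟨h1, h2⟩ := he (A.erase u) (fun h => hA (by rw [h, mul_zero]))
    obtain ⟨h3, h4⟩ := insert_mem_cl hu h1
    rw [Finset.insert_erase huA] at h3
    refine ⟨h3, ?_⟩
    rw [Finset.card_erase_of_mem huA] at h2
    have : 0 < A.card := Finset.card_pos.2 ⟨u, huA⟩
    omega
  · exact absurd rfl hA

theorem lpart_cone {u : α} {e : Finset α → k} (he : ∀ A, u ∈ A → e A = 0) :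
    lpart u (cone u e) = e := by
  funext A
  rw [lpart]
  split_ifs with hu
  · exact (he A hu).symm
  · rw [cone, if_pos (Finset.mem_insert_self u A), Finset.erase_insert hu, ← mul_assoc,
      sg_mul_self, one_mul]

theorem dpart_cone {u : α} {e : Finset α → k} : dpart u (cone u e) = 0 := by
  funext A
  rw [dpart]
  split_ifs with hu
  · rfl
  · rw [cone, if_neg hu]; rfl

theorem bd_cone_of_notMem {u : α} {e : Finset α → k} (he : ∀ A, u ∈ A → e A = 0) {A : Finset α}
    (hu : u ∉ A) : bd (cone u e) A = e A := by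
  rw [bd_split hu, dpart_cone, lpart_cone he, bd_zero, Pi.zero_apply, zero_add]

theorem bd_cone_insert {u : α} {e : Finset α → k} (he : ∀ A, u ∈ A → e A = 0) {A : Finset α}
    (hu : u ∉ A) : bd (cone u e) (insert u A) = - (sg k u A * bd e A) := by
  have h1 := bd_lpart (c := cone u e) hu
  rw [lpart_cone he] at h1
  have h2 := sg_mul_self (k := k) u A
  calc bd (cone u e) (insert u A) = (sg k u A * sg k u A) * bd (cone u e) (insert u A) := by
        rw [h2, one_mul]
    _ = - (sg k u A * bd e A) := by rw [h1]; ring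

/-- a chain on `Y` without part at `u` -/
theorem on_erase {Y : Finset α} {u : α} {j : ℕ} {c : Finset α → k} (hc : On H Y j c)
    (h : ∀ A, u ∈ A → c A = 0) : On H (Y.erase u) j c := by
  intro A hA
  obtain ⟨h1, h2⟩ := hc A hA
  refine ⟨mem_cl.2 ⟨fun x hx => Finset.mem_erase.2 ⟨fun hxu => ?_, (mem_cl.1 h1).1 hx⟩,
    (mem_cl.1 h1).2⟩, h2⟩
  exact hA (h A (hxu ▸ hx))

theorem lk_zero {Y : Finset α} {u : α} {j : ℕ} {e : Finset α → k} (he : On H (lk H Y u) j e)
    (A : Finset α) (hA : u ∈ A) : e A = 0 := he.eq_zero not_mem_lk_self hA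

theorem bd_on {X : Finset α} {j : ℕ} {c : Finset α → k} (hc : On H X (j + 1) c) :
    On H X j (bd c) := by
  intro A hA
  rw [bd] at hA
  obtain ⟨v, hv, hne⟩ := Finset.exists_ne_zero_of_sum_ne_zero hA
  rw [Finset.mem_compl] at hv
  obtain ⟨h1, h2⟩ := hc _ (fun h => hne (by rw [h, mul_zero]))
  refine ⟨cl_of_subset h1 (Finset.subset_insert v A), ?_⟩
  rw [Finset.card_insert_of_notMem hv] at h2
  omega

theorem On.neg {X : Finset α} {j : ℕ} {c : Finset α → k} (hc : On H X j c) : On H X j (-c) := by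
  intro A hA
  exact hc A (fun h' => hA (by rw [Pi.neg_apply, h', neg_zero]))

theorem On.sub {X : Finset α} {j : ℕ} {b c : Finset α → k} (hb : On H X j b) (hc : On H X j c) :
    On H X j (b - c) := by
  rw [sub_eq_add_neg]
  exact hb.add (On.neg hc)

theorem bd_neg (c : Finset α → k) : bd (-c) = - bd c := by
  have := bd_smul (-1 : k) c
  rwa [neg_one_smul, neg_one_smul] at this

theorem bd_sub (b c : Finset α → k) : bd (b - c) = bd b - bd c := by
  rw [sub_eq_add_neg, bd_add, bd_neg, sub_eq_add_neg]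

theorem lk_sub_erase {Y : Finset α} {u : α} : lk H Y u ⊆ Y.erase u := fun x hx =>
  Finset.mem_erase.2 ⟨fun h => not_mem_lk_self (h ▸ hx), lk_subset hx⟩

theorem ex_insert_zero {Y : Finset α} {u : α} (h : Ex k H (Y.erase u) 0) : Ex k H Y 0 := by
  intro c hc h0
  have hc' : On H (Y.erase u) 0 c := on_erase hc (fun A hA => by
    by_contra hne
    have := (hc A hne).2
    rw [Finset.card_eq_zero] at this
    rw [this] at hA
    exact absurd hA (Finset.notMem_empty _))
  obtain ⟨b, hb, hbc⟩ := h c hc' h0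
  exact ⟨b, hb.mono (Finset.erase_subset _ _), hbc⟩

theorem ex_insert_succ {Y : Finset α} {u : α} (hu : u ∈ Y) {j : ℕ}
    (h : Ex k H (Y.erase u) (j + 1)) (hL : Ex k H (lk H Y u) j) : Ex k H Y (j + 1) := by
  intro c hc h0
  have hl := lpart_on (u := u) hc
  have hl0 : bd (lpart u c) = 0 := by
    funext A
    by_cases huA : u ∈ A
    · exact bd_lpart_of_mem huA
    · rw [bd_lpart huA, h0, Pi.zero_apply, mul_zero, neg_zero]; rfl
  obtain ⟨e, he, hbe⟩ := hL _ hl hl0
  have hez := lk_zero he
  set c' := c + bd (cone u e) with hc'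
  have hcon : On H Y (j + 1) (bd (cone u e)) := bd_on (cone_on hu he)
  have h1 : ∀ A, u ∈ A → c' A = 0 := by
    intro A hA
    have e1 : A = insert u (A.erase u) := (Finset.insert_erase hA).symm
    have hn : u ∉ A.erase u := Finset.notMem_erase u A
    rw [hc', Pi.add_apply, e1, bd_cone_insert hez hn, hbe, lpart, if_neg hn, ← mul_assoc,
      sg_mul_self, one_mul, add_neg_cancel]
  have h2 : bd c' = 0 := by rw [hc', bd_add, h0, bd_bd, add_zero]
  obtain ⟨f, hf, hbf⟩ := h c' (on_erase (hc.add hcon) h1) h2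
  refine ⟨f - cone u e, On.sub (hf.mono (Finset.erase_subset _ _)) (cone_on hu he), ?_⟩
  rw [bd_sub, hbf, hc', add_sub_cancel_right]

/-- a cone over an acyclic complex glued to an acyclic complex -/
theorem Acy.insert {Y : Finset α} {u : α} (hu : u ∈ Y) (h : Acy k H (Y.erase u))
    (hL : Acy k H (lk H Y u)) : Acy k H Y := by
  intro j
  rcases j with _ | j
  · exact ex_insert_zero (h 0)
  · exact ex_insert_succ hu (h (j + 1)) (hL j)

/-- a cone over a sphere glued to an acyclic complex -/
theorem GH.insert {Y : Finset α} {u : α} {d : ℕ} (hu : u ∈ Y) (h : Acy k H (Y.erase u))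
    (hL : GH k H d (lk H Y u)) : GH k H (d + 1) Y := by
  constructor
  · intro j hj
    rcases j with _ | j
    · exact ex_insert_zero (h 0)
    · exact ex_insert_succ hu (h (j + 1)) (hL.ex j (by omega))
  · obtain ⟨z, hz, hz0, hne⟩ := hL.top
    obtain ⟨f, hf, hbf⟩ := h d z (hz.mono lk_sub_erase) hz0
    have hzz := lk_zero hz
    have hb : bd (cone u z) = z := by
      funext A
      by_cases huA : u ∈ A
      · have e1 : A = Insert.insert u (A.erase u) := (Finset.insert_erase huA).symm
        have hn : u ∉ A.erase u := Finset.notMem_erase u A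
        rw [hzz A huA, e1, bd_cone_insert hzz hn, hz0, Pi.zero_apply, mul_zero, neg_zero]
      · exact bd_cone_of_notMem hzz huA
    refine ⟨cone u z - f, On.sub (cone_on hu hz) (hf.mono (Finset.erase_subset _ _)), ?_, ?_⟩
    · rw [bd_sub, hb, hbf, sub_self]
    · intro hcon
      apply hne
      have h1 : cone u z = f := sub_eq_zero.1 hcon
      rw [← lpart_cone hzz, h1]
      funext A
      rw [lpart, Pi.zero_apply]
      split_ifs with huA
      · rfl
      · rw [hf.eq_zero (Finset.notMem_erase u Y) (Finset.mem_insert_self u A), mul_zero]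

/-! ### Unions -/

section Union

variable {G : SimpleGraph α} {X K₁ K₂ : Finset α}

/-- Mayer-Vietoris for the union of two acyclic complexes along a sphere.  `hcl` says that the
complex on `X` (in the graph `G`) is the union of the complexes on `K₁` and `K₂` (in `H`). -/
theorem GH.union {d : ℕ} (hcl : cl G X = cl H K₁ ∪ cl H K₂) (h1 : Acy k H K₁) (h2 : Acy k H K₂)
    (h12 : GH k H d (K₁ ∩ K₂)) (hle : ∀ κ ∈ cl H (K₁ ∩ K₂), κ.card ≤ d) : GH k G (d + 1) X := by
  classical
  have hint : ∀ A, A ∈ cl H K₁ → A ∈ cl H K₂ → A ∈ cl H (K₁ ∩ K₂) := fun A a b =>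
    mem_cl.2 ⟨Finset.subset_inter (mem_cl.1 a).1 (mem_cl.1 b).1, (mem_cl.1 a).2⟩
  have to1 : ∀ {j : ℕ} {c : Finset α → k}, On H K₁ j c → On G X j c := fun {j c} hc A hA =>
    ⟨by rw [hcl]; exact Finset.mem_union_left _ (hc A hA).1, (hc A hA).2⟩
  have to2 : ∀ {j : ℕ} {c : Finset α → k}, On H K₂ j c → On G X j c := fun {j c} hc A hA =>
    ⟨by rw [hcl]; exact Finset.mem_union_right _ (hc A hA).1, (hc A hA).2⟩
  constructor
  · intro j hj
    rcases j with _ | j
    · intro c hc h0
      have hc1 : On H K₁ 0 c := fun A hA => by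
        obtain ⟨_, h4⟩ := hc A hA
        refine ⟨?_, h4⟩
        rw [Finset.card_eq_zero] at h4
        rw [h4]
        exact empty_mem_cl
      obtain ⟨b, hb, hbc⟩ := h1 0 c hc1 h0
      exact ⟨b, to1 hb, hbc⟩
    · intro c hc h0
      set a : Finset α → k := fun A => if A ∈ cl H K₁ then c A else 0 with ha
      have haon : On H K₁ (j + 1) a := by
        intro A hA
        rw [ha] at hA
        simp only at hA
        split_ifs at hA with hm
        · exact ⟨hm, (hc A hA).2⟩
        · exact absurd rfl hA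
      have hbon : On H K₂ (j + 1) (c - a) := by
        intro A hA
        rw [Pi.sub_apply, ha] at hA
        simp only at hA
        split_ifs at hA with hm
        · exact absurd (sub_self _) hA
        · rw [sub_zero] at hA
          obtain ⟨h4, h5⟩ := hc A hA
          rw [hcl] at h4
          exact ⟨(Finset.mem_union.1 h4).resolve_left hm, h5⟩
      have hbd : bd (c - a) = - bd a := by rw [bd_sub, h0, zero_sub]
      have hon : On H (K₁ ∩ K₂) j (bd a) := by
        intro A hA
        obtain ⟨h4, h5⟩ := bd_on haon A hA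
        have hA' : bd (c - a) A ≠ 0 := by
          rw [hbd, Pi.neg_apply]
          exact neg_ne_zero.2 hA
        exact ⟨hint A h4 (bd_on hbon A hA').1, h5⟩
      obtain ⟨e, he, hbe⟩ := h12.ex j (by omega) (bd a) hon (bd_bd a)
      obtain ⟨f1, hf1, hbf1⟩ := h1 (j + 1) (a - e)
        (On.sub haon (he.mono Finset.inter_subset_left)) (by rw [bd_sub, hbe, sub_self])
      obtain ⟨f2, hf2, hbf2⟩ := h2 (j + 1) ((c - a) + e)
        (hbon.add (he.mono Finset.inter_subset_right)) (by
          rw [bd_add, hbd, hbe, neg_add_cancel])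
      refine ⟨f1 + f2, (to1 hf1).add (to2 hf2), ?_⟩
      rw [bd_add, hbf1, hbf2]
      abel
  · obtain ⟨z, hz, hz0, hne⟩ := h12.top
    obtain ⟨a, ha, hba⟩ := h1 d z (hz.mono Finset.inter_subset_left) hz0
    obtain ⟨b, hb, hbb⟩ := h2 d z (hz.mono Finset.inter_subset_right) hz0
    refine ⟨a - b, On.sub (to1 ha) (to2 hb), by rw [bd_sub, hba, hbb, sub_self], ?_⟩
    intro hcon
    apply hne
    have hab : a = b := sub_eq_zero.1 hcon
    have ha0 : a = 0 := by
      funext A
      by_contra hA
      obtain ⟨h4, h5⟩ := ha A hA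
      obtain ⟨h6, -⟩ := hb A (by rw [← hab]; exact hA)
      have := hle A (hint A h4 h6)
      omega
    rw [← hba, ha0, bd_zero]

end Union

/-! ### Change of the graph -/

theorem lkF_congr {H H' : SimpleGraph α} {W κ : Finset α} (hκ : κ ⊆ W)
    (hc : ∀ x ∈ W, ∀ z ∈ W, H.Adj x z ↔ H'.Adj x z) : lkF H W κ = lkF H' W κ := by
  ext x
  rw [mem_lkF, mem_lkF]
  constructor
  · rintro ⟨h1, h2⟩
    exact ⟨h1, fun y hy => (hc y (hκ hy) x h1).1 (h2 y hy)⟩
  · rintro ⟨h1, h2⟩
    exact ⟨h1, fun y hy => (hc y (hκ hy) x h1).2 (h2 y hy)⟩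

theorem On_congr {H H' : SimpleGraph α} {X : Finset α} (h : cl H X = cl H' X) {j : ℕ}
    {c : Finset α → k} (hc : On H X j c) : On H' X j c := fun A hA => by
  rw [← h]; exact hc A hA

theorem Ex_congr {H H' : SimpleGraph α} {X : Finset α} (h : cl H X = cl H' X) {j : ℕ}
    (hE : Ex k H X j) : Ex k H' X j := by
  intro c hc h0
  obtain ⟨b, hb, hbc⟩ := hE c (On_congr h.symm hc) h0
  exact ⟨b, On_congr h hb, hbc⟩

theorem HS_congr {H H' : SimpleGraph α} {d : ℕ} {W : Finset α}
    (hc : ∀ x ∈ W, ∀ z ∈ W, H.Adj x z ↔ H'.Adj x z) (h : HS k H d W) : HS k H' d W := by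
  have hcl : cl H W = cl H' W := cl_congr hc
  have key : ∀ κ ∈ cl H' W, κ ∈ cl H W ∧ lkF H' W κ = lkF H W κ ∧
      cl H (lkF H W κ) = cl H' (lkF H W κ) := by
    intro κ hκ
    refine ⟨by rw [hcl]; exact hκ, (lkF_congr (mem_cl.1 hκ).1 hc).symm, cl_congr ?_⟩
    intro x hx z hz
    exact hc x (lkF_subset hx) z (lkF_subset hz)
  constructor
  · intro κ hκ j hj
    obtain ⟨h1, h2, h3⟩ := key κ hκ
    rw [h2]
    exact Ex_congr h3 (h.ex κ h1 j hj)
  · intro κ hκ
    obtain ⟨h1, h2, h3⟩ := key κ hκ
    obtain ⟨z, hz, hz0, hne⟩ := h.top κ h1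
    rw [h2]
    exact ⟨z, On_congr h3 hz, hz0, hne⟩

/-! ### Gluing along vertex links -/

theorem glue_hs {H : SimpleGraph α} {r : ℕ} {X₁ X₂ : Finset α} {c₁ c₂ : α}
    (h : GlueData H X₁ X₂ c₁ c₂) (n1 : NP H r X₁) (n2 : NP H r X₂) (h1 : HS k H r X₁)
    (h2 : HS k H r X₂) :
    HS k (glueG H (X₁.erase c₁) (X₂.erase c₂)) r (X₁.erase c₁ ∪ X₂.erase c₂) := by
  induction r generalizing X₁ X₂ with
  | zero =>
    have h0 : X₁ = ∅ := n1
    have := h.mem₁
    rw [h0] at this
    exact absurd this (Finset.notMem_empty _)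
  | succ r ih =>
    have hL : HS k H r (X₁.erase c₁ ∩ X₂.erase c₂) := by
      rw [← h.lk₁]; exact h1.lk h.mem₁
    have hLn : NP H r (X₁.erase c₁ ∩ X₂.erase c₂) := by
      rw [← h.lk₁]; exact n1.lk h.mem₁
    refine HS.of_lk (GH.union cl_glue (fun j => h1.erase n1 h.mem₁ j)
      (fun j => h2.erase n2 h.mem₂ j) (HS.gh hL) (fun κ hκ => hLn.card_le hκ)) ?_
    intro u hu
    refine ⟨r, rfl, ?_⟩
    by_cases hu1 : u ∈ X₁.erase c₁
    · by_cases hu2 : u ∈ X₂.erase c₂
      · obtain ⟨hg, q1, q2⟩ := h.link hu1 hu2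
        have := ih hg (n1.lk (Finset.mem_of_mem_erase hu1))
          (n2.lk (Finset.mem_of_mem_erase hu2)) (h1.lk (Finset.mem_of_mem_erase hu1))
          (h2.lk (Finset.mem_of_mem_erase hu2))
        rw [q1, q2] at this
        rw [lk_glue_both hu1 hu2]
        refine HS_congr (fun x hx z hz => ?_) this
        simp only [glueG_adj, Finset.mem_union, mem_lk] at hx hz ⊢
        tauto
      · rw [lk_glue_one hu1 hu2, h.lk_one hu1 hu2]
        refine HS_congr (fun x hx z hz => ?_) (h1.lk (Finset.mem_of_mem_erase hu1))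
        rw [← h.lk_one hu1 hu2, mem_lk] at hx hz
        rw [glueG_adj]
        tauto
    · have hu2 : u ∈ X₂.erase c₂ := (Finset.mem_union.1 hu).resolve_left hu1
      rw [glueG_comm, Finset.union_comm, lk_glue_one hu2 hu1, h.symm.lk_one hu2 hu1]
      refine HS_congr (fun x hx z hz => ?_) (h2.lk (Finset.mem_of_mem_erase hu2))
      rw [← h.symm.lk_one hu2 hu1, mem_lk] at hx hz
      rw [glueG_adj]
      tauto

/-! ### Joins -/

theorem full_lk {A B : Finset α} (h : Full H A B) {v : α} : Full H (lk H A v) B :=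
  h.mono lk_subset (Finset.Subset.refl _)

theorem full_lk' {A B : Finset α} (h : Full H A B) {v : α} : Full H A (lk H B v) :=
  h.mono (Finset.Subset.refl _) lk_subset

theorem lk_join_left {A B : Finset α} (h : Full H A B) {v : α} (hv : v ∈ A) :
    lk H (A ∪ B) v = lk H A v ∪ B := by
  ext x
  rw [mem_lk, Finset.mem_union, Finset.mem_union, mem_lk]
  constructor
  · rintro ⟨h1 | h1, h2⟩
    · exact Or.inl ⟨h1, h2⟩
    · exact Or.inr h1
  · rintro (⟨h1, h2⟩ | h1)
    · exact ⟨Or.inl h1, h2⟩
    · exact ⟨Or.inr h1, h v hv x h1⟩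

theorem lk_join_right {A B : Finset α} (h : Full H A B) {v : α} (hv : v ∈ B) :
    lk H (A ∪ B) v = A ∪ lk H B v := by
  rw [Finset.union_comm, lk_join_left h.symm hv, Finset.union_comm]

theorem erase_join_left {A B : Finset α} (h : Full H A B) {v : α} (hv : v ∈ A) :
    (A ∪ B).erase v = A.erase v ∪ B := by
  have hd := h.disjoint
  have : v ∉ B := fun hb => Finset.disjoint_left.1 hd hv hb
  rw [Finset.erase_union_distrib, Finset.erase_eq_of_notMem this]

theorem erase_join_right {A B : Finset α} (h : Full H A B) {v : α} (hv : v ∈ B) :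
    (A ∪ B).erase v = A ∪ B.erase v := by
  rw [Finset.union_comm, erase_join_left h.symm hv, Finset.union_comm]

theorem join_acy {A : Finset α} (hA : Acy k H A) : ∀ (n : ℕ) {B : Finset α}, B.card = n →
    Full H A B → Acy k H (A ∪ B) := by
  intro n
  induction n using Nat.strong_induction_on with
  | _ n ih =>
    intro B hB hf
    rcases B.eq_empty_or_nonempty with rfl | ⟨u, hu⟩
    · rw [Finset.union_empty]; exact hA
    · have hlt1 : (B.erase u).card < n := by
        rw [Finset.card_erase_of_mem hu, ← hB]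
        have : 0 < B.card := Finset.card_pos.2 ⟨u, hu⟩
        omega
      have hlt2 : (lk H B u).card < n :=
        lt_of_le_of_lt (Finset.card_le_card lk_sub_erase) hlt1
      refine Acy.insert (Finset.mem_union_right A hu) ?_ ?_
      · rw [erase_join_right hf hu]
        exact ih _ hlt1 rfl (hf.mono (Finset.Subset.refl _) (Finset.erase_subset _ _))
      · rw [lk_join_right hf hu]
        exact ih _ hlt2 rfl (full_lk' hf)

theorem join_np : ∀ (n : ℕ) {d e : ℕ} {A B : Finset α}, d + e = n → Full H A B → NP H d A →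
    NP H e B → NP H (d + e) (A ∪ B) := by
  intro n
  induction n with
  | zero =>
    intro d e A B hn hf hA hB
    obtain ⟨rfl, rfl⟩ : d = 0 ∧ e = 0 := by omega
    have h1 : A = ∅ := hA
    have h2 : B = ∅ := hB
    rw [h1, h2]
    exact Finset.union_empty _
  | succ n ih =>
    intro d e A B hn hf hA hB
    rcases d with _ | d
    · have h1 : A = ∅ := hA
      rw [h1, Finset.empty_union, zero_add]
      exact hB
    rcases e with _ | e
    · have h1 : B = ∅ := hB
      rw [h1, Finset.union_empty, add_zero]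
      exact hA
    obtain ⟨a, ha⟩ := hA.nonempty
    obtain ⟨b, hb⟩ := hB.nonempty
    have e1 : d + 1 + (e + 1) = (d + e) + 2 := by omega
    rw [e1]
    refine ⟨⟨a, Finset.mem_union_left _ ha⟩, ?_, ?_⟩
    · intro Y hY hne hneq
      by_contra hcon
      push Not at hcon
      have key : ∀ {P Q : Finset α}, Full H P Q → P ∪ Q = A ∪ B → Q.Nonempty → ∀ p ∈ P, p ∈ Y →
          Y = A ∪ B := by
        intro P Q hPQ hun hQ p hp hpY
        have hQY : Q ⊆ Y := by
          intro q hq
          by_contra hqY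
          exact hcon p hpY q (by rw [← hun]; exact Finset.mem_union_right _ hq) hqY (hPQ p hp q hq)
        obtain ⟨q, hq⟩ := hQ
        refine Finset.Subset.antisymm hY ?_
        intro x hx
        by_contra hxY
        rw [← hun] at hx
        rcases Finset.mem_union.1 hx with h3 | h3
        · exact hcon q (hQY hq) x (by rw [← hun]; exact Finset.mem_union_left _ h3) hxY
            (hPQ x h3 q hq).symm
        · exact hxY (hQY h3)
      obtain ⟨p, hp⟩ := hne
      rcases Finset.mem_union.1 (hY hp) with h3 | h3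
      · exact hneq (key hf rfl ⟨b, hb⟩ p h3 hp)
      · exact hneq (key hf.symm (Finset.union_comm _ _) ⟨a, ha⟩ p h3 hp)
    · intro v hv
      rcases Finset.mem_union.1 hv with h3 | h3
      · rw [lk_join_left hf h3]
        have := ih (d := d) (e := e + 1) (by omega) (full_lk hf) (hA.lk h3) hB
        have e2 : d + (e + 1) = d + e + 1 := by omega
        rwa [e2] at this
      · rw [lk_join_right hf h3]
        have := ih (d := d + 1) (e := e) (by omega) (full_lk' hf) hA (hB.lk h3)
        have e2 : d + 1 + e = d + e + 1 := by omega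
        rwa [e2] at this

theorem join_hs : ∀ (n : ℕ) {d e : ℕ} {A B : Finset α}, d + e = n → Full H A B → NP H d A →
    NP H e B → HS k H d A → HS k H e B → HS k H (d + e) (A ∪ B) := by
  intro n
  induction n with
  | zero =>
    intro d e A B hn hf hA hB sA sB
    obtain ⟨rfl, rfl⟩ : d = 0 ∧ e = 0 := by omega
    have h1 : A = ∅ := hA
    rw [h1, Finset.empty_union]
    exact sB
  | succ n ih =>
    intro d e A B hn hf hA hB sA sB
    rcases d with _ | d
    · have h1 : A = ∅ := hA
      rw [h1, Finset.empty_union, zero_add]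
      exact sB
    rcases e with _ | e
    · have h1 : B = ∅ := hB
      rw [h1, Finset.union_empty, add_zero]
      exact sA
    have hlA : ∀ v ∈ A, HS k H (d + (e + 1)) (lk H A v ∪ B) := fun v hv =>
      ih (by omega) (full_lk hf) (hA.lk hv) hB (sA.lk hv) sB
    have hlB : ∀ v ∈ B, HS k H (d + 1 + e) (A ∪ lk H B v) := fun v hv =>
      ih (by omega) (full_lk' hf) hA (hB.lk hv) sA (sB.lk hv)
    obtain ⟨a, ha⟩ := hA.nonempty
    have hG : GH k H (d + 1 + (e + 1)) (A ∪ B) := by
      have e1 : d + 1 + (e + 1) = (d + (e + 1)) + 1 := by omega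
      rw [e1]
      refine GH.insert (Finset.mem_union_left B ha) ?_ ?_
      · rw [erase_join_left hf ha]
        exact join_acy (fun j => sA.erase hA ha j) _ rfl
          (hf.mono (Finset.erase_subset _ _) (Finset.Subset.refl _))
      · rw [lk_join_left hf ha]
        exact HS.gh (hlA a ha)
    refine HS.of_lk hG (fun v hv => ⟨d + e + 1, by omega, ?_⟩)
    rcases Finset.mem_union.1 hv with h3 | h3
    · rw [lk_join_left hf h3]
      have := hlA v h3
      have e2 : d + (e + 1) = d + e + 1 := by omega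
      rwa [e2] at this
    · rw [lk_join_right hf h3]
      have := hlB v h3
      have e2 : d + 1 + e = d + e + 1 := by omega
      rwa [e2] at this

end Pool.Agent.D0H80.CD
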