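import Pool.Agent.D0H80.CD.Trans

set_option autoImplicit false
set_option linter.unusedSectionVars false
set_option linter.unusedVariables false

/-! # Doubling, joins, the pentagon, suspensions -/

namespace Pool.Agent.D0H80.CD

open Pool.Agent.W497.FS

/-- the complex on `W` is a flag homology sphere of rank `d` over all the fields of a family -/
structure Sp {ι : Type} (k : ι → Type) [∀ i, Field (k i)] {α : Type} [LinearOrder α] [Fintype α]
    (H : SimpleGraph α) (d : ℕ) (W : Finset α) : Prop where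
  np : NP H d W
  hs : ∀ i, HS (k i) H d W

/-- there is a flag homology sphere of rank `d` with Charney-Davis quantity `l` and at most `v`
vertices -/
def Rz {ι : Type} (k : ι → Type) [∀ i, Field (k i)] (d : ℕ) (l : ℚ) (v : ℕ) : Prop :=
  ∃ (α : Type) (_ : LinearOrder α) (_ : Fintype α) (H : SimpleGraph α) (W : Finset α),
    Sp k H d W ∧ lam H W = l ∧ W.card ≤ v

section Cone

variable {k : Type} [Field k] {α : Type} [LinearOrder α] [Fintype α] {H : SimpleGraph α}

/-- cones are acyclic -/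
theorem Acy.of_cone {Y : Finset α} {u : α} (hu : u ∈ Y) (h : lk H Y u = Y.erase u) :
    Acy k H Y := by
  intro j c hc h0
  have hd : On H (lk H Y u) j (dpart u c) := by rw [h]; exact dpart_on hc
  have hz : ∀ A, u ∈ A → dpart u c A = 0 := fun A hA => by rw [dpart, if_pos hA]
  refine ⟨cone u (dpart u c), cone_on hu hd, ?_⟩
  have hbd : ∀ A, u ∉ A → bd (dpart u c) A = - lpart u c A := by
    intro A hA
    have := bd_split (c := c) hA
    rw [h0, Pi.zero_apply] at this
    exact eq_neg_of_add_eq_zero_left this.symm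
  funext A
  by_cases hA : u ∈ A
  · have e1 : A = Insert.insert u (A.erase u) := (Finset.insert_erase hA).symm
    have hn : u ∉ A.erase u := Finset.notMem_erase u A
    rw [e1, bd_cone_insert hz hn, hbd _ hn, lpart, if_neg hn, mul_neg, neg_neg, ← mul_assoc,
      sg_mul_self, one_mul]
  · rw [bd_cone_of_notMem hz hA, dpart, if_neg hA]

theorem GH_empty : GH k H 0 (∅ : Finset α) := by
  refine ⟨fun j hj => absurd hj (Nat.not_lt_zero _), fun A => if A = ∅ then 1 else 0, ?_, ?_, ?_⟩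
  · intro A hA
    by_cases h : A = ∅
    · rw [h]; exact ⟨empty_mem_cl, Finset.card_empty⟩
    · simp [h] at hA
  · funext A
    rw [bd]
    refine Finset.sum_eq_zero (fun v _ => ?_)
    rw [if_neg (Finset.insert_ne_empty v A), mul_zero]
  · intro h
    have := congrFun h ∅
    simp at this

theorem HS_empty : HS k H 0 (∅ : Finset α) :=
  HS.of_lk GH_empty (fun v hv => absurd hv (Finset.notMem_empty _))

theorem lk_pair_right {a b : α} (hab : a ≠ b) (hn : ¬ H.Adj a b) :
    lk H ({a, b} : Finset α) b = ∅ := by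
  apply Finset.eq_empty_of_forall_notMem
  intro x hx
  obtain ⟨h1, h2⟩ := mem_lk.1 hx
  rcases Finset.mem_insert.1 h1 with h | h
  · rw [h] at h2; exact hn h2.symm
  · rw [Finset.mem_singleton.1 h] at h2; exact h2.ne rfl

theorem GH_pair {a b : α} (hab : a ≠ b) (hn : ¬ H.Adj a b) : GH k H 1 ({a, b} : Finset α) := by
  have hb : b ∈ ({a, b} : Finset α) := Finset.mem_insert_of_mem (Finset.mem_singleton_self b)
  refine GH.insert hb ?_ ?_
  · have e1 : ({a, b} : Finset α).erase b = {a} := by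
      ext x
      simp only [Finset.mem_erase, Finset.mem_insert, Finset.mem_singleton]
      constructor
      · rintro ⟨h1, h2 | h2⟩
        · exact h2
        · exact absurd h2 h1
      · intro h
        exact ⟨h ▸ hab, Or.inl h⟩
    rw [e1]
    refine Acy.of_cone (Finset.mem_singleton_self a) ?_
    rw [Finset.erase_singleton]
    apply Finset.eq_empty_of_forall_notMem
    intro x hx
    obtain ⟨h1, h2⟩ := mem_lk.1 hx
    rw [Finset.mem_singleton.1 h1] at h2
    exact h2.ne rfl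
  · rw [lk_pair_right hab hn]
    exact GH_empty

theorem HS_pair {a b : α} (hab : a ≠ b) (hn : ¬ H.Adj a b) : HS k H 1 ({a, b} : Finset α) := by
  refine HS.of_lk (GH_pair hab hn) (fun v hv => ⟨0, rfl, ?_⟩)
  have hn' : ¬ H.Adj b a := fun h => hn h.symm
  rcases Finset.mem_insert.1 hv with h | h
  · rw [h, Finset.pair_comm, lk_pair_right hab.symm hn']
    exact HS_empty
  · rw [Finset.mem_singleton.1 h, lk_pair_right hab hn]
    exact HS_empty

theorem NP_pair {a b : α} (hab : a ≠ b) (hn : ¬ H.Adj a b) : NP H 1 ({a, b} : Finset α) := by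
  refine ⟨Finset.card_pair hab, fun x hx y hy hxy => ?_⟩
  rcases Finset.mem_insert.1 hx with h | h <;> rcases Finset.mem_insert.1 hy with h' | h'
  · rw [h, h'] at hxy; exact hxy.ne rfl
  · rw [h, Finset.mem_singleton.1 h'] at hxy; exact hn hxy
  · rw [h', Finset.mem_singleton.1 h] at hxy; exact hn hxy.symm
  · rw [Finset.mem_singleton.1 h, Finset.mem_singleton.1 h'] at hxy; exact hxy.ne rfl

theorem lam_pair {a b : α} (hab : a ≠ b) (hn : ¬ H.Adj a b) : lam H ({a, b} : Finset α) = 0 := by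
  have hb : b ∈ ({a, b} : Finset α) := Finset.mem_insert_of_mem (Finset.mem_singleton_self b)
  have h := fe_erase (H := H) hb (-1 / 2 : ℚ)
  have e1 : ({a, b} : Finset α).erase b = {a} := by
    ext x
    simp only [Finset.mem_erase, Finset.mem_insert, Finset.mem_singleton]
    constructor
    · rintro ⟨h1, h2 | h2⟩
      · exact h2
      · exact absurd h2 h1
    · intro h
      exact ⟨h ▸ hab, Or.inl h⟩
  rw [e1, lk_pair_right hab hn, fe_singleton, fe_empty] at h
  rw [lam, h]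
  norm_num

end Cone

section Ops

variable {ι : Type} {k : ι → Type} [∀ i, Field (k i)]

/-! ### Doubling -/

theorem Rz.double {d : ℕ} {l : ℚ} {v : ℕ} (h : Rz k (d + 1) l v) :
    Rz k (d + 1) (2 * l) (2 * v - 2 * (d + 1)) := by
  classical
  obtain ⟨α, _, _, H, W, hS, hl, hv⟩ := h
  obtain ⟨c, hc⟩ := hS.np.nonempty
  set L := lk H W c with hL
  let β := α ×ₗ Bool
  have hmono : ∀ g : α → Bool, StrictMono (fun x => (toLex (x, g x) : β)) := by
    intro g x y hxy
    exact Prod.Lex.toLex_lt_toLex.2 (Or.inl hxy)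
  let f₁ : α ↪o β := OrderEmbedding.ofStrictMono _ (hmono (fun _ => false))
  let f₂ : α ↪o β := OrderEmbedding.ofStrictMono _ (hmono (fun x => decide (x ∉ L)))
  let K : SimpleGraph β := SimpleGraph.comap (fun p : β => (ofLex p).1) H
  have hf₁ : ∀ x, f₁ x = (toLex (x, false) : β) := fun x => rfl
  have hf₂ : ∀ x, f₂ x = (toLex (x, decide (x ∉ L)) : β) := fun x => rfl
  have hc1 : Cmp f₁ H K W := fun a _ b _ => Iff.rfl
  have hc2 : Cmp f₂ H K W := fun a _ b _ => Iff.rfl
  set X₁ := W.map f₁.toEmbedding with hX₁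
  set X₂ := W.map f₂.toEmbedding with hX₂
  have hmem1 : ∀ p : β, p ∈ X₁ ↔ (ofLex p).1 ∈ W ∧ (ofLex p).2 = false := by
    intro p
    rw [hX₁, Finset.mem_map]
    constructor
    · rintro ⟨x, hx, rfl⟩
      exact ⟨hx, rfl⟩
    · rintro ⟨h1, h2⟩
      refine ⟨(ofLex p).1, h1, ?_⟩
      change (toLex ((ofLex p).1, false) : β) = p
      rw [← h2]
      rfl
  have hmem2 : ∀ p : β, p ∈ X₂ ↔ (ofLex p).1 ∈ W ∧ (ofLex p).2 = decide ((ofLex p).1 ∉ L) := by
    intro p
    rw [hX₂, Finset.mem_map]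
    constructor
    · rintro ⟨x, hx, rfl⟩
      exact ⟨hx, rfl⟩
    · rintro ⟨h1, h2⟩
      refine ⟨(ofLex p).1, h1, ?_⟩
      change (toLex ((ofLex p).1, decide ((ofLex p).1 ∉ L)) : β) = p
      rw [← h2]
      rfl
  have hcL : c ∉ L := not_mem_lk_self
  have hne1 : ∀ p : β, p ∈ X₁ → (p ≠ f₁ c ↔ (ofLex p).1 ≠ c) := by
    intro p hp
    obtain ⟨h1, h2⟩ := (hmem1 p).1 hp
    constructor
    · intro h h'
      apply h
      rw [hf₁, ← h', ← h2]; rfl
    · intro h h'
      apply h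
      rw [h']; rfl
  have hne2 : ∀ p : β, p ∈ X₂ → (p ≠ f₂ c ↔ (ofLex p).1 ≠ c) := by
    intro p hp
    obtain ⟨h1, h2⟩ := (hmem2 p).1 hp
    constructor
    · intro h h'
      apply h
      rw [hf₂, ← h', ← h2]; rfl
    · intro h h'
      apply h
      rw [h']; rfl
  have hint : ∀ p : β, p ∈ X₁.erase (f₁ c) ∩ X₂.erase (f₂ c) ↔
      (ofLex p).1 ∈ L ∧ (ofLex p).2 = false := by
    intro p
    rw [Finset.mem_inter, Finset.mem_erase, Finset.mem_erase]
    constructor
    · rintro ⟨⟨_, h2⟩, h3, h4⟩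
      have h5 := (hmem1 p).1 h2
      have h6 := (hmem2 p).1 h4
      refine ⟨?_, h5.2⟩
      rw [h5.2] at h6
      by_contra hcon
      have h7 := h6.2
      rw [decide_eq_true hcon] at h7
      exact Bool.false_ne_true h7
    · rintro ⟨h1, h2⟩
      have hW : (ofLex p).1 ∈ W := lk_subset h1
      have m1 : p ∈ X₁ := (hmem1 p).2 ⟨hW, h2⟩
      have m2 : p ∈ X₂ := (hmem2 p).2 ⟨hW, by
        rw [h2, eq_comm, decide_eq_false_iff_not]
        exact fun h => h h1⟩
      have hne : (ofLex p).1 ≠ c := fun h => hcL (h ▸ h1)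
      exact ⟨⟨(hne1 p m1).2 hne, m1⟩, (hne2 p m2).2 hne, m2⟩
  have hG : GlueData K X₁ X₂ (f₁ c) (f₂ c) := by
    refine ⟨Finset.mem_map_of_mem _ hc, Finset.mem_map_of_mem _ hc, ?_, ?_⟩
    · ext p
      rw [hint, mem_lk, hmem1]
      change ((_ ∧ _) ∧ H.Adj c (ofLex p).1) ↔ _
      rw [hL, mem_lk]
      tauto
    · ext p
      rw [hint, mem_lk, hmem2]
      change ((_ ∧ _) ∧ H.Adj c (ofLex p).1) ↔ _
      constructor
      · rintro ⟨⟨h1, h2⟩, h3⟩
        have h4 : (ofLex p).1 ∈ L := mem_lk.2 ⟨h1, h3⟩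
        refine ⟨h4, ?_⟩
        rw [h2, decide_eq_false_iff_not]
        exact fun h => h h4
      · rintro ⟨h1, h2⟩
        obtain ⟨h3, h4⟩ := mem_lk.1 h1
        refine ⟨⟨h3, ?_⟩, h4⟩
        rw [h2, eq_comm, decide_eq_false_iff_not]
        exact fun h => h h1
  have n1 : NP K (d + 1) X₁ := NP_map hc1 hS.np
  have n2 : NP K (d + 1) X₂ := NP_map hc2 hS.np
  refine ⟨β, inferInstance, inferInstance, _, _, ⟨glue_np stmDel hG n1 n2, fun i =>
    glue_hs hG n1 n2 (HS_map hc1 (hS.hs i)) (HS_map hc2 (hS.hs i))⟩, ?_, ?_⟩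
  · rw [lam, fe_glue_data hG, fe_map hc1, fe_map hc2]
    have h1 : (1 : ℚ) + 2 * (-1 / 2) = 0 := by norm_num
    rw [h1, zero_mul, sub_zero, ← hl, lam]
    ring
  · have h0 := Finset.card_union_add_card_inter (X₁.erase (f₁ c)) (X₂.erase (f₂ c))
    have h1 : (X₁.erase (f₁ c)).card = W.card - 1 := by
      rw [Finset.card_erase_of_mem hG.mem₁, hX₁, Finset.card_map]
    have h2 : (X₂.erase (f₂ c)).card = W.card - 1 := by
      rw [Finset.card_erase_of_mem hG.mem₂, hX₂, Finset.card_map]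
    have h3 : 2 * d ≤ (X₁.erase (f₁ c) ∩ X₂.erase (f₂ c)).card := by
      rw [← hG.lk₁]
      exact (n1.lk hG.mem₁).two_mul_le
    have h4 : 0 < W.card := Finset.card_pos.2 ⟨c, hc⟩
    omega

/-! ### Joins -/

/-- the join of two graphs -/
def joinG {α β : Type} (H : SimpleGraph α) (K : SimpleGraph β) : SimpleGraph (α ⊕ₗ β) where
  Adj p q := match ofLex p, ofLex q with
    | Sum.inl a, Sum.inl b => H.Adj a b
    | Sum.inr a, Sum.inr b => K.Adj a b
    | Sum.inl _, Sum.inr _ => True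
    | Sum.inr _, Sum.inl _ => True
  symm := ⟨fun p q => by
    rcases ofLex p with a | a <;> rcases ofLex q with b | b <;> simp [SimpleGraph.adj_comm]⟩
  loopless := ⟨fun p => by
    rcases ofLex p with a | a <;> simp⟩

/-- the join of two spheres, with the embeddings of the factors -/
theorem join_exists {d e : ℕ} {α β : Type} [LinearOrder α] [Fintype α] [LinearOrder β]
    [Fintype β] {H : SimpleGraph α} {K : SimpleGraph β} {W : Finset α} {V : Finset β}
    (h : Sp k H d W) (h' : Sp k K e V) :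
    ∃ (f : α ↪o (α ⊕ₗ β)) (g : β ↪o (α ⊕ₗ β)), Cmp f H (joinG H K) W ∧ Cmp g K (joinG H K) V ∧
      Full (joinG H K) (W.map f.toEmbedding) (V.map g.toEmbedding) ∧
      Sp k (joinG H K) (d + e) (W.map f.toEmbedding ∪ V.map g.toEmbedding) := by
  let f : α ↪o (α ⊕ₗ β) := OrderEmbedding.ofStrictMono _ (Sum.Lex.inl_strictMono (α := α) (β := β))
  let g : β ↪o (α ⊕ₗ β) := OrderEmbedding.ofStrictMono _ (Sum.Lex.inr_strictMono (α := α) (β := β))
  have c1 : Cmp f H (joinG H K) W := fun a _ b _ => Iff.rfl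
  have c2 : Cmp g K (joinG H K) V := fun a _ b _ => Iff.rfl
  have hfull : Full (joinG H K) (W.map f.toEmbedding) (V.map g.toEmbedding) := by
    intro a ha b hb
    obtain ⟨x, _, rfl⟩ := Finset.mem_map.1 ha
    obtain ⟨y, _, rfl⟩ := Finset.mem_map.1 hb
    exact trivial
  have n1 := NP_map c1 h.np
  have n2 := NP_map c2 h'.np
  exact ⟨f, g, c1, c2, hfull, join_np _ rfl hfull n1 n2, fun i =>
    join_hs _ rfl hfull n1 n2 (HS_map c1 (h.hs i)) (HS_map c2 (h'.hs i))⟩

theorem Rz.join {d e : ℕ} {l l' : ℚ} {v v' : ℕ} (h : Rz k d l v) (h' : Rz k e l' v') :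
    Rz k (d + e) (l * l') (v + v') := by
  obtain ⟨α, _, _, H, W, hS, hl, hv⟩ := h
  obtain ⟨β, _, _, K, V, hS', hl', hv'⟩ := h'
  obtain ⟨f, g, c1, c2, hfull, hSp⟩ := join_exists hS hS'
  refine ⟨α ⊕ₗ β, inferInstance, inferInstance, _, _, hSp, ?_, ?_⟩
  · rw [lam_join hfull, lam_map c1, lam_map c2, hl, hl']
  · refine (Finset.card_union_le _ _).trans ?_
    rw [Finset.card_map, Finset.card_map]
    omega

/-! ### The pentagon -/

/-- the pentagon -/
def pent : SimpleGraph (Fin 5) where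
  Adj i j := i - j = 1 ∨ j - i = 1
  symm := ⟨fun i j h => h.symm⟩
  loopless := ⟨fun i => by simp⟩

instance : DecidableRel pent.Adj := fun i j => inferInstanceAs (Decidable (i - j = 1 ∨ j - i = 1))

theorem lk_pent (X : Finset (Fin 5)) (v : Fin 5) : lk pent X v = X.filter (fun x => pent.Adj v x) := by
  ext x
  rw [mem_lk, Finset.mem_filter]

theorem lk_pent_univ : ∀ v : Fin 5, lk pent Finset.univ v = {v - 1, v + 1} ∧ v - 1 ≠ v + 1 ∧
    ¬ pent.Adj (v - 1) (v + 1) := by
  intro v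
  rw [lk_pent]
  revert v
  decide

theorem NP_pent : NP pent 2 Finset.univ := by
  refine ⟨⟨0, Finset.mem_univ _⟩, ?_, ?_⟩
  · have h : ∀ A : Finset (Fin 5), A.Nonempty → A ≠ Finset.univ →
        ∃ a ∈ A, ∃ b ∈ (Finset.univ : Finset (Fin 5)), b ∉ A ∧ pent.Adj a b := by decide
    exact fun A _ h1 h2 => h A h1 h2
  · intro v _
    obtain ⟨h1, h2, h3⟩ := lk_pent_univ v
    rw [h1]
    exact NP_pair h2 h3

theorem acy_path {F : Type} [Field F] :
    Acy F pent ((Finset.univ : Finset (Fin 5)).erase 0) := by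
  have h4 : (4 : Fin 5) ∈ (Finset.univ : Finset (Fin 5)).erase 0 := by decide
  refine Acy.insert h4 ?_ ?_
  · refine Acy.of_cone (u := 2) (by decide) ?_
    rw [lk_pent]
    decide
  · have e1 : lk pent ((Finset.univ : Finset (Fin 5)).erase 0) 4 = {3} := by
      rw [lk_pent]; decide
    rw [e1]
    refine Acy.of_cone (u := 3) (by decide) ?_
    rw [lk_pent]
    decide

theorem HS_pent {F : Type} [Field F] : HS F pent 2 (Finset.univ : Finset (Fin 5)) := by
  have hl : ∀ v : Fin 5, HS F pent 1 (lk pent Finset.univ v) := by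
    intro v
    obtain ⟨h1, h2, h3⟩ := lk_pent_univ v
    rw [h1]
    exact HS_pair h2 h3
  exact HS.of_lk (GH.insert (Finset.mem_univ 0) acy_path (HS.gh (hl 0)))
    (fun v _ => ⟨1, rfl, hl v⟩)

theorem lam_pent : lam pent (Finset.univ : Finset (Fin 5)) = -1 / 4 := by
  have h0 := fe_erase (H := pent) (Finset.mem_univ (0 : Fin 5)) (-1 / 2 : ℚ)
  have h4 : (4 : Fin 5) ∈ (Finset.univ : Finset (Fin 5)).erase 0 := by decide
  have h1 := fe_erase (H := pent) h4 (-1 / 2 : ℚ)
  have e1 : lk pent ((Finset.univ : Finset (Fin 5)).erase 0) 4 = {3} := by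
    rw [lk_pent]; decide
  have e2 : lk pent (Finset.univ : Finset (Fin 5)) 0 = {4, 1} := by
    rw [lk_pent]; decide
  have h2m : (2 : Fin 5) ∈ ((Finset.univ : Finset (Fin 5)).erase 0).erase 4 := by decide
  have h2 := fe_erase (H := pent) h2m (-1 / 2 : ℚ)
  have e3 : (((Finset.univ : Finset (Fin 5)).erase 0).erase 4).erase 2 = {1, 3} := by decide
  have e4 : lk pent (((Finset.univ : Finset (Fin 5)).erase 0).erase 4) 2 = {1, 3} := by
    rw [lk_pent]; decide
  have l1 : fe pent ({1, 3} : Finset (Fin 5)) (-1 / 2 : ℚ) = 0 :=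
    lam_pair (by decide) (by decide)
  have l2 : fe pent ({4, 1} : Finset (Fin 5)) (-1 / 2 : ℚ) = 0 :=
    lam_pair (by decide) (by decide)
  rw [e3, e4, l1] at h2
  rw [h2, e1, fe_singleton] at h1
  rw [h1, e2, l2] at h0
  rw [lam, h0]
  norm_num

theorem Rz_pent : Rz k 2 (-1 / 4) 5 :=
  ⟨Fin 5, inferInstance, inferInstance, pent, Finset.univ, ⟨NP_pent, fun i => HS_pent⟩, lam_pent,
    by simp⟩

theorem Rz_empty : Rz k 0 1 0 :=
  ⟨Fin 1, inferInstance, inferInstance, ⊥, ∅, ⟨rfl, fun i => HS_empty⟩, lam_empty, by simp⟩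

/-! ### The amplification -/

theorem Rz.mono {d : ℕ} {l : ℚ} {v v' : ℕ} (h : Rz k d l v) (hv : v ≤ v') : Rz k d l v' := by
  obtain ⟨α, i1, i2, H, W, hS, hl, hc⟩ := h
  exact ⟨α, i1, i2, H, W, hS, hl, hc.trans hv⟩

theorem Rz.double_iter {d : ℕ} {l : ℚ} {v : ℕ} (h : Rz k (d + 1) l v) (N : ℕ) :
    Rz k (d + 1) (2 ^ N * l) (2 ^ N * v) := by
  induction N with
  | zero => simpa using h
  | succ N ih =>
    have := ih.double.mono (Nat.sub_le _ _)
    rw [pow_succ', pow_succ', mul_assoc, mul_assoc]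
    exact this

/-- the cycle with 20 vertices -/
theorem Rz_twenty : Rz k 2 (-4) 20 := by
  have h := (Rz_pent (k := k)).double.double.double.double
  norm_num at h
  exact h

theorem Rz.pow {e : ℕ} {l : ℚ} {v : ℕ} (h : Rz k e l v) (r : ℕ) : Rz k (r * e) (l ^ r) (r * v) := by
  induction r with
  | zero => simpa using Rz_empty
  | succ r ih =>
    have := ih.join h
    rw [pow_succ, Nat.succ_mul, Nat.succ_mul]
    exact this

/-- the amplified spheres -/
theorem Rz.amplify {d : ℕ} {l : ℚ} {v : ℕ} (h : Rz k (d + 1) l v) (N r : ℕ) :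
    Rz k (d + 1 + r * 2) (2 ^ N * l * (2 ^ N * (-1 / 4)) ^ r) (2 ^ N * v + r * (2 ^ N * 5)) :=
  (h.double_iter N).join ((Rz_pent.double_iter N).pow r)

end Ops

end Pool.Agent.D0H80.CD
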