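import Pool.Agent.D0H80.CD.Amp

set_option autoImplicit false
set_option linter.unusedSectionVars false
set_option linter.unusedVariables false

/-! # Tubes: copies of a sphere glued successively along the links of the vertices of a path of
pairwise non-adjacent consecutive vertices -/

namespace Pool.Agent.D0H80.CD

open Pool.Agent.W497.FS

section St

variable {β : Type} (H : SimpleGraph β) (a : ℕ → β)

open scoped Classical in
/-- the copy in which the vertex of type `u` of the copy `t` appears first -/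
noncomputable def st : ℕ → β → ℕ
  | 0, _ => 0
  | (t + 1), u => if H.Adj (a t) u then st t u else t + 1

variable {H a}

theorem st_succ_pos {t : ℕ} {u : β} (h : H.Adj (a t) u) : st H a (t + 1) u = st H a t u := by
  rw [st, if_pos h]

theorem st_succ_neg {t : ℕ} {u : β} (h : ¬ H.Adj (a t) u) : st H a (t + 1) u = t + 1 := by
  rw [st, if_neg h]

theorem st_zero (u : β) : st H a 0 u = 0 := by rw [st]

theorem st_le (t : ℕ) (u : β) : st H a t u ≤ t := by
  induction t with
  | zero => rw [st_zero]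
  | succ t ih =>
    by_cases h : H.Adj (a t) u
    · rw [st_succ_pos h]; omega
    · rw [st_succ_neg h]

theorem st_step (t : ℕ) (u : β) : st H a t u ≤ st H a (t + 1) u := by
  by_cases h : H.Adj (a t) u
  · rw [st_succ_pos h]
  · rw [st_succ_neg h]
    have := st_le (H := H) (a := a) t u
    omega

theorem st_mono {s t : ℕ} (h : s ≤ t) (u : β) : st H a s u ≤ st H a t u := by
  induction t, h using Nat.le_induction with
  | base => exact le_rfl
  | succ t _ ih => exact ih.trans (st_step t u)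

theorem st_st (t : ℕ) (u : β) : st H a (st H a t u) u = st H a t u := by
  induction t with
  | zero => rw [st_zero, st_zero]
  | succ t ih =>
    by_cases h : H.Adj (a t) u
    · rw [st_succ_pos h]; exact ih
    · rw [st_succ_neg h, st_succ_neg h]

/-- consecutive vertices are different and not adjacent -/
def IsPath (H : SimpleGraph β) (a : ℕ → β) : Prop := ∀ t, a t ≠ a (t + 1) ∧ ¬ H.Adj (a t) (a (t + 1))

theorem st_self (hp : IsPath H a) (t : ℕ) : st H a t (a t) = t := by
  rcases t with _ | t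
  · exact st_zero _
  · exact st_succ_neg (hp t).2

theorem st_after {t s : ℕ} (h : t < s) : t < st H a s (a t) := by
  have h1 : st H a (t + 1) (a t) = t + 1 := st_succ_neg H.irrefl
  have h2 := st_mono (H := H) (a := a) (show t + 1 ≤ s by omega) (a t)
  omega

theorem st_after2 (hp : IsPath H a) {t s : ℕ} (h : t + 1 < s) : t + 1 < st H a s (a t) := by
  have h1 : st H a (t + 2) (a t) = t + 2 := st_succ_neg (fun h => (hp t).2 h.symm)
  have h2 := st_mono (H := H) (a := a) (show t + 2 ≤ s by omega) (a t)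
  omega

/-- the pair `(u, i)` is a vertex of the tube with `N + 1` copies -/
def Vx (H : SimpleGraph β) (a : ℕ → β) (W : Finset β) (N : ℕ) (u : β) (i : ℕ) : Prop :=
  u ∈ W ∧ i ≤ N ∧ st H a i u = i ∧ (∀ t, t + 1 = i → u ≠ a t) ∧
    ∀ t, t < N → st H a t u = i → a t ≠ u

variable {W : Finset β} {N : ℕ} {u v : β} {i j : ℕ}

theorem vx_zero : Vx H a W 0 u i ↔ u ∈ W ∧ i = 0 := by
  constructor
  · rintro ⟨h1, h2, -⟩
    exact ⟨h1, by omega⟩
  · rintro ⟨h1, rfl⟩
    exact ⟨h1, le_rfl, st_zero _, fun t h => absurd h (by omega), fun t h => absurd h (by omega)⟩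

theorem vx_c (hp : IsPath H a) (haW : a N ∈ W) : Vx H a W N (a N) N := by
  refine ⟨haW, le_rfl, st_self hp N, ?_, ?_⟩
  · rintro t rfl
    exact (hp t).1.symm
  · intro t ht h
    have := st_le (H := H) (a := a) t (a N)
    omega

theorem vx_adj (hp : IsPath H a) (hu : u ∈ W) (h : H.Adj (a N) u) : Vx H a W N u (st H a N u) := by
  refine ⟨hu, st_le _ _, st_st _ _, ?_, ?_⟩
  · rintro t ht rfl
    have h1 := st_le (H := H) (a := a) N (a t)
    rcases Nat.lt_or_ge (t + 1) N with h2 | h2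
    · have := st_after2 hp h2
      omega
    · have h3 : N = t + 1 := by omega
      rw [h3] at h
      exact (hp t).2 h.symm
  · rintro t ht h1 rfl
    have := st_after (H := H) (a := a) ht
    have h2 := st_le (H := H) (a := a) t (a t)
    omega

theorem vx_new (hp : IsPath H a) (hu : u ∈ W) (h : u ≠ a N) :
    Vx H a W (N + 1) u (st H a (N + 1) u) := by
  refine ⟨hu, st_le _ _, st_st _ _, ?_, ?_⟩
  · rintro t ht rfl
    have h1 := st_le (H := H) (a := a) (N + 1) (a t)
    have h2 : t ≠ N := fun h2 => h (by rw [h2])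
    have := st_after2 hp (show t + 1 < N + 1 by omega)
    omega
  · rintro t ht h1 rfl
    have := st_after (H := H) (a := a) ht
    have h2 := st_le (H := H) (a := a) t (a t)
    omega

theorem vx_old (hp : IsPath H a) (h : Vx H a W N u i) (hne : ¬ (u = a N ∧ i = N)) :
    Vx H a W (N + 1) u i := by
  obtain ⟨h1, h2, h3, h4, h5⟩ := h
  refine ⟨h1, by omega, h3, h4, fun t ht h6 h7 => ?_⟩
  rcases Nat.lt_or_ge t N with h8 | h8
  · exact h5 t h8 h6 h7
  · have h9 : t = N := by omega
    subst h9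
    subst h7
    rw [st_self hp] at h6
    exact hne ⟨rfl, h6.symm⟩

theorem vx_back (hp : IsPath H a) (h : Vx H a W (N + 1) u i) (hi : i ≤ N) :
    Vx H a W N u i ∧ ¬ (u = a N ∧ i = N) := by
  obtain ⟨h1, h2, h3, h4, h5⟩ := h
  refine ⟨⟨h1, hi, h3, h4, fun t ht => h5 t (by omega)⟩, ?_⟩
  rintro ⟨rfl, rfl⟩
  exact h5 i (by omega) (st_self hp i) rfl

theorem vx_top (h : Vx H a W (N + 1) u (N + 1)) : u ≠ a N ∧ st H a (N + 1) u = N + 1 :=
  ⟨h.2.2.2.1 N rfl, h.2.2.1⟩

theorem vx_common (h : Vx H a W (N + 1) v j) {t : ℕ} (hu : st H a t u = N + 1)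
    (hv : st H a t v = j) : v ≠ a N ∧ st H a (N + 1) v = j := by
  have ht : N + 1 ≤ t := by
    have := st_le (H := H) (a := a) t u
    omega
  have h1 := st_mono (H := H) (a := a) ht v
  have h2 := st_mono (H := H) (a := a) h.2.1 v
  have h3 := h.2.2.1
  have h4 : st H a (N + 1) v = j := by omega
  refine ⟨?_, h4⟩
  rintro rfl
  have h5 : st H a (N + 1) (a N) = N + 1 := st_succ_neg H.irrefl
  exact h.2.2.2.1 N (by omega) rfl

end St

section Tube

variable {β : Type} [LinearOrder β] [Fintype β]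

/-- the graph of the tube -/
def tube (H : SimpleGraph β) (a : ℕ → β) (M : ℕ) : SimpleGraph (β ×ₗ Fin (M + 1)) where
  Adj p q := H.Adj (ofLex p).1 (ofLex q).1 ∧
    ∃ t, st H a t (ofLex p).1 = ((ofLex p).2 : ℕ) ∧ st H a t (ofLex q).1 = ((ofLex q).2 : ℕ)
  symm := ⟨fun p q h => ⟨h.1.symm, by obtain ⟨t, h1, h2⟩ := h.2; exact ⟨t, h2, h1⟩⟩⟩
  loopless := ⟨fun p h => h.1.ne rfl⟩

open scoped Classical in
/-- the vertices of the tube with `N + 1` copies -/
noncomputable def tubeV (H : SimpleGraph β) (a : ℕ → β) (W : Finset β) (M N : ℕ) :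
    Finset (β ×ₗ Fin (M + 1)) :=
  Finset.univ.filter (fun p => Vx H a W N (ofLex p).1 ((ofLex p).2 : ℕ))

variable {H : SimpleGraph β} {a : ℕ → β} {W : Finset β} {M N : ℕ}

theorem mem_tubeV {p : β ×ₗ Fin (M + 1)} :
    p ∈ tubeV H a W M N ↔ Vx H a W N (ofLex p).1 ((ofLex p).2 : ℕ) := by
  classical
  rw [tubeV]
  exact Finset.mem_filter.trans ⟨fun h => h.2, fun h => ⟨Finset.mem_univ _, h⟩⟩

variable {ι : Type} {k : ι → Type} [∀ i, Field (k i)]

theorem strictMono_pair (g : β → Fin (M + 1)) :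
    StrictMono (fun x => (toLex (x, g x) : β ×ₗ Fin (M + 1))) := by
  intro x y hxy
  exact Prod.Lex.toLex_lt_toLex.2 (Or.inl hxy)

theorem ext_lex {p q : β ×ₗ Fin (M + 1)} (h1 : (ofLex p).1 = (ofLex q).1)
    (h2 : ((ofLex p).2 : ℕ) = ((ofLex q).2 : ℕ)) : p = q := by
  have h3 : ofLex p = ofLex q := Prod.ext h1 (Fin.ext h2)
  exact ofLex.injective h3

theorem tube_zero {d : ℕ} (hS : Sp k H d W) :
    Sp k (tube H a M) d (tubeV H a W M 0) ∧ lam (tube H a M) (tubeV H a W M 0) = lam H W := by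
  let f : β ↪o β ×ₗ Fin (M + 1) := OrderEmbedding.ofStrictMono _ (strictMono_pair (fun _ => 0))
  have hc : Cmp f H (tube H a M) W := by
    intro x _ y _
    constructor
    · intro h
      exact ⟨h, 0, st_zero _, st_zero _⟩
    · exact fun h => h.1
  have hV : W.map f.toEmbedding = tubeV H a W M 0 := by
    ext p
    rw [mem_tubeV, vx_zero, Finset.mem_map]
    constructor
    · rintro ⟨x, hx, rfl⟩
      exact ⟨hx, rfl⟩
    · rintro ⟨h1, h2⟩
      exact ⟨(ofLex p).1, h1, ext_lex rfl h2.symm⟩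
  rw [← hV]
  exact ⟨⟨NP_map hc hS.np, fun i => HS_map hc (hS.hs i)⟩, lam_map hc⟩

theorem tube_succ {d : ℕ} (hp : IsPath H a) (haW : ∀ t, a t ∈ W) (hS : Sp k H (d + 1) W)
    (hN : N + 1 ≤ M) (hT : Sp k (tube H a M) (d + 1) (tubeV H a W M N)) :
    Sp k (tube H a M) (d + 1) (tubeV H a W M (N + 1)) ∧
      lam (tube H a M) (tubeV H a W M (N + 1)) = lam (tube H a M) (tubeV H a W M N) + lam H W := by
  classical
  set K := tube H a M with hK
  let g : β → Fin (M + 1) := fun u => if u = a N then ⟨N, by omega⟩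
    else ⟨st H a (N + 1) u, by have := st_le (H := H) (a := a) (N + 1) u; omega⟩
  have hg1 : (g (a N) : ℕ) = N := by
    change ((if a N = a N then (⟨N, by omega⟩ : Fin (M + 1)) else _ : Fin (M + 1)) : ℕ) = N
    rw [if_pos rfl]
  have hg2 : ∀ u, u ≠ a N → (g u : ℕ) = st H a (N + 1) u := by
    intro u hu
    change ((if u = a N then _ else _ : Fin (M + 1)) : ℕ) = _
    rw [if_neg hu]
  let f : β ↪o β ×ₗ Fin (M + 1) := OrderEmbedding.ofStrictMono _ (strictMono_pair g)
  have hf : ∀ u, ofLex (f u) = (u, g u) := fun u => rfl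
  have hc : Cmp f H K W := by
    intro x _ y _
    constructor
    · intro h
      refine ⟨h, ?_⟩
      rw [hf, hf]
      by_cases hx : x = a N
      · subst hx
        have hy : y ≠ a N := h.ne'
        refine ⟨N, ?_, ?_⟩
        · change st H a N (a N) = (g (a N) : ℕ)
          rw [hg1, st_self hp]
        · change st H a N y = (g y : ℕ)
          rw [hg2 y hy, st_succ_pos h]
      · by_cases hy : y = a N
        · subst hy
          refine ⟨N, ?_, ?_⟩
          · change st H a N x = (g x : ℕ)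
            rw [hg2 x hx, st_succ_pos h.symm]
          · change st H a N (a N) = (g (a N) : ℕ)
            rw [hg1, st_self hp]
        · exact ⟨N + 1, (hg2 x hx).symm, (hg2 y hy).symm⟩
    · exact fun h => h.1
  set X₁ := tubeV H a W M N with hX₁
  set X₂ := W.map f.toEmbedding with hX₂
  set c := f (a N) with hcdef
  have hc1 : (ofLex c).1 = a N := rfl
  have hc2 : ((ofLex c).2 : ℕ) = N := hg1
  have hmem2 : ∀ p, p ∈ X₂ ↔ (ofLex p).1 ∈ W ∧ p = f (ofLex p).1 := by
    intro p
    rw [hX₂, Finset.mem_map]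
    constructor
    · rintro ⟨x, hx, rfl⟩
      exact ⟨hx, rfl⟩
    · rintro ⟨h1, h2⟩
      exact ⟨_, h1, h2.symm⟩
  -- the elements of `X₂` other than `c`
  have hmem2' : ∀ p, p ∈ X₂.erase c ↔ (ofLex p).1 ∈ W ∧ (ofLex p).1 ≠ a N ∧
      ((ofLex p).2 : ℕ) = st H a (N + 1) (ofLex p).1 := by
    intro p
    rw [Finset.mem_erase, hmem2]
    constructor
    · rintro ⟨h1, h2, h3⟩
      have h4 : (ofLex p).1 ≠ a N := by
        intro h4
        apply h1
        rw [h3, h4]
      refine ⟨h2, h4, ?_⟩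
      rw [← hg2 _ h4]
      have := congrArg (fun q => ((ofLex q).2 : ℕ)) h3
      exact this
    · rintro ⟨h1, h2, h3⟩
      refine ⟨?_, h1, ?_⟩
      · intro h4
        rw [h4] at h2
        exact h2 hc1
      · refine ext_lex rfl ?_
        rw [hf]
        change ((ofLex p).2 : ℕ) = (g (ofLex p).1 : ℕ)
        rw [hg2 _ h2, h3]
  have hcX1 : c ∈ X₁ := by
    rw [hX₁, mem_tubeV, hc1, hc2]
    exact vx_c hp (haW N)
  have hcX2 : c ∈ X₂ := Finset.mem_map_of_mem _ (haW N)
  have hne : ∀ p : β ×ₗ Fin (M + 1), p ≠ c ↔ ¬ ((ofLex p).1 = a N ∧ ((ofLex p).2 : ℕ) = N) := by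
    intro p
    constructor
    · rintro h ⟨h1, h2⟩
      exact h (ext_lex (by rw [h1, hc1]) (by rw [h2, hc2]))
    · rintro h rfl
      exact h ⟨hc1, hc2⟩
  -- the intersection
  have hint : ∀ p, p ∈ X₁.erase c ∩ X₂.erase c ↔ (ofLex p).1 ∈ W ∧ H.Adj (a N) (ofLex p).1 ∧
      ((ofLex p).2 : ℕ) = st H a N (ofLex p).1 := by
    intro p
    rw [Finset.mem_inter, hmem2', Finset.mem_erase, hX₁, mem_tubeV]
    constructor
    · rintro ⟨⟨h1, h2⟩, h3, h4, h5⟩
      have h6 : H.Adj (a N) (ofLex p).1 := by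
        by_contra h6
        rw [st_succ_neg h6] at h5
        have := h2.2.1
        omega
      exact ⟨h3, h6, by rw [h5, st_succ_pos h6]⟩
    · rintro ⟨h1, h2, h3⟩
      have h4 : (ofLex p).1 ≠ a N := h2.ne'
      refine ⟨⟨?_, ?_⟩, h1, h4, by rw [h3, st_succ_pos h2]⟩
      · rw [hne]
        exact fun h => h4 h.1
      · rw [h3]
        exact vx_adj hp h1 h2
  have hG : GlueData K X₁ X₂ c c := by
    refine ⟨hcX1, hcX2, ?_, ?_⟩
    · ext p
      rw [hint, mem_lk]
      constructor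
      · rintro ⟨h1, h2, t, h3, h4⟩
        rw [hc1] at h2 h3
        rw [hc2] at h3
        rw [hX₁, mem_tubeV] at h1
        have h5 : t = N := by
          rcases Nat.lt_trichotomy t N with h | h | h
          · have := st_le (H := H) (a := a) t (a N)
            omega
          · exact h
          · have := st_after (H := H) (a := a) h
            omega
        rw [h5] at h4
        exact ⟨h1.1, h2, h4.symm⟩
      · rintro ⟨h1, h2, h3⟩
        refine ⟨?_, ?_, N, ?_, ?_⟩
        · rw [hX₁, mem_tubeV, h3]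
          exact vx_adj hp h1 h2
        · rw [hc1]; exact h2
        · rw [hc1, hc2]; exact st_self hp N
        · exact h3.symm
    · ext p
      rw [hint, mem_lk, hmem2]
      constructor
      · rintro ⟨⟨h1, h2⟩, h3, t, h4, h5⟩
        rw [hc1] at h3
        have h6 : (ofLex p).1 ≠ a N := h3.ne'
        refine ⟨h1, h3, ?_⟩
        have h7 := congrArg (fun q => ((ofLex q).2 : ℕ)) h2
        change ((ofLex p).2 : ℕ) = (g (ofLex p).1 : ℕ) at h7
        rw [h7, hg2 _ h6, st_succ_pos h3]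
      · rintro ⟨h1, h2, h3⟩
        have h6 : (ofLex p).1 ≠ a N := h2.ne'
        refine ⟨⟨h1, ?_⟩, ?_, N, ?_, ?_⟩
        · refine ext_lex rfl ?_
          change ((ofLex p).2 : ℕ) = (g (ofLex p).1 : ℕ)
          rw [hg2 _ h6, h3, st_succ_pos h2]
        · rw [hc1]; exact h2
        · rw [hc1, hc2]; exact st_self hp N
        · exact h3.symm
  -- the union
  have hun : X₁.erase c ∪ X₂.erase c = tubeV H a W M (N + 1) := by
    ext p
    rw [Finset.mem_union, hmem2', Finset.mem_erase, hne, hX₁, mem_tubeV, mem_tubeV]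
    constructor
    · rintro (⟨h1, h2⟩ | ⟨h1, h2, h3⟩)
      · exact vx_old hp h2 h1
      · rw [h3]; exact vx_new hp h1 h2
    · intro h
      rcases Nat.lt_or_ge N ((ofLex p).2 : ℕ) with h1 | h1
      · right
        have h2 : ((ofLex p).2 : ℕ) = N + 1 := by
          have := h.2.1
          omega
        rw [h2] at h
        obtain ⟨h3, h4⟩ := vx_top h
        exact ⟨h.1, h3, by rw [h2, h4]⟩
      · left
        obtain ⟨h2, h3⟩ := vx_back hp h h1
        exact ⟨h3, h2⟩
  -- no new edges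
  have hside : ∀ x, x ∈ tubeV H a W M (N + 1) → x ∉ X₁.erase c → ((ofLex x).2 : ℕ) = N + 1 := by
    intro x hx hx'
    rw [mem_tubeV] at hx
    by_contra h
    have h1 : ((ofLex x).2 : ℕ) ≤ N := by
      have := hx.2.1
      omega
    obtain ⟨h2, h3⟩ := vx_back hp hx h1
    exact hx' (Finset.mem_erase.2 ⟨(hne x).2 h3, by rw [hX₁, mem_tubeV]; exact h2⟩)
  have hside2 : ∀ x z, x ∈ tubeV H a W M (N + 1) → z ∈ tubeV H a W M (N + 1) → K.Adj x z →
      x ∉ X₁.erase c → x ∈ X₂.erase c ∧ z ∈ X₂.erase c := by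
    intro x z hx hz hxz hx'
    have h1 := hside x hx hx'
    obtain ⟨h2, t, h3, h4⟩ := hxz
    rw [mem_tubeV] at hx hz
    rw [h1] at h3
    obtain ⟨h5, h6⟩ := vx_common hz h3 h4
    rw [h1] at hx
    obtain ⟨h7, h8⟩ := vx_top hx
    rw [hmem2', hmem2']
    exact ⟨⟨hx.1, h7, by rw [h1, h8]⟩, hz.1, h5, h6.symm⟩
  have hcong : ∀ x ∈ tubeV H a W M (N + 1), ∀ z ∈ tubeV H a W M (N + 1),
      (glueG K (X₁.erase c) (X₂.erase c)).Adj x z ↔ K.Adj x z := by
    intro x hx z hz
    rw [glueG_adj]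
    constructor
    · exact fun h => h.1
    · intro h
      refine ⟨h, ?_⟩
      by_cases hx' : x ∈ X₁.erase c
      · by_cases hz' : z ∈ X₁.erase c
        · exact Or.inl ⟨hx', hz'⟩
        · obtain ⟨h1, h2⟩ := hside2 z x hz hx h.symm hz'
          exact Or.inr ⟨h2, h1⟩
      · exact Or.inr (hside2 x z hx hz h hx')
  have n2 : NP K (d + 1) X₂ := NP_map hc hS.np
  have hnp := glue_np stmDel hG hT.np n2
  have hhs := fun i => glue_hs hG hT.np n2 (hT.hs i) (HS_map hc (hS.hs i))
  have hfe := fe_glue_data hG (-1 / 2 : ℚ)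
  rw [hun] at hnp hfe
  refine ⟨⟨NP_congr hcong hnp, fun i => ?_⟩, ?_⟩
  · have := hhs i
    rw [hun] at this
    exact HS_congr hcong this
  · have h1 : (1 : ℚ) + 2 * (-1 / 2) = 0 := by norm_num
    rw [h1, zero_mul, sub_zero, fe_map hc] at hfe
    rw [lam, lam, lam, ← hfe, fe, fe, cl_congr hcong]

theorem tube_all {d : ℕ} (hp : IsPath H a) (haW : ∀ t, a t ∈ W) (hS : Sp k H (d + 1) W) :
    ∀ N, N ≤ M → Sp k (tube H a M) (d + 1) (tubeV H a W M N) ∧
      lam (tube H a M) (tubeV H a W M N) = (N + 1) * lam H W := by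
  intro N
  induction N with
  | zero =>
    intro _
    obtain ⟨h1, h2⟩ := tube_zero (a := a) (M := M) hS
    exact ⟨h1, by rw [h2]; push_cast; ring⟩
  | succ N ih =>
    intro hN
    obtain ⟨h1, h2⟩ := ih (by omega)
    obtain ⟨h3, h4⟩ := tube_succ hp haW hS hN h1
    refine ⟨h3, ?_⟩
    rw [h4, h2]
    push_cast
    ring

theorem tube_card : (tubeV H a W M N).card ≤ (N + 1) * W.card := by
  classical
  have h1 : (N + 1) * W.card = (Finset.range (N + 1) ×ˢ W).card := by
    rw [Finset.card_product, Finset.card_range]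
  rw [h1]
  refine Finset.card_le_card_of_injOn (fun p => (((ofLex p).2 : ℕ), (ofLex p).1)) ?_ ?_
  · intro p hp
    have hp' := mem_tubeV.1 (Finset.mem_coe.1 hp)
    refine Finset.mem_coe.2 (Finset.mem_product.2 ⟨Finset.mem_range.2 ?_, hp'.1⟩)
    have := hp'.2.1
    change ((ofLex p).2 : ℕ) < N + 1
    omega
  · intro p _ q _ h
    have h2 := Prod.ext_iff.1 h
    exact ext_lex h2.2 h2.1

/-- the number of a vertex of the copied complex -/
noncomputable def idx (W : Finset β) (u : β) : ℕ :=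
  if h : u ∈ W then ((W.equivFin ⟨u, h⟩ : Fin _) : ℕ) else 0

theorem idx_lt {u : β} (h : u ∈ W) : idx W u < W.card := by
  rw [idx, dif_pos h]
  exact Fin.isLt _

theorem idx_inj {u v : β} (hu : u ∈ W) (hv : v ∈ W) (h : idx W u = idx W v) : u = v := by
  rw [idx, dif_pos hu, idx, dif_pos hv] at h
  have := W.equivFin.injective (Fin.ext h)
  exact congrArg Subtype.val this

/-- the label of a vertex of the tube -/
noncomputable def label (W : Finset β) (p : β ×ₗ Fin (M + 1)) : ℤ :=
  (((ofLex p).2 : ℕ) : ℤ) * (W.card : ℤ) + (idx W (ofLex p).1 : ℤ)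

theorem label_inj {p q : β ×ₗ Fin (M + 1)} (hp : (ofLex p).1 ∈ W) (hq : (ofLex q).1 ∈ W)
    (h : label W p = label W q) : p = q := by
  unfold label at h
  have h1 := idx_lt hp
  have h2 := idx_lt hq
  set x : ℕ := idx W (ofLex p).1 with hx
  set y : ℕ := idx W (ofLex q).1 with hy
  set B : ℕ := W.card with hB
  have h3 : ((ofLex p).2 : ℕ) * B + x = ((ofLex q).2 : ℕ) * B + y := by exact_mod_cast h
  have hBpos : 0 < B := by omega
  have h4 : ((ofLex p).2 : ℕ) = ((ofLex q).2 : ℕ) := by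
    have e1 : (((ofLex p).2 : ℕ) * B + x) / B = ((ofLex p).2 : ℕ) := by
      rw [mul_comm, Nat.mul_add_div hBpos, Nat.div_eq_of_lt h1, add_zero]
    have e2 : (((ofLex q).2 : ℕ) * B + y) / B = ((ofLex q).2 : ℕ) := by
      rw [mul_comm, Nat.mul_add_div hBpos, Nat.div_eq_of_lt h2, add_zero]
    rw [← e1, ← e2, h3]
  have h5 : x = y := by
    rw [h4] at h3
    omega
  exact ext_lex (idx_inj hp hq h5) h4

theorem label_adj {P : ℕ} (hw : ∀ u ∈ W, ∀ s, ∃ t, s ≤ t ∧ t < s + P ∧ ¬ H.Adj (a t) u)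
    {p q : β ×ₗ Fin (M + 1)} (hpV : p ∈ tubeV H a W M N) (hqV : q ∈ tubeV H a W M N)
    (h : (tube H a M).Adj p q) : |label W p - label W q| ≤ (P + 1) * W.card := by
  rw [mem_tubeV] at hpV hqV
  obtain ⟨-, t, h1, h2⟩ := h
  have key : ∀ u ∈ W, t < st H a t u + P := by
    intro u hu
    obtain ⟨r, hr1, hr2, hr3⟩ := hw u hu (st H a t u)
    by_contra hcon
    have h3 : r < t := by omega
    have h4 : st H a (r + 1) u = r + 1 := st_succ_neg hr3
    have h5 := st_mono (H := H) (a := a) (show r + 1 ≤ t by omega) u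
    omega
  have k1 := key _ hpV.1
  have k2 := key _ hqV.1
  have l1 := st_le (H := H) (a := a) t (ofLex p).1
  have l2 := st_le (H := H) (a := a) t (ofLex q).1
  rw [h1] at k1 l1
  rw [h2] at k2 l2
  have b1 := idx_lt hpV.1
  have b2 := idx_lt hqV.1
  unfold label
  set x : ℤ := ((idx W (ofLex p).1 : ℕ) : ℤ) with hx
  set y : ℤ := ((idx W (ofLex q).1 : ℕ) : ℤ) with hy
  set i : ℤ := (((ofLex p).2 : ℕ) : ℤ) with hi
  set j : ℤ := (((ofLex q).2 : ℕ) : ℤ) with hj
  set B : ℤ := (W.card : ℤ) with hB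
  have c1 : 0 ≤ x ∧ x < B := ⟨by rw [hx]; exact Int.natCast_nonneg _,
    by rw [hx, hB]; exact Int.ofNat_lt.2 b1⟩
  have c2 : 0 ≤ y ∧ y < B := ⟨by rw [hy]; exact Int.natCast_nonneg _,
    by rw [hy, hB]; exact Int.ofNat_lt.2 b2⟩
  have c3 : |i - j| ≤ P := by
    rw [abs_le]
    constructor <;> omega
  have c4 : 0 ≤ B := by omega
  have e : i * B + x - (j * B + y) = (i - j) * B + (x - y) := by ring
  rw [e]
  calc |(i - j) * B + (x - y)| ≤ |(i - j) * B| + |x - y| := abs_add_le _ _
    _ ≤ P * B + B := by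
        refine add_le_add ?_ ?_
        · rw [abs_mul, abs_of_nonneg c4]
          exact mul_le_mul_of_nonneg_right c3 c4
        · rw [abs_le]
          constructor <;> omega
    _ = (P + 1) * B := by ring

end Tube

end Pool.Agent.D0H80.CD
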