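import Pool.Agent.D0H80.CD.Twist

set_option autoImplicit false
set_option linter.unusedSectionVars false
set_option linter.unusedVariables false

/-! # Gluing along isomorphic links -/

namespace Pool.Agent.D0H80.CD

open Pool.Agent.W497.FS

/-- the link of `x` in the complex on `W` is isomorphic to the complex on `Y` -/
def LI {α μ : Type} (H : SimpleGraph α) (W : Finset α) (x : α) (M : SimpleGraph μ)
    (Y : Finset μ) : Prop :=
  ∃ g : μ → α, (∀ y ∈ Y, g y ∈ lk H W x) ∧ (∀ y ∈ Y, ∀ y' ∈ Y, g y = g y' → y = y') ∧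
    (∀ a ∈ lk H W x, ∃ y ∈ Y, g y = a) ∧
    ∀ y ∈ Y, ∀ y' ∈ Y, (M.Adj y y' ↔ H.Adj (g y) (g y'))

theorem LI.tr {α α' μ : Type} {H : SimpleGraph α} {W : Finset α} {x : α} {M : SimpleGraph μ}
    {Y : Finset μ} {H' : SimpleGraph α'} {W' : Finset α'} {x' : α'} (h : LI H W x M Y)
    (i : α → α') (hm : ∀ a ∈ lk H W x, i a ∈ lk H' W' x')
    (hi : ∀ a ∈ lk H W x, ∀ b ∈ lk H W x, i a = i b → a = b)
    (hs : ∀ b ∈ lk H' W' x', ∃ a ∈ lk H W x, i a = b)
    (hadj : ∀ a ∈ lk H W x, ∀ b ∈ lk H W x, (H.Adj a b ↔ H'.Adj (i a) (i b))) :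
    LI H' W' x' M Y := by
  obtain ⟨g, h1, h2, h3, h4⟩ := h
  refine ⟨fun y => i (g y), fun y hy => hm _ (h1 y hy), fun y hy y' hy' he =>
    h2 y hy y' hy' (hi _ (h1 y hy) _ (h1 y' hy') he), fun b hb => ?_, fun y hy y' hy' => ?_⟩
  · obtain ⟨a, ha, rfl⟩ := hs b hb
    obtain ⟨y, hy, rfl⟩ := h3 a ha
    exact ⟨y, hy, rfl⟩
  · rw [h4 y hy y' hy', hadj _ (h1 y hy) _ (h1 y' hy')]

theorem LI.refl {α : Type} {H : SimpleGraph α} {W : Finset α} {x : α} : LI H W x H (lk H W x) :=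
  ⟨fun y => y, fun y hy => hy, fun y _ y' _ h => h, fun a ha => ⟨a, ha, rfl⟩,
    fun y _ y' _ => Iff.rfl⟩

section

variable {ι : Type} {k : ι → Type} [∀ i, Field (k i)]

section Glue

variable {α β : Type} [LinearOrder α] [Fintype α] [LinearOrder β] [Fintype β]
    {H : SimpleGraph α} {K : SimpleGraph β} {W : Finset α} {V : Finset β} {v : α} {u : β}

open scoped Classical in
theorem glue_abs {d : ℕ} (h1 : Sp k H d W) (h2 : Sp k K d V) (hv : v ∈ W) (hu : u ∈ V) (φ : β → α)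
    (hφ : ∀ b ∈ lk K V u, φ b ∈ lk H W v)
    (hinj : ∀ b ∈ lk K V u, ∀ b' ∈ lk K V u, φ b = φ b' → b = b')
    (hsurj : ∀ a ∈ lk H W v, ∃ b ∈ lk K V u, φ b = a)
    (hadj : ∀ b ∈ lk K V u, ∀ b' ∈ lk K V u, (K.Adj b b' ↔ H.Adj (φ b) (φ b'))) :
    ∃ (γ : Type) (_ : LinearOrder γ) (_ : Fintype γ) (G : SimpleGraph γ) (i : α ↪ γ) (j : β ↪ γ),
      Cm i H G W ∧ Cm j K G V ∧ GlueData G (W.map i) (V.map j) (i v) (j u) ∧
      Sp k (glueG G ((W.map i).erase (i v)) ((V.map j).erase (j u))) d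
        ((W.map i).erase (i v) ∪ (V.map j).erase (j u)) ∧
      lam (glueG G ((W.map i).erase (i v)) ((V.map j).erase (j u)))
        ((W.map i).erase (i v) ∪ (V.map j).erase (j u)) = lam H W + lam K V ∧
      (∀ b ∈ lk K V u, j b = i (φ b)) ∧ (∀ a b, i a = j b → b ∈ lk K V u ∧ a = φ b) := by
  let γ := α ⊕ₗ β
  let i : α ↪ γ := ⟨fun a => toLex (Sum.inl a), fun a b h => Sum.inl_injective (toLex.injective h)⟩
  let jf : β → γ := fun b => if b ∈ lk K V u then toLex (Sum.inl (φ b)) else toLex (Sum.inr b)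
  have jf1 : ∀ b, b ∈ lk K V u → jf b = toLex (Sum.inl (φ b)) := fun b hb => if_pos hb
  have jf2 : ∀ b, b ∉ lk K V u → jf b = toLex (Sum.inr b) := fun b hb => if_neg hb
  have jinj : Function.Injective jf := by
    intro b b' h
    by_cases hb : b ∈ lk K V u <;> by_cases hb' : b' ∈ lk K V u
    · rw [jf1 b hb, jf1 b' hb'] at h
      exact hinj b hb b' hb' (Sum.inl_injective (toLex.injective h))
    · rw [jf1 b hb, jf2 b' hb'] at h
      exact absurd (toLex.injective h) (by simp)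
    · rw [jf2 b hb, jf1 b' hb'] at h
      exact absurd (toLex.injective h) (by simp)
    · rw [jf2 b hb, jf2 b' hb'] at h
      exact Sum.inr_injective (toLex.injective h)
  let j : β ↪ γ := ⟨jf, jinj⟩
  have hji : ∀ b ∈ lk K V u, j b = i (φ b) := fun b hb => jf1 b hb
  have hij : ∀ a b, i a = j b → b ∈ lk K V u ∧ a = φ b := by
    intro a b h
    by_cases hb : b ∈ lk K V u
    · refine ⟨hb, ?_⟩
      rw [hji b hb] at h
      exact i.injective h
    · have h' : (toLex (Sum.inl a) : γ) = toLex (Sum.inr b) := by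
        rw [← jf2 b hb]; exact h
      exact absurd (toLex.injective h') (by simp)
  let G : SimpleGraph γ :=
    { Adj := fun p q => (∃ a ∈ W, ∃ a' ∈ W, H.Adj a a' ∧ i a = p ∧ i a' = q) ∨
        (∃ b ∈ V, ∃ b' ∈ V, K.Adj b b' ∧ j b = p ∧ j b' = q)
      symm := ⟨fun p q h => by
        rcases h with ⟨a, ha, a', ha', h, e1, e2⟩ | ⟨a, ha, a', ha', h, e1, e2⟩
        · exact Or.inl ⟨a', ha', a, ha, h.symm, e2, e1⟩
        · exact Or.inr ⟨a', ha', a, ha, h.symm, e2, e1⟩⟩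
      loopless := ⟨fun p h => by
        rcases h with ⟨a, ha, a', ha', h, e1, e2⟩ | ⟨a, ha, a', ha', h, e1, e2⟩
        · exact h.ne (i.injective (e1.trans e2.symm))
        · exact h.ne (j.injective (e1.trans e2.symm))⟩ }
  have c1 : Cm i H G W := by
    intro a ha a' ha'
    constructor
    · exact fun h => Or.inl ⟨a, ha, a', ha', h, rfl, rfl⟩
    · rintro (⟨b, hb, b', hb', h, e1, e2⟩ | ⟨b, hb, b', hb', h, e1, e2⟩)
      · rw [← i.injective e1, ← i.injective e2]; exact h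
      · obtain ⟨p1, p2⟩ := hij a b e1.symm
        obtain ⟨q1, q2⟩ := hij a' b' e2.symm
        rw [p2, q2]
        exact (hadj b p1 b' q1).1 h
  have c2 : Cm j K G V := by
    intro a ha a' ha'
    constructor
    · exact fun h => Or.inr ⟨a, ha, a', ha', h, rfl, rfl⟩
    · rintro (⟨b, hb, b', hb', h, e1, e2⟩ | ⟨b, hb, b', hb', h, e1, e2⟩)
      · obtain ⟨p1, p2⟩ := hij b a e1
        obtain ⟨q1, q2⟩ := hij b' a' e2
        rw [p2, q2] at h
        exact (hadj a p1 a' q1).2 h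
      · rw [← j.injective e1, ← j.injective e2]; exact h
  have hul : u ∉ lk K V u := not_mem_lk_self
  have hvl : v ∉ lk H W v := not_mem_lk_self
  have hG : GlueData G (W.map i) (V.map j) (i v) (j u) := by
    have key : (lk H W v).map i = (W.map i).erase (i v) ∩ (V.map j).erase (j u) := by
      ext p
      rw [Finset.mem_map, Finset.mem_inter, Finset.mem_erase, Finset.mem_erase, Finset.mem_map,
        Finset.mem_map]
      constructor
      · rintro ⟨a, ha, rfl⟩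
        obtain ⟨b, hb, rfl⟩ := hsurj a ha
        refine ⟨⟨fun h => hvl (i.injective h ▸ ha), _, lk_subset ha, rfl⟩, fun h => ?_,
          b, lk_subset hb, hji b hb⟩
        rw [← hji b hb] at h
        exact hul (j.injective h ▸ hb)
      · rintro ⟨⟨_, a, ha, rfl⟩, _, b, hb, hb'⟩
        obtain ⟨p1, p2⟩ := hij a b hb'.symm
        exact ⟨a, by rw [p2]; exact hφ b p1, rfl⟩
    have key2 : (lk K V u).map j = (lk H W v).map i := by
      ext p
      rw [Finset.mem_map, Finset.mem_map]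
      constructor
      · rintro ⟨b, hb, rfl⟩
        exact ⟨φ b, hφ b hb, (hji b hb).symm⟩
      · rintro ⟨a, ha, rfl⟩
        obtain ⟨b, hb, rfl⟩ := hsurj a ha
        exact ⟨b, hb, hji b hb⟩
    refine ⟨Finset.mem_map_of_mem _ hv, Finset.mem_map_of_mem _ hu, ?_, ?_⟩
    · rw [lk_tw c1 (Finset.Subset.refl _) hv, key]
    · rw [lk_tw c2 (Finset.Subset.refl _) hu, key2, key]
  have n1 := Sp_tw c1 h1
  have n2 := Sp_tw c2 h2
  refine ⟨γ, inferInstance, inferInstance, G, i, j, c1, c2, hG, ⟨glue_np stmDel hG n1.np n2.np,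
    fun q => glue_hs hG n1.np n2.np (n1.hs q) (n2.hs q)⟩, ?_, hji, hij⟩
  have h3 : (1 : ℚ) + 2 * (-1 / 2) = 0 := by norm_num
  have e := fe_glue_data hG (-1 / 2 : ℚ)
  rw [fe_tw c1, fe_tw c2, h3, zero_mul, sub_zero] at e
  exact e

/-- links of vertices not adjacent to the glued vertex are preserved -/
theorem LI_glue {γ μ : Type} [LinearOrder γ] [Fintype γ] {G : SimpleGraph γ} {i : α ↪ γ}
    (hc : Cm i H G W) {X₂ : Finset γ} {c₂ : γ} {x : α}
    (hG : GlueData G (W.map i) X₂ (i v) c₂) (hv : v ∈ W) (hx : x ∈ W) (hxv : x ≠ v)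
    (hn : ¬ H.Adj x v) {M : SimpleGraph μ} {Y : Finset μ} (hli : LI H W x M Y) :
    i x ∈ (W.map i).erase (i v) ∧ i x ∉ X₂.erase c₂ ∧
      LI (glueG G ((W.map i).erase (i v)) (X₂.erase c₂)) ((W.map i).erase (i v) ∪ X₂.erase c₂)
        (i x) M Y := by
  have m1 : i x ∈ (W.map i).erase (i v) :=
    Finset.mem_erase.2 ⟨fun h => hxv (i.injective h), Finset.mem_map_of_mem _ hx⟩
  have m2 : i x ∉ X₂.erase c₂ := by
    intro h
    have h1 : i x ∈ lk G (W.map i) (i v) := by rw [hG.lk₁]; exact Finset.mem_inter.2 ⟨m1, h⟩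
    exact hn ((hc v hv x hx).2 (mem_lk.1 h1).2).symm
  refine ⟨m1, m2, ?_⟩
  have e1 : lk (glueG G ((W.map i).erase (i v)) (X₂.erase c₂))
      ((W.map i).erase (i v) ∪ X₂.erase c₂) (i x) = (lk H W x).map i := by
    rw [lk_glue_one m1 m2, hG.lk_one m1 m2, lk_tw hc (Finset.Subset.refl _) hx]
  have m3 : ∀ a ∈ lk H W x, i a ∈ (W.map i).erase (i v) := by
    intro a ha
    obtain ⟨h1, h2⟩ := mem_lk.1 ha
    refine Finset.mem_erase.2 ⟨fun h => hn ?_, Finset.mem_map_of_mem _ h1⟩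
    rw [← i.injective h]; exact h2
  refine hli.tr i ?_ (fun a _ b _ h => i.injective h) ?_ ?_
  · intro a ha
    rw [e1]; exact Finset.mem_map_of_mem _ ha
  · intro b hb
    rw [e1] at hb
    exact Finset.mem_map.1 hb
  · intro a ha b hb
    rw [glueG_adj, hc a (lk_subset ha) b (lk_subset hb)]
    constructor
    · exact fun h => ⟨h, Or.inl ⟨m3 a ha, m3 b hb⟩⟩
    · exact fun h => h.1

end Glue

/-- there is a flag homology sphere of rank `d` with Charney-Davis quantity `l` having two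
non-adjacent vertices with the given links -/
def BS (k : ι → Type) [∀ i, Field (k i)] (d : ℕ) {μ ν : Type} (M : SimpleGraph μ) (Y : Finset μ)
    (M' : SimpleGraph ν) (Y' : Finset ν) (l : ℚ) : Prop :=
  ∃ (α : Type) (_ : LinearOrder α) (_ : Fintype α) (H : SimpleGraph α) (W : Finset α) (x x' : α),
    Sp k H d W ∧ x ∈ W ∧ x' ∈ W ∧ x ≠ x' ∧ ¬ H.Adj x x' ∧ LI H W x M Y ∧ LI H W x' M' Y' ∧
      lam H W = l

theorem BS.symm {d : ℕ} {μ ν : Type} {M : SimpleGraph μ} {Y : Finset μ}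
    {M' : SimpleGraph ν} {Y' : Finset ν} {l : ℚ} (h : BS k d M Y M' Y' l) : BS k d M' Y' M Y l := by
  obtain ⟨α, o, ft, H, W, x, x', h1, h2, h3, h4, h5, h6, h7, h8⟩ := h
  exact ⟨α, o, ft, H, W, x', x, h1, h3, h2, h4.symm, fun h => h5 h.symm, h7, h6, h8⟩

open scoped Classical in
theorem BS.comp {d : ℕ} {μ₁ μ₂ μ₃ : Type} {M₁ : SimpleGraph μ₁} {Y₁ : Finset μ₁}
    {M₂ : SimpleGraph μ₂} {Y₂ : Finset μ₂} {M₃ : SimpleGraph μ₃} {Y₃ : Finset μ₃} {l l' : ℚ}
    (h : BS k d M₁ Y₁ M₂ Y₂ l) (h' : BS k d M₂ Y₂ M₃ Y₃ l') : BS k d M₁ Y₁ M₃ Y₃ (l + l') := by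
  obtain ⟨α, o, ft, H, W, x, x', hS, hx, hx', hne, hnadj, hl1, hl2, rfl⟩ := h
  obtain ⟨β, o', ft', K, V, y, y', hS', hy, hy', hne', hnadj', hl1', hl2', rfl⟩ := h'
  obtain ⟨g, g1, g2, g3, g4⟩ := hl2
  obtain ⟨q, q1, q2, q3, q4⟩ := hl1'
  let φ : β → α := fun b => if hb : ∃ m ∈ Y₂, q m = b then g hb.choose else x'
  have hφ : ∀ m ∈ Y₂, φ (q m) = g m := by
    intro m hm
    have hex : ∃ m' ∈ Y₂, q m' = q m := ⟨m, hm, rfl⟩
    have h1 : φ (q m) = g hex.choose := dif_pos hex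
    rw [h1]
    congr 1
    exact q2 _ hex.choose_spec.1 m hm hex.choose_spec.2
  obtain ⟨γ, oγ, fγ, G, i, j, c1, c2, hG, hSp, hlam, -, hij⟩ := glue_abs (φ := φ) hS hS' hx' hy
    (by
      intro b hb
      obtain ⟨m, hm, rfl⟩ := q3 b hb
      rw [hφ m hm]; exact g1 m hm)
    (by
      intro b hb b' hb' he
      obtain ⟨m, hm, rfl⟩ := q3 b hb
      obtain ⟨m', hm', rfl⟩ := q3 b' hb'
      rw [hφ m hm, hφ m' hm'] at he
      rw [g2 m hm m' hm' he])
    (by
      intro a ha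
      obtain ⟨m, hm, rfl⟩ := g3 a ha
      exact ⟨q m, q1 m hm, hφ m hm⟩)
    (by
      intro b hb b' hb'
      obtain ⟨m, hm, rfl⟩ := q3 b hb
      obtain ⟨m', hm', rfl⟩ := q3 b' hb'
      rw [hφ m hm, hφ m' hm', ← q4 m hm m' hm', g4 m hm m' hm'])
  obtain ⟨a1, a2, a3⟩ := LI_glue c1 hG hx' hx hne hnadj hl1
  obtain ⟨b1, b2, b3⟩ := LI_glue c2 hG.symm hy hy' hne'.symm (fun h => hnadj' h.symm) hl2'
  rw [glueG_comm, Finset.union_comm] at b3
  refine ⟨γ, oγ, fγ, _, _, i x, j y', hSp, Finset.mem_union_left _ a1, Finset.mem_union_right _ b1,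
    ?_, ?_, a3, b3, hlam⟩
  · intro h
    rw [h] at a2
    exact a2 b1
  · rintro ⟨-, h | h⟩
    · exact b2 h.2
    · exact a2 h.1

/-- two non-adjacent vertices of a sphere -/
theorem BS.of_sp {d : ℕ} {α : Type} [LinearOrder α] [Fintype α] {H : SimpleGraph α} {W : Finset α}
    (hS : Sp k H (d + 1) W) : ∃ x ∈ W, ∃ x' ∈ W, x ≠ x' ∧ ¬ H.Adj x x' ∧
      BS k (d + 1) H (lk H W x) H (lk H W x') (lam H W) := by
  obtain ⟨x, hx⟩ := hS.np.nonempty
  obtain ⟨x', h1, h2, h3⟩ := hS.np.exists_nonadj hx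
  refine ⟨x, hx, x', ?_⟩
  by_cases h4 : x ≠ x' ∧ ¬ H.Adj x x' ∧ x' ∈ W
  · exact ⟨h4.2.2, h4.1, h4.2.1, α, inferInstance, inferInstance, H, W, x, x', hS, hx, h4.2.2,
      h4.1, h4.2.1, LI.refl, LI.refl, rfl⟩
  · exfalso
    apply h4
    refine ⟨?_, ?_, ?_⟩
    · first | exact h1 | exact h2 | exact h3 | exact Ne.symm h1 | exact Ne.symm h2 | exact Ne.symm h3
    · first | exact h1 | exact h2 | exact h3 | exact fun h => h1 h.symm | exact fun h => h2 h.symm | exact fun h => h3 h.symm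
    · first | exact h1 | exact h2 | exact h3

end

end Pool.Agent.D0H80.CD
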