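import Pool.Agent.D0H80.CD.Ops

set_option autoImplicit false
set_option linter.unusedSectionVars false
set_option linter.unusedVariables false

/-! # Suspensions and the sums over the links of the faces of a given size -/

namespace Pool.Agent.D0H80.CD

open Pool.Agent.W497.FS

/-- the sum of the Charney-Davis quantities of the links of the faces with `j` elements -/
noncomputable def Om {α : Type} (H : SimpleGraph α) (W : Finset α) (j : ℕ) : ℚ :=
  ∑ F ∈ cl H W, if F.card = j then lam H (lkF H W F) else 0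

section

variable {α : Type} [LinearOrder α] [Fintype α] {H : SimpleGraph α}

theorem Om_zero (W : Finset α) : Om H W 0 = lam H W := by
  rw [Om, Finset.sum_eq_single ∅]
  · rw [if_pos Finset.card_empty]
    congr 1
    ext x; rw [mem_lkF]; simp
  · intro F _ hne
    rw [if_neg (fun h => hne (Finset.card_eq_zero.1 h))]
  · intro h; exact absurd empty_mem_cl h

/-- sums over the faces containing a vertex -/
theorem sum_mem {V : Finset α} {a : α} (ha : a ∈ V) (g : Finset α → ℚ) :
    ∑ F ∈ (cl H V).filter (fun F => a ∈ F), g F = ∑ G ∈ cl H (lk H V a), g (insert a G) := by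
  have key : ∀ G ∈ cl H (lk H V a), a ∉ G ∧ insert a G ∈ cl H V := by
    intro G hG
    rw [mem_cl] at hG
    have hn : a ∉ G := fun h => not_mem_lk_self (hG.1 h)
    refine ⟨hn, mem_cl.2 ⟨?_, ?_⟩⟩
    · intro x hx
      rcases Finset.mem_insert.1 hx with h | h
      · rw [h]; exact ha
      · exact lk_subset (hG.1 h)
    · intro x hx y hy hxy
      rcases Finset.mem_insert.1 hx with h | h <;> rcases Finset.mem_insert.1 hy with h' | h'
      · exact absurd (h.trans h'.symm) hxy
      · rw [h]; exact (mem_lk.1 (hG.1 h')).2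
      · rw [h']; exact (mem_lk.1 (hG.1 h)).2.symm
      · exact hG.2 x h y h' hxy
  refine Finset.sum_bij' (fun F _ => F.erase a) (fun G _ => insert a G) ?_ ?_ ?_ ?_ ?_
  · intro F hF
    obtain ⟨h1, h2⟩ := Finset.mem_filter.1 hF
    rw [mem_cl] at h1 ⊢
    exact ⟨fun x hx => mem_lk.2 ⟨h1.1 (Finset.mem_of_mem_erase hx),
      h1.2 a h2 x (Finset.mem_of_mem_erase hx) (Finset.ne_of_mem_erase hx).symm⟩,
      fun x hx y hy hxy => h1.2 x (Finset.mem_of_mem_erase hx) y (Finset.mem_of_mem_erase hy) hxy⟩
  · intro G hG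
    exact Finset.mem_filter.2 ⟨(key G hG).2, Finset.mem_insert_self _ _⟩
  · intro F hF
    exact Finset.insert_erase (Finset.mem_filter.1 hF).2
  · intro G hG
    exact Finset.erase_insert (key G hG).1
  · intro F hF
    rw [Finset.insert_erase (Finset.mem_filter.1 hF).2]

theorem cl_filter_notMem {V : Finset α} {a : α} :
    (cl H V).filter (fun F => ¬ a ∈ F) = cl H (V.erase a) := by
  ext F
  rw [Finset.mem_filter, mem_cl, mem_cl]
  constructor
  · rintro ⟨⟨h1, h2⟩, h3⟩
    exact ⟨fun x hx => Finset.mem_erase.2 ⟨fun h => h3 (h ▸ hx), h1 hx⟩, h2⟩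
  · rintro ⟨h1, h2⟩
    exact ⟨⟨h1.trans (Finset.erase_subset _ _), h2⟩, fun h => (Finset.mem_erase.1 (h1 h)).1 rfl⟩

theorem sum_split {V : Finset α} {a : α} (ha : a ∈ V) (g : Finset α → ℚ) :
    ∑ F ∈ cl H V, g F = ∑ G ∈ cl H (lk H V a), g (insert a G) + ∑ F ∈ cl H (V.erase a), g F := by
  rw [← Finset.sum_filter_add_sum_filter_not (cl H V) (fun F => a ∈ F), sum_mem ha,
    cl_filter_notMem]

/-- the suspension -/
theorem Om_susp {W : Finset α} {a b : α} (hab : a ≠ b) (hn : ¬ H.Adj a b)
    (hf : Full H W {a, b}) (j : ℕ) : Om H (W ∪ {a, b}) (j + 1) = 2 * Om H W j := by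
  have haV : a ∈ W ∪ {a, b} := Finset.mem_union_right _ (Finset.mem_insert_self _ _)
  have hd := hf.disjoint
  have haW : a ∉ W := fun h => Finset.disjoint_left.1 hd h (Finset.mem_insert_self _ _)
  have hbW : b ∉ W := fun h => Finset.disjoint_left.1 hd h
    (Finset.mem_insert_of_mem (Finset.mem_singleton_self _))
  have hWa : ∀ x ∈ W, H.Adj x a := fun x hx => hf x hx a (Finset.mem_insert_self _ _)
  have hWb : ∀ x ∈ W, H.Adj x b := fun x hx => hf x hx b
    (Finset.mem_insert_of_mem (Finset.mem_singleton_self _))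
  have e1 : lk H (W ∪ {a, b}) a = W := by
    ext x
    rw [mem_lk, Finset.mem_union, Finset.mem_insert, Finset.mem_singleton]
    constructor
    · rintro ⟨h | h | h, h'⟩
      · exact h
      · rw [h] at h'; exact absurd h' H.irrefl
      · rw [h] at h'; exact absurd h' hn
    · intro h
      exact ⟨Or.inl h, (hWa x h).symm⟩
  have e2 : (W ∪ {a, b}).erase a = insert b W := by
    ext x
    rw [Finset.mem_erase, Finset.mem_union, Finset.mem_insert, Finset.mem_singleton,
      Finset.mem_insert]
    constructor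
    · rintro ⟨h1, h | h | h⟩
      · exact Or.inr h
      · exact absurd h h1
      · exact Or.inl h
    · rintro (h | h)
      · exact ⟨h ▸ hab.symm, Or.inr (Or.inr h)⟩
      · exact ⟨fun h' => haW (h' ▸ h), Or.inl h⟩
  have e3 : lk H (insert b W) b = W := by
    ext x
    rw [mem_lk, Finset.mem_insert]
    constructor
    · rintro ⟨h | h, h'⟩
      · rw [h] at h'; exact absurd h' H.irrefl
      · exact h
    · intro h
      exact ⟨Or.inr h, (hWb x h).symm⟩
  have e4 : (insert b W).erase b = W := Finset.erase_insert hbW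
  have l1 : ∀ c, (c = a ∨ c = b) → ∀ G ∈ cl H W, lkF H (W ∪ {a, b}) (insert c G) = lkF H W G := by
    intro c hc G hG
    ext x
    rw [mem_lkF, mem_lkF, Finset.mem_union, Finset.mem_insert, Finset.mem_singleton]
    constructor
    · rintro ⟨h1, h2⟩
      have h3 := h2 c (Finset.mem_insert_self _ _)
      refine ⟨?_, fun y hy => h2 y (Finset.mem_insert_of_mem hy)⟩
      rcases h1 with h | h | h
      · exact h
      · rw [h] at h3
        rcases hc with rfl | rfl
        · exact absurd h3 H.irrefl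
        · exact absurd h3.symm hn
      · rw [h] at h3
        rcases hc with rfl | rfl
        · exact absurd h3 hn
        · exact absurd h3 H.irrefl
    · rintro ⟨h1, h2⟩
      refine ⟨Or.inl h1, fun y hy => ?_⟩
      rcases Finset.mem_insert.1 hy with h | h
      · rw [h]
        rcases hc with rfl | rfl
        · exact (hWa x h1).symm
        · exact (hWb x h1).symm
      · exact h2 y h
  have l2 : ∀ G ∈ cl H W, lam H (lkF H (W ∪ {a, b}) G) = 0 := by
    intro G hG
    have e5 : lkF H (W ∪ {a, b}) G = lkF H W G ∪ {a, b} := by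
      ext x
      rw [mem_lkF, Finset.mem_union, Finset.mem_union, mem_lkF]
      constructor
      · rintro ⟨h | h, h2⟩
        · exact Or.inl ⟨h, h2⟩
        · exact Or.inr h
      · rintro (⟨h, h2⟩ | h)
        · exact ⟨Or.inl h, h2⟩
        · exact ⟨Or.inr h, fun y hy => hf y ((mem_cl.1 hG).1 hy) x h⟩
    rw [e5, lam_join (hf.mono (fun x hx => (mem_lkF.1 hx).1) (Finset.Subset.refl _)),
      lam_pair hab hn, mul_zero]
  rw [Om, sum_split haV, e1, e2, sum_split (Finset.mem_insert_self b W), e3, e4]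
  have s1 : ∀ c, (c = a ∨ c = b) → ∑ G ∈ cl H W, (if (insert c G).card = j + 1 then
      lam H (lkF H (W ∪ {a, b}) (insert c G)) else 0) = Om H W j := by
    intro c hc
    rw [Om]
    refine Finset.sum_congr rfl (fun G hG => ?_)
    have hcG : c ∉ G := by
      intro h
      have := (mem_cl.1 hG).1 h
      rcases hc with rfl | rfl
      · exact haW this
      · exact hbW this
    rw [Finset.card_insert_of_notMem hcG, l1 c hc G hG]
    by_cases h : G.card = j
    · rw [if_pos h, if_pos (by omega)]
    · rw [if_neg h, if_neg (by omega)]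
  have s2 : ∑ G ∈ cl H W, (if G.card = j + 1 then lam H (lkF H (W ∪ {a, b}) G) else 0) = 0 := by
    refine Finset.sum_eq_zero (fun G hG => ?_)
    rw [l2 G hG, ite_self]
  rw [s1 a (Or.inl rfl), s1 b (Or.inr rfl), s2]
  ring

theorem Om_susp' {U V T : Finset α} {a b : α} (hab : a ≠ b) (hn : ¬ H.Adj a b)
    (hf : Full H U V) (hV : ∀ x, x ∈ V ↔ x = a ∨ x = b) (hT : ∀ x, x ∈ T ↔ x ∈ U ∨ x ∈ V) (j : ℕ) :
    Om H T (j + 1) = 2 * Om H U j := by
  obtain rfl : V = {a, b} := by
    ext x
    rw [hV, Finset.mem_insert, Finset.mem_singleton]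
  obtain rfl : T = U ∪ {a, b} := by
    ext x
    rw [hT, Finset.mem_union]
  exact Om_susp hab hn hf j

end

section

variable {α β : Type} [LinearOrder α] [Fintype α] [LinearOrder β] [Fintype β]
  {f : α ↪o β} {H : SimpleGraph α} {K : SimpleGraph β} {W : Finset α}

theorem Om_map (h : Cmp f H K W) (j : ℕ) : Om K (W.map f.toEmbedding) j = Om H W j := by
  rw [Om, Om]
  symm
  refine Finset.sum_bij (fun A _ => A.map f.toEmbedding) ?_ ?_ ?_ ?_
  · intro A hA
    exact (mem_cl_map h).2 hA
  · intro A _ B _ hAB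
    exact Finset.map_injective _ hAB
  · intro B hB
    obtain ⟨A, hA, hBA⟩ := exists_of_mem_cl_map h hB
    exact ⟨A, hA, hBA.symm⟩
  · intro A hA
    rw [Finset.card_map, lkF_map h (mem_cl.1 hA).1, lam_map (h.mono lkF_subset)]

end

section

variable {ι : Type} {k : ι → Type} [∀ i, Field (k i)]

theorem Sp_pair : Sp k (⊥ : SimpleGraph (Fin 2)) 1 {0, 1} := by
  have h1 : (0 : Fin 2) ≠ 1 := by decide
  have h2 : ¬ (⊥ : SimpleGraph (Fin 2)).Adj 0 1 := fun h => h
  exact ⟨NP_pair h1 h2, fun i => HS_pair h1 h2⟩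

/-- there is a flag homology sphere of rank `d` with at most `v` vertices such that the sum of the
Charney-Davis quantities of the links of the faces of size `j` is `l` -/
def Rj (k : ι → Type) [∀ i, Field (k i)] (d j : ℕ) (l : ℚ) (v : ℕ) : Prop :=
  ∃ (α : Type) (_ : LinearOrder α) (_ : Fintype α) (H : SimpleGraph α) (W : Finset α),
    Sp k H d W ∧ Om H W j = l ∧ W.card ≤ v

theorem Rj.susp {d j : ℕ} {l : ℚ} {v : ℕ} (h : Rj k d j l v) :
    Rj k (d + 1) (j + 1) (2 * l) (v + 2) := by
  obtain ⟨α, _, _, H, W, hS, hl, hv⟩ := h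
  obtain ⟨f, g, c1, c2, hfull, hSp⟩ := join_exists hS (Sp_pair (k := k))
  have e1 : ∀ x, x ∈ ({0, 1} : Finset (Fin 2)).map g.toEmbedding ↔ x = g 0 ∨ x = g 1 := by
    intro x
    rw [Finset.mem_map]
    constructor
    · rintro ⟨i, hi, rfl⟩
      rcases Finset.mem_insert.1 hi with h | h
      · left; rw [h]; rfl
      · right; rw [Finset.mem_singleton.1 h]; rfl
    · rintro (rfl | rfl)
      · exact ⟨0, Finset.mem_insert_self _ _, rfl⟩
      · exact ⟨1, Finset.mem_insert_of_mem (Finset.mem_singleton_self _), rfl⟩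
  have hne : g 0 ≠ g 1 := fun h => absurd (g.injective h) (by decide)
  have hn : ¬ (joinG H (⊥ : SimpleGraph (Fin 2))).Adj (g 0) (g 1) := by
    intro h
    have := (c2 0 (Finset.mem_insert_self _ _) 1
      (Finset.mem_insert_of_mem (Finset.mem_singleton_self _))).2 h
    exact this
  refine ⟨_, inferInstance, inferInstance, _, _, hSp, ?_, ?_⟩
  · rw [Om_susp' hne hn hfull e1 (fun x => Finset.mem_union), Om_map c1, hl]
  · refine (Finset.card_union_le _ _).trans ?_
    rw [Finset.card_map, Finset.card_map]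
    have : ({0, 1} : Finset (Fin 2)).card = 2 := by decide
    omega

theorem Rz.rj {d : ℕ} {l : ℚ} {v : ℕ} (h : Rz k d l v) (j : ℕ) :
    Rj k (d + j) j (2 ^ j * l) (v + 2 * j) := by
  induction j with
  | zero =>
    obtain ⟨α, i1, i2, H, W, hS, hl, hv⟩ := h
    refine ⟨α, i1, i2, H, W, hS, ?_, by simpa using hv⟩
    rw [Om_zero, hl, pow_zero, one_mul]
  | succ j ih =>
    have h1 := ih.susp
    rw [pow_succ', mul_assoc]
    exact h1

/-- the sphere on the vertices `0, ..., n - 1` -/
theorem Rj.fin {d j : ℕ} {l : ℚ} {v : ℕ} (h : Rj k d j l v) :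
    ∃ (n : ℕ) (T : Finset (Finset (Fin n))), (∀ i, IsFlagSphere (k i) d T) ∧
      (∑ F ∈ T.filter (fun F => F.card = j), omega (T.filter (fun G => Disjoint G F ∧ G ∪ F ∈ T)))
        = l ∧ ((T.filter (fun G => G.card = 1)).card ≤ v) := by
  obtain ⟨α, _, _, H, W, hS, hl, hv⟩ := h
  let e : Fin (Fintype.card α) ≃o α := Fintype.orderIsoFinOfCardEq α rfl
  let f : α ↪o Fin (Fintype.card α) := e.symm.toOrderEmbedding
  let K : SimpleGraph (Fin (Fintype.card α)) := SimpleGraph.comap (fun i => e i) H
  have hc : Cmp f H K W := by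
    intro a _ b _
    change H.Adj a b ↔ H.Adj (e (e.symm a)) (e (e.symm b))
    rw [OrderIso.apply_symm_apply, OrderIso.apply_symm_apply]
  have hN := NP_map hc hS.np
  refine ⟨_, cl K (W.map f.toEmbedding), fun i => isFlagSphere_of hN (HS_map hc (hS.hs i)), ?_, ?_⟩
  · rw [← hl, ← Om_map hc, Om, Finset.sum_filter]
    refine Finset.sum_congr rfl (fun F hF => ?_)
    by_cases hj : F.card = j
    · rw [if_pos hj, if_pos hj]
      have hL : (cl K (W.map f.toEmbedding)).filter
          (fun G => Disjoint G F ∧ G ∪ F ∈ cl K (W.map f.toEmbedding)) =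
          cl K (lkF K (W.map f.toEmbedding) F) := by
        ext A
        rw [Finset.mem_filter, Pool.Agent.W216.FS.HR.cl_lkF hF]
      rw [hL, omega, lam, fe]
      refine Finset.sum_congr rfl (fun σ _ => ?_)
      rw [div_pow]
    · rw [if_neg hj, if_neg hj]
  · have : ((cl K (W.map f.toEmbedding)).filter (fun G => G.card = 1)).card =
        (W.map f.toEmbedding).card := by
      symm
      refine Finset.card_bij (fun a _ => {a}) ?_ ?_ ?_
      · intro a ha
        exact Finset.mem_filter.2 ⟨singleton_mem_cl ha, Finset.card_singleton a⟩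
      · intro a _ b _ hab
        exact Finset.singleton_injective hab
      · intro G hG
        obtain ⟨h1, h2⟩ := Finset.mem_filter.1 hG
        obtain ⟨a, rfl⟩ := Finset.card_eq_one.1 h2
        exact ⟨a, (mem_cl.1 h1).1 (Finset.mem_singleton_self a), rfl⟩
    rw [this, Finset.card_map]
    exact hv

end

end Pool.Agent.D0H80.CD
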