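import Pool.Agent.D0H80.CD.Homol
import Pool.Agent.W216.FS.HR

set_option autoImplicit false
set_option linter.unusedSectionVars false
set_option linter.unusedVariables false

/-! # Copies of complexes along monotone embeddings; from exactness to ranks -/

namespace Pool.Agent.D0H80.CD

open Pool.Agent.W497.FS

section Transport

variable {k : Type} [Field k] {α β : Type} [LinearOrder α] [Fintype α] [LinearOrder β] [Fintype β]
  (f : α ↪o β) {H : SimpleGraph α} {K : SimpleGraph β} {W X : Finset α}

/-- the graphs correspond on `W` -/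
def Cmp (f : α ↪o β) (H : SimpleGraph α) (K : SimpleGraph β) (W : Finset α) : Prop :=
  ∀ a ∈ W, ∀ b ∈ W, H.Adj a b ↔ K.Adj (f a) (f b)

variable {f}

theorem Cmp.mono (h : Cmp f H K W) (hX : X ⊆ W) : Cmp f H K X :=
  fun a ha b hb => h a (hX ha) b (hX hb)

theorem mem_cl_map (h : Cmp f H K X) {A : Finset α} :
    A.map f.toEmbedding ∈ cl K (X.map f.toEmbedding) ↔ A ∈ cl H X := by
  rw [mem_cl, mem_cl, Finset.map_subset_map]
  constructor
  · rintro ⟨h1, h2⟩
    refine ⟨h1, fun x hx y hy hxy => (h x (h1 hx) y (h1 hy)).2 ?_⟩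
    exact h2 (f x) (Finset.mem_map_of_mem _ hx) (f y) (Finset.mem_map_of_mem _ hy)
      (fun he => hxy (f.injective he))
  · rintro ⟨h1, h2⟩
    refine ⟨h1, fun x hx y hy hxy => ?_⟩
    obtain ⟨a, ha, rfl⟩ := Finset.mem_map.1 hx
    obtain ⟨b, hb, rfl⟩ := Finset.mem_map.1 hy
    exact (h a (h1 ha) b (h1 hb)).1 (h2 a ha b hb (fun he => hxy (by rw [he])))

theorem exists_of_mem_cl_map (h : Cmp f H K X) {B : Finset β}
    (hB : B ∈ cl K (X.map f.toEmbedding)) : ∃ A ∈ cl H X, B = A.map f.toEmbedding := by
  obtain ⟨A, hA, hBA⟩ := Finset.subset_map_iff.1 (mem_cl.1 hB).1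
  refine ⟨A, ?_, hBA⟩
  rw [hBA] at hB
  exact (mem_cl_map h).1 hB

theorem lk_map (h : Cmp f H K W) (hX : X ⊆ W) {v : α} (hv : v ∈ W) :
    lk K (X.map f.toEmbedding) (f v) = (lk H X v).map f.toEmbedding := by
  ext y
  rw [mem_lk, Finset.mem_map, Finset.mem_map]
  constructor
  · rintro ⟨⟨x, hx, rfl⟩, h2⟩
    exact ⟨x, mem_lk.2 ⟨hx, (h v hv x (hX hx)).2 h2⟩, rfl⟩
  · rintro ⟨x, hx, rfl⟩
    rw [mem_lk] at hx
    exact ⟨⟨x, hx.1, rfl⟩, (h v hv x (hX hx.1)).1 hx.2⟩

theorem lkF_map (h : Cmp f H K W) {κ : Finset α} (hκ : κ ⊆ W) :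
    lkF K (W.map f.toEmbedding) (κ.map f.toEmbedding) = (lkF H W κ).map f.toEmbedding := by
  ext y
  rw [mem_lkF, Finset.mem_map, Finset.mem_map]
  constructor
  · rintro ⟨⟨x, hx, rfl⟩, h2⟩
    exact ⟨x, mem_lkF.2 ⟨hx, fun z hz => (h z (hκ hz) x hx).2
      (h2 (f z) (Finset.mem_map_of_mem _ hz))⟩, rfl⟩
  · rintro ⟨x, hx, rfl⟩
    rw [mem_lkF] at hx
    refine ⟨⟨x, hx.1, rfl⟩, fun z hz => ?_⟩
    obtain ⟨a, ha, rfl⟩ := Finset.mem_map.1 hz
    exact (h a (hκ ha) x hx.1).1 (hx.2 a ha)

/-- pulling back a chain -/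
def pull (f : α ↪o β) (c : Finset β → k) : Finset α → k := fun A => c (A.map f.toEmbedding)

/-- pushing a chain forward -/
noncomputable def push (f : α ↪o β) (b : Finset α → k) : Finset β → k :=
  fun B => ∑ A : Finset α, if A.map f.toEmbedding = B then b A else 0

theorem push_map (b : Finset α → k) (A : Finset α) : push f b (A.map f.toEmbedding) = b A := by
  rw [push, Finset.sum_eq_single A]
  · rw [if_pos rfl]
  · intro B _ hne
    rw [if_neg (fun h => hne (Finset.map_injective _ h))]
  · intro h; exact absurd (Finset.mem_univ _) h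

theorem push_of_ne (b : Finset α → k) {B : Finset β} (h : ¬ ∃ A : Finset α, B = A.map f.toEmbedding) :
    push f b B = 0 := by
  rw [push]
  refine Finset.sum_eq_zero (fun A _ => if_neg (fun h' => h ⟨A, h'.symm⟩))

theorem sg_map (v : α) (A : Finset α) : sg k (f v) (A.map f.toEmbedding) = sg k v A := by
  rw [sg, sg, Finset.filter_map, Finset.card_map]
  congr 2
  refine Finset.filter_congr (fun x _ => ?_)
  simp

theorem pull_bd {c : Finset β → k} (hc : ∀ B, c B ≠ 0 → ∃ A : Finset α, B = A.map f.toEmbedding)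
    (A : Finset α) : bd (pull f c) A = bd c (A.map f.toEmbedding) := by
  rw [bd, bd]
  have h1 : ∑ u ∈ (A.map f.toEmbedding)ᶜ, sg k u (A.map f.toEmbedding) *
      c (insert u (A.map f.toEmbedding)) = ∑ u ∈ (Aᶜ).map f.toEmbedding,
        sg k u (A.map f.toEmbedding) * c (insert u (A.map f.toEmbedding)) := by
    symm
    refine Finset.sum_subset ?_ ?_
    · intro u hu
      obtain ⟨x, hx, rfl⟩ := Finset.mem_map.1 hu
      rw [Finset.mem_compl] at hx ⊢
      exact fun h => hx ((Finset.mem_map' _).1 h)
    · intro u hu hu'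
      rw [Finset.mem_compl] at hu
      by_contra hne
      obtain ⟨B, hB⟩ := hc _ (fun h => hne (by rw [h, mul_zero]))
      have : u ∈ B.map f.toEmbedding := by rw [← hB]; exact Finset.mem_insert_self _ _
      obtain ⟨x, hx, rfl⟩ := Finset.mem_map.1 this
      apply hu'
      refine Finset.mem_map_of_mem _ (Finset.mem_compl.2 (fun h => hu (Finset.mem_map_of_mem _ h)))
  rw [h1, Finset.sum_map]
  refine Finset.sum_congr rfl (fun v _ => ?_)
  have e1 : sg k (f.toEmbedding v) (A.map f.toEmbedding) = sg k v A := sg_map v A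
  rw [e1, pull, Finset.map_insert]

theorem pull_push (b : Finset α → k) : pull f (push f b) = b := by
  funext A; exact push_map b A

theorem push_supp (b : Finset α → k) (B : Finset β) (h : push f b B ≠ 0) :
    ∃ A : Finset α, B = A.map f.toEmbedding := by
  by_contra hcon
  exact h (push_of_ne b hcon)

theorem bd_push (b : Finset α → k) : bd (push f b) = push f (bd b) := by
  funext B
  by_cases h : ∃ A : Finset α, B = A.map f.toEmbedding
  · obtain ⟨A, rfl⟩ := h
    rw [push_map, ← pull_bd (push_supp b), pull_push]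
  · rw [push_of_ne _ h, bd]
    refine Finset.sum_eq_zero (fun u _ => ?_)
    rw [push_of_ne, mul_zero]
    rintro ⟨A, hA⟩
    apply h
    have : B ⊆ A.map f.toEmbedding := by rw [← hA]; exact Finset.subset_insert _ _
    obtain ⟨A', -, hA'⟩ := Finset.subset_map_iff.1 this
    exact ⟨A', hA'⟩

theorem push_pull {c : Finset β → k}
    (hc : ∀ B, c B ≠ 0 → ∃ A : Finset α, B = A.map f.toEmbedding) : push f (pull f c) = c := by
  funext B
  by_cases h : ∃ A : Finset α, B = A.map f.toEmbedding
  · obtain ⟨A, rfl⟩ := h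
    rw [push_map]; rfl
  · rw [push_of_ne _ h]
    by_contra hne
    exact h (hc B (Ne.symm hne))

theorem on_supp (h : Cmp f H K X) {j : ℕ} {c : Finset β → k}
    (hc : On K (X.map f.toEmbedding) j c) (B : Finset β) (hB : c B ≠ 0) :
    ∃ A : Finset α, B = A.map f.toEmbedding := by
  obtain ⟨A, -, hA⟩ := exists_of_mem_cl_map h (hc B hB).1
  exact ⟨A, hA⟩

theorem on_pull (h : Cmp f H K X) {j : ℕ} {c : Finset β → k}
    (hc : On K (X.map f.toEmbedding) j c) : On H X j (pull f c) := by
  intro A hA
  obtain ⟨h1, h2⟩ := hc _ hA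
  rw [Finset.card_map] at h2
  exact ⟨(mem_cl_map h).1 h1, h2⟩

theorem on_push (h : Cmp f H K X) {j : ℕ} {b : Finset α → k} (hb : On H X j b) :
    On K (X.map f.toEmbedding) j (push f b) := by
  intro B hB
  obtain ⟨A, rfl⟩ := push_supp b B hB
  rw [push_map] at hB
  obtain ⟨h1, h2⟩ := hb A hB
  exact ⟨(mem_cl_map h).2 h1, by rw [Finset.card_map, h2]⟩

theorem push_zero : push f (0 : Finset α → k) = 0 := by
  funext B
  rw [push]
  simp

theorem Ex_map (h : Cmp f H K X) {j : ℕ} (hE : Ex k H X j) : Ex k K (X.map f.toEmbedding) j := by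
  intro c hc h0
  have hs := on_supp h hc
  obtain ⟨b, hb, hbb⟩ := hE (pull f c) (on_pull h hc) (by
    funext A
    rw [pull_bd hs, h0]; rfl)
  exact ⟨push f b, on_push h hb, by rw [bd_push, hbb, push_pull hs]⟩

theorem HS_map {d : ℕ} (h : Cmp f H K W) (hS : HS k H d W) : HS k K d (W.map f.toEmbedding) := by
  constructor
  · intro κ hκ j hj
    obtain ⟨κ', hκ', rfl⟩ := exists_of_mem_cl_map h hκ
    rw [Finset.card_map] at hj
    rw [lkF_map h (mem_cl.1 hκ').1]
    exact Ex_map (h.mono lkF_subset) (hS.ex κ' hκ' j hj)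
  · intro κ hκ
    obtain ⟨κ', hκ', rfl⟩ := exists_of_mem_cl_map h hκ
    rw [Finset.card_map, lkF_map h (mem_cl.1 hκ').1]
    obtain ⟨z, hz, hz0, hne⟩ := hS.top κ' hκ'
    refine ⟨push f z, on_push (h.mono lkF_subset) hz, by rw [bd_push, hz0, push_zero], ?_⟩
    intro hcon
    apply hne
    rw [← pull_push (f := f) z, hcon]
    rfl

theorem NP_map {d : ℕ} (h : Cmp f H K W) (hN : NP H d W) : NP K d (W.map f.toEmbedding) := by
  induction d generalizing W with
  | zero =>
    have h0 : W = ∅ := hN
    rw [h0]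
    exact Finset.map_empty _
  | succ d ih =>
    rcases d with _ | d
    · have h' : W.card = 2 ∧ ∀ x ∈ W, ∀ y ∈ W, ¬ H.Adj x y := hN
      refine ⟨by rw [Finset.card_map]; exact h'.1, fun x hx y hy hxy => ?_⟩
      obtain ⟨a, ha, rfl⟩ := Finset.mem_map.1 hx
      obtain ⟨b, hb, rfl⟩ := Finset.mem_map.1 hy
      exact h'.2 a ha b hb ((h a ha b hb).2 hxy)
    · refine ⟨hN.nonempty.map, fun A hA hne hneq => ?_, fun v hv => ?_⟩
      · obtain ⟨A', hA', rfl⟩ := Finset.subset_map_iff.1 hA
        obtain ⟨a, ha, b, hb, hbA, hab⟩ := hN.2.1 A' hA' (Finset.map_nonempty.1 hne)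
          (fun he => hneq (by rw [he]))
        exact ⟨f a, Finset.mem_map_of_mem _ ha, f b, Finset.mem_map_of_mem _ hb,
          fun hm => hbA ((Finset.mem_map' _).1 hm), (h a (hA' ha) b hb).1 hab⟩
      · obtain ⟨x, hx, rfl⟩ := Finset.mem_map.1 hv
        have e1 : lk K (W.map f.toEmbedding) (f.toEmbedding x) = (lk H W x).map f.toEmbedding :=
          lk_map h (Finset.Subset.refl _) hx
        rw [e1]
        exact ih (h.mono lk_subset) (hN.lk hx)

theorem fe_map {R : Type*} [CommRing R] (h : Cmp f H K W) (x : R) :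
    fe K (W.map f.toEmbedding) x = fe H W x := by
  rw [fe, fe]
  symm
  refine Finset.sum_bij (fun A _ => A.map f.toEmbedding) ?_ ?_ ?_ ?_
  · intro A hA
    exact (mem_cl_map h).2 hA
  · intro A _ B _ hAB
    exact Finset.map_injective _ hAB
  · intro B hB
    obtain ⟨A, hA, hBA⟩ := exists_of_mem_cl_map h hB
    exact ⟨A, hA, hBA.symm⟩
  · intro A _
    rw [Finset.card_map]

theorem lam_map (h : Cmp f H K W) : lam K (W.map f.toEmbedding) = lam H W := fe_map h _

end Transport

/-! ### From exactness to ranks -/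

open Pool.Agent.W216.FS.HR in
theorem isFlagSphere_of {k : Type} [Field k] {n d : ℕ} {H : SimpleGraph (Fin n)}
    {W : Finset (Fin n)} (hN : NP H d W) (hS : HS k H d W) : IsFlagSphere k d (cl H W) := by
  classical
  refine ⟨fun L j => Matrix.rank (MM k L (j - 1) j), fun F hF G hG => cl_of_subset hF hG, ?_,
    fun L j => rfl, ?_⟩
  · intro F hF
    rw [mem_cl]
    refine ⟨fun x hx => ?_, fun x hx y hy hxy => ?_⟩
    · have := hF x hx x hx
      exact (mem_cl.1 this).1 (Finset.mem_insert_self _ _)
    · have := hF x hx y hy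
      exact (mem_cl.1 this).2 x (Finset.mem_insert_self _ _) y
        (Finset.mem_insert_of_mem (Finset.mem_singleton_self _)) hxy
  · intro F hF j
    have hL : (cl H W).filter (fun G => Disjoint G F ∧ G ∪ F ∈ cl H W) = cl H (lkF H W F) := by
      ext A
      rw [Finset.mem_filter, cl_lkF hF]
    rw [hL]
    set X := lkF H W F with hX
    set L := cl H X with hLdef
    have hFd : F.card ≤ d := hN.card_le hF
    have hNX : NP H (d - F.card) X := by
      obtain ⟨e, he, hNe, -⟩ := hN.lkF hF
      have e0 : d - F.card = e := by omega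
      rw [e0]; exact hNe
    beta_reduce
    have hdown : ∀ B ∈ L, ∀ A, A ⊆ B → A ∈ L := fun B hB A hAB => cl_of_subset hB hAB
    have hr : ∀ j : ℕ, Matrix.rank (MM k L (j - 1) j) =
        Module.finrank k (LinearMap.range (MM k L (j - 1) j).mulVecLin) := fun j => rfl
    have hr' : Matrix.rank (MM k L (j + 1 - 1) (j + 1)) =
        Module.finrank k (LinearMap.range (MM k L j (j + 1)).mulVecLin) := rfl
    have hker : (Matrix.rank (MM k L (j - 1) j) : ℤ) +
        Module.finrank k (LinearMap.ker (MM k L (j - 1) j).mulVecLin) =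
        ((L.filter (fun G => G.card = j)).card : ℤ) := by
      rw [hr]
      have h1 := LinearMap.finrank_range_add_finrank_ker (MM k L (j - 1) j).mulVecLin
      rw [Module.finrank_fintype_fun_eq_card, Fintype.card_coe] at h1
      exact_mod_cast h1
    have hon : ∀ (i : ℕ)
        (x : {B : Finset (Fin n) // B ∈ L.filter (fun B => B.card = i)} → k),
        On H X i (ex0 L i x) := by
      intro i x A hA
      by_contra hcon
      apply hA
      apply ex0_of_notMem
      rw [Finset.mem_filter]
      exact hcon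
    have hon' : ∀ (i : ℕ) (c : Finset (Fin n) → k), On H X i c →
        ex0 L i (fun B => c B.1) = c := by
      intro i c hc
      funext A
      by_cases hA : A ∈ L.filter (fun B => B.card = i)
      · rw [ex0_of_mem _ hA]
      · rw [ex0_of_notMem _ hA]
        by_contra hne
        apply hA
        rw [Finset.mem_filter]
        exact hc A (Ne.symm hne)
    have hzero : ∀ (i : ℕ), ex0 (k := k) L i 0 = 0 := by
      intro i
      funext A
      by_cases hA : A ∈ L.filter (fun B => B.card = i)
      · rw [ex0_of_mem _ hA]; rfl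
      · rw [ex0_of_notMem _ hA]; rfl
    have hkermem : ∀ x : {B : Finset (Fin n) // B ∈ L.filter (fun B => B.card = j)} → k,
        x ∈ LinearMap.ker (MM k L (j - 1) j).mulVecLin ↔ bd (ex0 L j x) = 0 := by
      intro x
      rw [LinearMap.mem_ker, Matrix.mulVecLin_apply, ← ex0_mulVec L hdown (j - 1) j rfl x]
      constructor
      · intro h; rw [h, hzero]
      · intro h; exact ex0_inj (h.trans (hzero _).symm)
    have hrankzero : ∀ i : ℕ, d < i + F.card → Matrix.rank (MM k L (i - 1) i) = 0 := by
      intro i hi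
      have hemp : IsEmpty {B : Finset (Fin n) // B ∈ L.filter (fun B => B.card = i)} := by
        constructor
        rintro ⟨B, hB⟩
        obtain ⟨h1, h2⟩ := Finset.mem_filter.1 hB
        have := hNX.card_le h1
        omega
      have := Matrix.rank_le_card_width (MM k L (i - 1) i)
      rw [Fintype.card_eq_zero] at this
      exact Nat.le_zero.1 this
    rcases lt_trichotomy (j + F.card) d with hlt | heq | hgt
    · rw [if_neg (by omega)]
      have hE := hS.ex F hF j hlt
      have heq : LinearMap.ker (MM k L (j - 1) j).mulVecLin =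
          LinearMap.range (MM k L j (j + 1)).mulVecLin := by
        apply le_antisymm
        · intro x hx
          rw [hkermem] at hx
          obtain ⟨b, hb, hbb⟩ := hE _ (hon j x) hx
          refine ⟨fun B => b B.1, ?_⟩
          apply ex0_inj
          rw [Matrix.mulVecLin_apply, ex0_mulVec L hdown j (j + 1) (by omega), hon' (j + 1) b hb,
            hbb]
        · rintro _ ⟨y, rfl⟩
          rw [hkermem, Matrix.mulVecLin_apply, ex0_mulVec L hdown j (j + 1) (by omega), bd_bd]
      have h2 : Matrix.rank (MM k L (j + 1 - 1) (j + 1)) =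
          Module.finrank k (LinearMap.ker (MM k L (j - 1) j).mulVecLin) := by rw [hr', heq]
      rw [← hker, h2]
      ring
    · rw [if_pos heq, hrankzero (j + 1) (by omega), ← hker]
      obtain ⟨z, hz, hz0, hne⟩ := hS.top F hF
      have e1 : d - F.card = j := by omega
      rw [e1] at hz hNX
      obtain ⟨G, hG⟩ := Function.ne_iff.1 hne
      rw [Pi.zero_apply] at hG
      obtain ⟨hG1, hG2⟩ := hz G hG
      set z' : {B : Finset (Fin n) // B ∈ L.filter (fun B => B.card = j)} → k :=
        fun B => z B.1 with hz'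
      have hzk : z' ∈ LinearMap.ker (MM k L (j - 1) j).mulVecLin := by
        rw [hkermem, hz', hon' j z hz, hz0]
      have h1 : Module.finrank k (LinearMap.ker (MM k L (j - 1) j).mulVecLin) = 1 := by
        refine finrank_eq_one (⟨_, hzk⟩ : LinearMap.ker (MM k L (j - 1) j).mulVecLin) ?_ ?_
        · intro h
          have h2 := congrArg Subtype.val h
          have h3 := congrFun h2 ⟨G, Finset.mem_filter.2 ⟨hG1, hG2⟩⟩
          exact hG h3
        · rintro ⟨x, hx⟩
          rw [hkermem] at hx
          refine ⟨ex0 L j x G / z G, ?_⟩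
          apply Subtype.ext
          apply ex0_inj
          have h4 : ex0 L j ((ex0 L j x G / z G) • z') = (ex0 L j x G / z G) • z := by
            have h5 := hon' j ((ex0 L j x G / z G) • z) (hz.smul _)
            exact h5
          have h6 : (ex0 L j x G / z G) • z - ex0 L j x = 0 := by
            refine top_unique j hNX _ (On.sub (hz.smul _) (hon j x)) ?_ G hG1 hG2 ?_
            · rw [bd_sub, bd_smul, hz0, hx, smul_zero, sub_zero]
            · rw [Pi.sub_apply, Pi.smul_apply, smul_eq_mul, div_mul_cancel₀ _ hG, sub_self]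
          exact h4.trans (sub_eq_zero.1 h6)
      rw [h1]
      push_cast
      ring
    · rw [if_neg (by omega), hrankzero (j + 1) (by omega), hrankzero j (by omega)]
      have : L.filter (fun G => G.card = j) = ∅ := by
        rw [Finset.filter_eq_empty_iff]
        intro B hB hc
        have := hNX.card_le hB
        omega
      rw [this]
      simp

end Pool.Agent.D0H80.CD
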