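import Pool.Agent.D0H80.CD.Path

set_option autoImplicit false
set_option linter.unusedSectionVars false
set_option linter.unusedVariables false

/-! # Closed walks of pairwise non-adjacent consecutive vertices; thin tubes -/

namespace Pool.Agent.D0H80.CD

open Pool.Agent.W497.FS

/-! ### Walks -/

theorem exists_walk {V : Type} [Fintype V] (G : SimpleGraph V) (hc : ∀ x y, G.Reachable x y) :
    ∀ (l : List V) (x y : V), ∃ w : G.Walk x y, (∀ z ∈ l, z ∈ w.support) ∧
      w.length + (l.length + 1) ≤ (l.length + 1) * Fintype.card V := by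
  classical
  intro l
  induction l with
  | nil =>
    intro x y
    obtain ⟨w⟩ := hc x y
    refine ⟨w.bypass, fun z hz => absurd hz List.not_mem_nil, ?_⟩
    have := (w.bypass_isPath).length_lt
    simp only [List.length_nil, zero_add, one_mul]
    omega
  | cons z l ih =>
    intro x y
    obtain ⟨w⟩ := hc x z
    obtain ⟨w', h1, h2⟩ := ih z y
    have h3 := (w.bypass_isPath).length_lt
    refine ⟨w.bypass.append w', ?_, ?_⟩
    · intro u hu
      rw [SimpleGraph.Walk.mem_support_append_iff]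
      rcases List.mem_cons.1 hu with h | h
      · left
        rw [h]
        exact SimpleGraph.Walk.end_mem_support _
      · exact Or.inr (h1 u h)
    · rw [SimpleGraph.Walk.length_append, List.length_cons, Nat.succ_mul]
      omega

theorem exists_mod {p n : ℕ} (hn : n < p) (s : ℕ) : ∃ t, s ≤ t ∧ t < s + p ∧ t % p = n := by
  have h1 := Nat.div_add_mod s p
  have h2 := Nat.mod_lt s (show 0 < p by omega)
  set q := s / p with hq
  set r := s % p with hr
  rcases Nat.lt_or_ge n r with h | h
  · refine ⟨p * (q + 1) + n, ?_, ?_, ?_⟩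
    · rw [mul_add, mul_one]; omega
    · rw [mul_add, mul_one]; omega
    · rw [Nat.mul_add_mod, Nat.mod_eq_of_lt hn]
  · refine ⟨p * q + n, by omega, by omega, ?_⟩
    rw [Nat.mul_add_mod, Nat.mod_eq_of_lt hn]

/-- a periodic sequence along a closed walk -/
theorem exists_seq {V : Type} [Fintype V] (G : SimpleGraph V) (hc : ∀ x y, G.Reachable x y)
    (l : List V) (x z : V) (hz : z ∈ l) (hxz : x ≠ z) : ∃ (b : ℕ → V) (p : ℕ),
      (∀ t, G.Adj (b t) (b (t + 1))) ∧
      (∀ u, (u = x ∨ u ∈ l) → ∀ s, ∃ t, s ≤ t ∧ t < s + p ∧ b t = u) ∧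
      p + (l.length + 1) ≤ (l.length + 1) * Fintype.card V := by
  obtain ⟨w, h1, h2⟩ := exists_walk G hc l x x
  have hp : 0 < w.length := by
    rcases Nat.eq_zero_or_pos w.length with h | h
    · exfalso
      obtain ⟨n, hn1, hn2⟩ := SimpleGraph.Walk.mem_support_iff_exists_getVert.1 (h1 z hz)
      have h4 : n = 0 := by omega
      rw [h4, SimpleGraph.Walk.getVert_zero] at hn1
      exact hxz hn1
    · exact h
  refine ⟨fun t => w.getVert (t % w.length), w.length, ?_, ?_, h2⟩
  · intro t
    have h3 := Nat.mod_lt t hp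
    have h4 := w.adj_getVert_succ h3
    have h5 : w.getVert (t % w.length + 1) = w.getVert ((t + 1) % w.length) := by
      rcases Nat.lt_or_ge (t % w.length + 1) w.length with h | h
      · rw [Nat.add_mod t 1, Nat.mod_eq_of_lt (show 1 < w.length by omega), Nat.mod_eq_of_lt h]
      · have h6 : t % w.length + 1 = w.length := by omega
        have h7 : (t + 1) % w.length = 0 := by
          rw [← Nat.mod_add_mod, h6, Nat.mod_self]
        rw [h6, h7, SimpleGraph.Walk.getVert_length, SimpleGraph.Walk.getVert_zero]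
    change G.Adj (w.getVert (t % w.length)) (w.getVert ((t + 1) % w.length))
    rw [← h5]
    exact h4
  · intro u hu s
    have h3 : u ∈ w.support := by
      rcases hu with rfl | hu
      · exact SimpleGraph.Walk.start_mem_support _
      · exact h1 u hu
    obtain ⟨n, hn1, hn2⟩ := SimpleGraph.Walk.mem_support_iff_exists_getVert.1 h3
    obtain ⟨n', hn'1, hn'2⟩ : ∃ n', w.getVert n' = u ∧ n' < w.length := by
      rcases Nat.lt_or_ge n w.length with h | h
      · exact ⟨n, hn1, h⟩
      · have h4 : n = w.length := by omega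
        rw [h4, SimpleGraph.Walk.getVert_length] at hn1
        exact ⟨0, by rw [SimpleGraph.Walk.getVert_zero]; exact hn1, hp⟩
    obtain ⟨t, ht1, ht2, ht3⟩ := exists_mod hn'2 s
    refine ⟨t, ht1, ht2, ?_⟩
    change w.getVert (t % w.length) = u
    rw [ht3, hn'1]

section

variable {α : Type} [LinearOrder α] [Fintype α] {H : SimpleGraph α} {W : Finset α}

/-- non-adjacency in a prime complex is connected -/
theorem compl_reach (hP : Prm H W) (x y : ↥W) :
    ((SimpleGraph.comap (Subtype.val : ↥W → α) H)ᶜ).Reachable x y := by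
  classical
  by_contra hcon
  set Cc := (SimpleGraph.comap (Subtype.val : ↥W → α) H)ᶜ with hCc
  set A : Finset α := W.filter (fun z => ∃ h : z ∈ W, Cc.Reachable x ⟨z, h⟩) with hA
  have h1 : A ⊆ W := Finset.filter_subset _ _
  have h2 : A.Nonempty := ⟨x.1, Finset.mem_filter.2 ⟨x.2, x.2, SimpleGraph.Reachable.refl _⟩⟩
  have h3 : A ≠ W := by
    intro h
    have h' : y.1 ∈ A := by rw [h]; exact y.2
    obtain ⟨-, h4, h5⟩ := Finset.mem_filter.1 h'
    exact hcon h5
  obtain ⟨u, hu, v, hv, hvA, huv⟩ := hP.2 A h1 h2 h3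
  obtain ⟨huW, hu1, hu2⟩ := Finset.mem_filter.1 hu
  apply hvA
  refine Finset.mem_filter.2 ⟨hv, hv, hu2.trans (SimpleGraph.Adj.reachable ?_)⟩
  rw [hCc, SimpleGraph.compl_adj]
  refine ⟨fun h => hvA ?_, fun h => huv h⟩
  have h4 : u = v := congrArg Subtype.val h
  rw [← h4]; exact hu

/-- the sequence of the tube of a prime complex -/
theorem exists_path {d : ℕ} (hP : Prm H W) (hN : NP H (d + 2) W) : ∃ (a : ℕ → α) (P : ℕ),
    IsPath H a ∧ (∀ t, a t ∈ W) ∧
      (∀ u ∈ W, ∀ s, ∃ t, s ≤ t ∧ t < s + P ∧ ¬ H.Adj (a t) u) ∧ P + 1 ≤ (d + 2) * W.card := by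
  classical
  obtain ⟨σ, hσ, hσc, -⟩ := hN.exists_facet
  obtain ⟨hσW, hσcl⟩ := mem_cl.1 hσ
  obtain ⟨x, hx⟩ : σ.Nonempty := Finset.card_pos.1 (by omega)
  obtain ⟨z, hz⟩ : (σ.erase x).Nonempty := Finset.card_pos.1 (by
    rw [Finset.card_erase_of_mem hx]; omega)
  set l : List ↥W := (σ.erase x).attach.toList.map
    (fun y => (⟨y.1, hσW (Finset.mem_of_mem_erase y.2)⟩ : ↥W)) with hl
  have hmem : ∀ y : ↥W, y ∈ l ↔ y.1 ∈ σ.erase x := by
    intro y
    rw [hl, List.mem_map]
    constructor
    · rintro ⟨y', -, rfl⟩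
      exact y'.2
    · intro h
      exact ⟨⟨y.1, h⟩, by rw [Finset.mem_toList]; exact Finset.mem_attach _ _, rfl⟩
  have hlen : l.length = d + 1 := by
    rw [hl, List.length_map, Finset.length_toList, Finset.card_attach,
      Finset.card_erase_of_mem hx, hσc]
    rfl
  obtain ⟨hzx, hzσ⟩ := Finset.mem_erase.1 hz
  obtain ⟨b, p, h1, h2, h3⟩ := exists_seq ((SimpleGraph.comap (Subtype.val : ↥W → α) H)ᶜ)
    (compl_reach hP) l ⟨x, hσW hx⟩ ⟨z, hσW hzσ⟩ ((hmem _).2 hz)
    (fun h => hzx (congrArg Subtype.val h).symm)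
  rw [hlen, Fintype.card_coe] at h3
  refine ⟨fun t => (b t).1, p, ?_, fun t => (b t).2, ?_, ?_⟩
  · intro t
    have h4 := h1 t
    rw [SimpleGraph.compl_adj] at h4
    exact ⟨fun h => h4.1 (Subtype.ext h), fun h => h4.2 h⟩
  · intro u hu s
    -- an element of the facet which is not adjacent to `u`
    obtain ⟨y, hy, hyu⟩ : ∃ y ∈ σ, ¬ H.Adj y u := by
      by_contra hcon
      push Not at hcon
      have huσ : u ∉ σ := fun h => H.irrefl (hcon u h)
      have h5 : insert u σ ∈ cl H W := by
        refine mem_cl.2 ⟨fun y hy => ?_, fun y hy y' hy' hne => ?_⟩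
        · rcases Finset.mem_insert.1 hy with h | h
          · rw [h]; exact hu
          · exact hσW h
        · rcases Finset.mem_insert.1 hy with h | h <;> rcases Finset.mem_insert.1 hy' with h' | h'
          · exact absurd (h.trans h'.symm) hne
          · rw [h]; exact (hcon y' h').symm
          · rw [h']; exact hcon y h
          · exact hσcl y h y' h' hne
      have h6 := hN.card_le h5
      rw [Finset.card_insert_of_notMem huσ] at h6
      omega
    obtain ⟨t, ht1, ht2, ht3⟩ := h2 ⟨y, hσW hy⟩ (by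
      by_cases hyx : y = x
      · left; exact Subtype.ext hyx
      · right; exact (hmem _).2 (Finset.mem_erase.2 ⟨hyx, hy⟩)) s
    refine ⟨t, ht1, ht2, ?_⟩
    change ¬ H.Adj (b t).1 u
    rw [ht3]
    exact hyu
  · have : d + 1 + 1 = d + 2 := rfl
    rw [this] at h3
    omega

end

/-- the vertices of `T` can be numbered such that the numbers of adjacent vertices differ by at
most `D` -/
def Thin {N : ℕ} (D : ℕ) (T : Finset (Finset (Fin N))) : Prop :=
  ∃ b : Fin N → ℤ, (∀ x y, {x} ∈ T → {y} ∈ T → b x = b y → x = y) ∧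
    ∀ x y, {x, y} ∈ T → |b x - b y| ≤ D

section

variable {ι : Type} {k : ι → Type} [∀ i, Field (k i)]

/-- thin tubes -/
theorem exists_tube {α : Type} [LinearOrder α] [Fintype α] {H : SimpleGraph α} {W : Finset α}
    {d : ℕ} (hP : Prm H W) (hS : Sp k H (d + 2) W) (N : ℕ) :
    ∃ (n : ℕ) (T : Finset (Finset (Fin n))), (∀ i, IsFlagSphere (k i) (d + 2) T) ∧
      omega T = (N + 1) * lam H W ∧ numVert T ≤ (N + 1) * W.card ∧
      Thin ((d + 2) * W.card ^ 2) T := by
  obtain ⟨a, P, hpath, haW, hwin, hPle⟩ := exists_path hP hS.np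
  obtain ⟨hT, hlam⟩ := tube_all (M := N) hpath haW hS N le_rfl
  set G := tube H a N with hG
  set V := tubeV H a W N N with hV
  let e : Fin (Fintype.card (α ×ₗ Fin (N + 1))) ≃o (α ×ₗ Fin (N + 1)) :=
    Fintype.orderIsoFinOfCardEq _ rfl
  let f : (α ×ₗ Fin (N + 1)) ↪o Fin (Fintype.card (α ×ₗ Fin (N + 1))) := e.symm.toOrderEmbedding
  let K : SimpleGraph (Fin (Fintype.card (α ×ₗ Fin (N + 1)))) := SimpleGraph.comap (fun i => e i) G
  have hfe : ∀ p, e (f p) = p := fun p => e.apply_symm_apply p
  have hc : Cmp f G K V := by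
    intro x _ y _
    change G.Adj x y ↔ G.Adj (e (f x)) (e (f y))
    rw [hfe, hfe]
  have hN := NP_map hc hT.np
  have hvert : ∀ x, {x} ∈ cl K (V.map f.toEmbedding) → e x ∈ V := by
    intro x hx
    have h1 := (mem_cl.1 hx).1 (Finset.mem_singleton_self x)
    obtain ⟨p, hp, rfl⟩ := Finset.mem_map.1 h1
    change e (f p) ∈ V
    rw [hfe]; exact hp
  refine ⟨_, cl K (V.map f.toEmbedding), fun i => isFlagSphere_of hN (HS_map hc (hT.hs i)), ?_, ?_,
    fun x => label W (e x), ?_, ?_⟩
  · rw [← hlam, ← lam_map hc, omega, lam, fe]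
    refine Finset.sum_congr rfl (fun σ _ => ?_)
    rw [div_pow]
  · have : numVert (cl K (V.map f.toEmbedding)) = V.card := by
      rw [numVert, ← Finset.card_map f.toEmbedding]
      symm
      refine Finset.card_bij (fun a _ => {a}) ?_ ?_ ?_
      · intro a ha
        exact Finset.mem_filter.2 ⟨singleton_mem_cl ha, Finset.card_singleton a⟩
      · intro a _ b _ hab
        exact Finset.singleton_injective hab
      · intro G hG
        obtain ⟨h1, h2⟩ := Finset.mem_filter.1 hG
        obtain ⟨a, rfl⟩ := Finset.card_eq_one.1 h2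
        exact ⟨a, (mem_cl.1 h1).1 (Finset.mem_singleton_self a), rfl⟩
    rw [this]
    exact tube_card
  · intro x y hx hy hxy
    have h1 := (mem_tubeV.1 (hvert x hx)).1
    have h2 := (mem_tubeV.1 (hvert y hy)).1
    exact e.injective (label_inj h1 h2 hxy)
  · intro x y hxy
    have hx : {x} ∈ cl K (V.map f.toEmbedding) :=
      cl_of_subset hxy (Finset.singleton_subset_iff.2 (Finset.mem_insert_self _ _))
    have hy : {y} ∈ cl K (V.map f.toEmbedding) :=
      cl_of_subset hxy (Finset.singleton_subset_iff.2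
        (Finset.mem_insert_of_mem (Finset.mem_singleton_self _)))
    by_cases hne : x = y
    · rw [hne, sub_self, abs_zero]
      positivity
    have hadj : G.Adj (e x) (e y) := (mem_cl.1 hxy).2 x (Finset.mem_insert_self _ _) y
      (Finset.mem_insert_of_mem (Finset.mem_singleton_self _)) hne
    refine (label_adj hwin (hvert x hx) (hvert y hy) hadj).trans ?_
    have h3 : ((P : ℤ) + 1) * W.card ≤ ((d + 2) * W.card : ℕ) * W.card := by
      refine mul_le_mul_of_nonneg_right ?_ (by positivity)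
      exact_mod_cast hPle
    refine h3.trans (le_of_eq ?_)
    push_cast
    ring

theorem HS.lkF {F : Type} [Field F] {α : Type} [LinearOrder α] [Fintype α] {H : SimpleGraph α}
    {W κ : Finset α} {d : ℕ} (h : HS F H d W) (hκ : κ ∈ cl H W) (hd : κ.card ≤ d) :
    HS F H (d - κ.card) (W497.FS.lkF H W κ) := by
  have key : ∀ σ ∈ cl H (W497.FS.lkF H W κ), κ ∪ σ ∈ cl H W ∧ (κ ∪ σ).card = κ.card + σ.card := by
    intro σ hσ
    exact ⟨union_mem_cl hκ hσ, Finset.card_union_of_disjoint (disjoint_of_mem_cl_lkF hσ)⟩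
  constructor
  · intro σ hσ j hj
    obtain ⟨h1, h2⟩ := key σ hσ
    rw [lkF_lkF]
    exact h.ex _ h1 j (by omega)
  · intro σ hσ
    obtain ⟨h1, h2⟩ := key σ hσ
    rw [lkF_lkF]
    have := h.top _ h1
    have e1 : d - κ.card - σ.card = d - (κ ∪ σ).card := by omega
    rw [e1]
    exact this

end

end Pool.Agent.D0H80.CD
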