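import Pool.Agent.D0H80.CD.Tube2

set_option autoImplicit false
set_option linter.unusedSectionVars false
set_option linter.unusedVariables false

/-! # It suffices to test thin tubes -/

namespace Pool.Agent.D0H80.CD

open Pool.Agent.W497.FS

theorem omega_cl {n : ℕ} (H : SimpleGraph (Fin n)) (W : Finset (Fin n)) :
    omega (cl H W) = lam H W := by
  rw [omega, lam, fe]
  refine Finset.sum_congr rfl (fun σ _ => ?_)
  rw [div_pow]

/-- `4^m ω` is an integer -/
theorem exists_int {α : Type} [LinearOrder α] [Fintype α] {H : SimpleGraph α} {W : Finset α} {m : ℕ}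
    (hN : NP H (2 * m) W) (hE : Eul H (2 * m) W) : ∃ z : ℤ, (-1) ^ m * lam H W = z / 4 ^ m := by
  obtain ⟨a, ha, -⟩ := GT_coeffs (FP_mem_two hN hE)
  refine ⟨a m, ?_⟩
  rw [← aeval_FP, ha, aeval_even]
  have h1 : (-1 : ℚ) ^ m * (a m * (-1 / 4) ^ m) = a m * (1 / 4) ^ m := by
    rw [← neg_pow_quarter m]; ring
  rw [h1, div_pow, one_pow]
  ring

section

variable {ι : Type} {k : ι → Type} [∀ i, Field (k i)]

/-- factors of joins -/
theorem factor_hs {F : Type} [Field F] {α : Type} [LinearOrder α] [Fintype α] {H : SimpleGraph α}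
    {A B : Finset α} {d₁ d₂ : ℕ} (hAB : Full H A B) (hB : NP H d₂ B)
    (hS : HS F H (d₁ + d₂) (A ∪ B)) : HS F H d₁ A := by
  obtain ⟨β, hβ, hβc, hβl⟩ := hB.exists_facet
  have h1 : β ∈ cl H (A ∪ B) := cl_mono Finset.subset_union_right hβ
  have h2 : W497.FS.lkF H (A ∪ B) β = A := by
    ext x
    rw [mem_lkF, Finset.mem_union]
    constructor
    · rintro ⟨h | h, h'⟩
      · exact h
      · exfalso
        have : x ∈ W497.FS.lkF H B β := mem_lkF.2 ⟨h, h'⟩
        rw [hβl] at this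
        exact absurd this (Finset.notMem_empty _)
    · intro h
      exact ⟨Or.inl h, fun y hy => (hAB x h y ((mem_cl.1 hβ).1 hy)).symm⟩
  have h3 := HS.lkF hS h1 (by omega)
  rw [h2, hβc] at h3
  have e1 : d₁ + d₂ - d₂ = d₁ := by omega
  rwa [e1] at h3

/-- the Charney-Davis inequality in dimension `2 m - 1` -/
def CDI (k : ι → Type) [∀ i, Field (k i)] (m : ℕ) : Prop :=
  ∀ (N : ℕ) (S : Finset (Finset (Fin N))), (∀ i, IsFlagSphere (k i) (2 * m) S) →
    0 ≤ (-1) ^ m * omega S

/-- weak lower bounds for thin spheres of dimension `2 m - 1` -/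
def WeakThin (k : ι → Type) [∀ i, Field (k i)] (m : ℕ) : Prop :=
  ∀ v : ℕ, 1 ≤ v → ∃ c C : ℝ, c * (4 ^ m * v) < 1 ∧ ∀ (N : ℕ) (T : Finset (Finset (Fin N))),
    (∀ i, IsFlagSphere (k i) (2 * m) T) → Thin (2 * m * v ^ 2) T →
      -(c * numVert T) - C ≤ (((-1) ^ m * omega T : ℚ) : ℝ)

theorem cdi_of_weak [Nonempty ι] {m : ℕ} (hw : WeakThin k m) (ih : ∀ m' < m, CDI k m') :
    CDI k m := by
  classical
  intro n S hS
  rcases Nat.eq_zero_or_pos m with rfl | hm
  · exact omega_rank_zero hS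
  by_contra hneg
  push Not at hneg
  obtain ⟨i₀⟩ := ‹Nonempty ι›
  have hS0 := hS i₀
  set H := skel S with hH
  set W := vert S with hW
  have hNP : NP H (2 * m) W := hS0.np
  have hE : Eul H (2 * m) W := hS0.eul
  have hHS : ∀ i, HS (k i) H (2 * m) W := fun i => by
    obtain ⟨r, hr⟩ := hS i
    exact Pool.Agent.W216.FS.HR.main Pool.Agent.W216.FS.BB.main (k i) n (2 * m) S r hr
  rw [hS0.omega_eq] at hneg
  change (-1) ^ m * lam H W < 0 at hneg
  obtain ⟨d, hd⟩ : ∃ d, 2 * m = d + 2 := ⟨2 * m - 2, by omega⟩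
  have hWne : W.Nonempty := by
    rw [hd] at hNP
    exact hNP.nonempty
  by_cases hP : Prm H W
  · -- thin tubes
    obtain ⟨z, hz⟩ := exists_int hNP hE
    have hz1 : z ≤ -1 := by
      rw [hz] at hneg
      have h4 : (0 : ℚ) < 4 ^ m := by positivity
      have : (z : ℚ) < 0 := by
        by_contra hcon
        push Not at hcon
        have := div_nonneg hcon h4.le
        linarith
      have : z < 0 := by exact_mod_cast this
      omega
    have hκ : (((-1) ^ m * lam H W : ℚ) : ℝ) ≤ -(1 / 4 ^ m) := by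
      rw [hz]
      push_cast
      have h4 : (0 : ℝ) < 4 ^ m := by positivity
      rw [div_le_iff₀ h4, neg_mul, div_mul_cancel₀ _ h4.ne']
      exact_mod_cast hz1
    set v := W.card with hv
    have hv1 : 1 ≤ v := Finset.card_pos.2 hWne
    obtain ⟨c, C, hc, hC⟩ := hw v hv1
    have hv0 : (0 : ℝ) < v := by exact_mod_cast hv1
    have h4 : (0 : ℝ) < 4 ^ m := by positivity
    set c' : ℝ := max c 0 with hc'
    have hc'0 : 0 ≤ c' := le_max_right _ _
    have hc'1 : c' * v < 1 / 4 ^ m := by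
      rw [lt_div_iff₀ h4]
      rcases le_total c 0 with h | h
      · rw [hc', max_eq_right h]; norm_num
      · rw [hc', max_eq_left h]
        calc c * v * 4 ^ m = c * (4 ^ m * v) := by ring
          _ < 1 := hc
    set δ : ℝ := 1 / 4 ^ m - c' * v with hδ
    have hδ0 : 0 < δ := by rw [hδ]; linarith
    obtain ⟨N, hN⟩ := exists_nat_gt (C / δ)
    have hSp : Sp k H (d + 2) W := ⟨by rw [← hd]; exact hNP, fun i => by rw [← hd]; exact hHS i⟩
    obtain ⟨n', T, hT1, hT2, hT3, hT4⟩ := exists_tube (k := k) hP hSp N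
    rw [← hd] at hT1 hT4
    have h5 := hC n' T hT1 hT4
    have h6 : (((-1) ^ m * omega T : ℚ) : ℝ) ≤ (N + 1) * -(1 / 4 ^ m) := by
      rw [hT2]
      have e1 : (-1 : ℚ) ^ m * ((N + 1) * lam H W) = (N + 1) * ((-1) ^ m * lam H W) := by ring
      rw [e1, Rat.cast_mul]
      have e2 : (((N : ℚ) + 1 : ℚ) : ℝ) = (N : ℝ) + 1 := by push_cast; ring
      rw [e2]
      exact mul_le_mul_of_nonneg_left hκ (by positivity)
    have h7 : c * numVert T ≤ c' * ((N + 1) * v) := by
      have h8 : (numVert T : ℝ) ≤ (N + 1) * v := by exact_mod_cast hT3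
      calc c * numVert T ≤ c' * numVert T :=
            mul_le_mul_of_nonneg_right (le_max_left _ _) (by positivity)
        _ ≤ c' * ((N + 1) * v) := mul_le_mul_of_nonneg_left h8 hc'0
    rw [div_lt_iff₀ hδ0] at hN
    have h9 : ((N : ℝ) + 1) * δ ≤ C := by
      rw [hδ]
      nlinarith
    nlinarith
  · -- joins
    have hP' : ∃ A ⊆ W, A.Nonempty ∧ A ≠ W ∧ ∀ a ∈ A, ∀ b ∈ W, b ∉ A → H.Adj a b := by
      by_contra hcon
      apply hP
      refine ⟨hWne, fun A hA hne hneq => ?_⟩
      by_contra hcon2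
      apply hcon
      refine ⟨A, hA, hne, hneq, fun a ha b hb hbA => ?_⟩
      by_contra hab
      exact hcon2 ⟨a, ha, b, hb, hbA, hab⟩
    obtain ⟨A, hAW, hAne, hAW', hadj⟩ := hP'
    set B := W \ A with hB
    have hun : A ∪ B = W := Finset.union_sdiff_of_subset hAW
    have hBne : B.Nonempty := by
      rw [hB, Finset.sdiff_nonempty]
      exact fun h => hAW' (Finset.Subset.antisymm hAW h)
    have hfull : Full H A B := fun a ha b hb =>
      hadj a ha b (Finset.mem_sdiff.1 hb).1 (Finset.mem_sdiff.1 hb).2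
    rw [← hun] at hNP hHS hneg
    obtain ⟨d₁, d₂, hd12, hA, hB'⟩ := NP.split hfull hNP
    rw [← hd12] at hHS
    have hHA : ∀ i, HS (k i) H d₁ A := fun i => factor_hs hfull hB' (hHS i)
    have hHB : ∀ i, HS (k i) H d₂ B := fun i => by
      have := hHS i
      rw [Finset.union_comm, add_comm] at this
      exact factor_hs hfull.symm hA this
    have hFA : ∀ i, IsFlagSphere (k i) d₁ (cl H A) := fun i => isFlagSphere_of hA (hHA i)
    have hFB : ∀ i, IsFlagSphere (k i) d₂ (cl H B) := fun i => isFlagSphere_of hB' (hHB i)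
    obtain ⟨a, ha⟩ := hAne
    obtain ⟨b, hb⟩ := hBne
    obtain ⟨e₁, he₁⟩ := hA.rank_pos ha
    obtain ⟨e₂, he₂⟩ := hB'.rank_pos hb
    rw [lam_join hfull] at hneg
    rcases Nat.even_or_odd d₁ with ⟨m₁, hm₁⟩ | hodd
    · obtain ⟨m₂, hm₂⟩ : ∃ m₂, d₂ = 2 * m₂ := ⟨m - m₁, by omega⟩
      have hm1' : d₁ = 2 * m₁ := by omega
      rw [hm1'] at hFA
      rw [hm₂] at hFB
      have h1 := ih m₁ (by omega) n _ hFA
      have h2 := ih m₂ (by omega) n _ hFB
      rw [omega_cl] at h1 h2
      have h3 : (-1 : ℚ) ^ m * (lam H A * lam H B) =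
          ((-1) ^ m₁ * lam H A) * ((-1) ^ m₂ * lam H B) := by
        have : m = m₁ + m₂ := by omega
        rw [this, pow_add]
        ring
      rw [h3] at hneg
      exact absurd (mul_nonneg h1 h2) (not_le.2 hneg)
    · have h1 : lam H A = 0 := by
        rw [← omega_cl, (hFA i₀).omega_eq]
        exact lam_odd (hFA i₀).eul hodd
      rw [h1, zero_mul, mul_zero] at hneg
      exact lt_irrefl _ hneg

/-- **it suffices to test thin tubes** -/
theorem thin_iff [Nonempty ι] (m : ℕ) :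
    (∀ m' ≤ m, CDI k m') ↔ ∀ m' ≤ m, WeakThin k m' := by
  constructor
  · intro h m' hm' v _
    refine ⟨0, 0, by norm_num, fun N T hT _ => ?_⟩
    rw [zero_mul, neg_zero, sub_zero]
    exact_mod_cast h m' hm' N T hT
  · intro h m'
    induction m' using Nat.strong_induction_on with
    | _ m' ih =>
      intro hm'
      exact cdi_of_weak (h m' hm') (fun m'' hm'' => ih m'' hm'' (by omega))

end

end Pool.Agent.D0H80.CD
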