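import Pool.Agent.D0H80.CD.Susp

set_option autoImplicit false
set_option linter.unusedSectionVars false
set_option linter.unusedVariables false

/-! # Copies of complexes along arbitrary injections -/

namespace Pool.Agent.D0H80.CD

open Pool.Agent.W497.FS

section Twist

variable {k : Type} [Field k] {α β : Type} [LinearOrder α] [Fintype α] [LinearOrder β] [Fintype β]
  {f : α ↪ β} {H : SimpleGraph α} {K : SimpleGraph β} {W X : Finset α}

/-- the graphs correspond on `W` -/
def Cm {α β : Type} (f : α ↪ β) (H : SimpleGraph α) (K : SimpleGraph β) (W : Finset α) : Prop :=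
  ∀ a ∈ W, ∀ b ∈ W, H.Adj a b ↔ K.Adj (f a) (f b)

theorem Cm.mono (h : Cm f H K W) (hX : X ⊆ W) : Cm f H K X :=
  fun a ha b hb => h a (hX ha) b (hX hb)

theorem mem_cl_tw (h : Cm f H K X) {A : Finset α} :
    A.map f ∈ cl K (X.map f) ↔ A ∈ cl H X := by
  rw [mem_cl, mem_cl, Finset.map_subset_map]
  constructor
  · rintro ⟨h1, h2⟩
    refine ⟨h1, fun x hx y hy hxy => (h x (h1 hx) y (h1 hy)).2 ?_⟩
    exact h2 (f x) (Finset.mem_map_of_mem _ hx) (f y) (Finset.mem_map_of_mem _ hy)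
      (fun he => hxy (f.injective he))
  · rintro ⟨h1, h2⟩
    refine ⟨h1, fun x hx y hy hxy => ?_⟩
    obtain ⟨a, ha, rfl⟩ := Finset.mem_map.1 hx
    obtain ⟨b, hb, rfl⟩ := Finset.mem_map.1 hy
    exact (h a (h1 ha) b (h1 hb)).1 (h2 a ha b hb (fun he => hxy (by rw [he])))

theorem exists_of_mem_cl_tw (h : Cm f H K X) {B : Finset β}
    (hB : B ∈ cl K (X.map f)) : ∃ A ∈ cl H X, B = A.map f := by
  obtain ⟨A, hA, hBA⟩ := Finset.subset_map_iff.1 (mem_cl.1 hB).1
  refine ⟨A, ?_, hBA⟩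
  rw [hBA] at hB
  exact (mem_cl_tw h).1 hB

theorem lk_tw (h : Cm f H K W) (hX : X ⊆ W) {v : α} (hv : v ∈ W) :
    lk K (X.map f) (f v) = (lk H X v).map f := by
  ext y
  rw [mem_lk, Finset.mem_map, Finset.mem_map]
  constructor
  · rintro ⟨⟨x, hx, rfl⟩, h2⟩
    exact ⟨x, mem_lk.2 ⟨hx, (h v hv x (hX hx)).2 h2⟩, rfl⟩
  · rintro ⟨x, hx, rfl⟩
    rw [mem_lk] at hx
    exact ⟨⟨x, hx.1, rfl⟩, (h v hv x (hX hx.1)).1 hx.2⟩

theorem lkF_tw (h : Cm f H K W) {κ : Finset α} (hκ : κ ⊆ W) :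
    lkF K (W.map f) (κ.map f) = (lkF H W κ).map f := by
  ext y
  rw [mem_lkF, Finset.mem_map, Finset.mem_map]
  constructor
  · rintro ⟨⟨x, hx, rfl⟩, h2⟩
    exact ⟨x, mem_lkF.2 ⟨hx, fun z hz => (h z (hκ hz) x hx).2
      (h2 (f z) (Finset.mem_map_of_mem _ hz))⟩, rfl⟩
  · rintro ⟨x, hx, rfl⟩
    rw [mem_lkF] at hx
    refine ⟨⟨x, hx.1, rfl⟩, fun z hz => ?_⟩
    obtain ⟨a, ha, rfl⟩ := Finset.mem_map.1 hz
    exact (h a (hκ ha) x hx.1).1 (hx.2 a ha)

/-- the sign of a comparison -/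
def sc (k : Type) [Field k] {α : Type} [LinearOrder α] (a b : α) : k := if a < b then -1 else 1

theorem sc_mul (a b : α) : sc k a b * sc k a b = 1 := by
  rw [sc]; split_ifs <;> norm_num

theorem sc_swap {a b : α} (h : a ≠ b) : sc k a b = - sc k b a := by
  rw [sc, sc]
  rcases lt_or_gt_of_ne h with h1 | h1
  · rw [if_pos h1, if_neg (not_lt_of_gt h1)]
  · rw [if_neg (not_lt_of_gt h1), if_pos h1, neg_neg]

/-- the sign of a pair -/
def ep (k : Type) [Field k] {α β : Type} [LinearOrder α] [LinearOrder β] (f : α ↪ β) (a b : α) : k :=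
  sc k (f a) (f b) * sc k a b

theorem ep_symm {a b : α} (h : a ≠ b) : ep k f a b = ep k f b a := by
  have h' : f a ≠ f b := fun e => h (f.injective e)
  rw [ep, ep, sc_swap h, sc_swap h']
  ring

/-- the sign of a set -/
def si (k : Type) [Field k] {α β : Type} [LinearOrder α] [LinearOrder β] (f : α ↪ β)
    (A : Finset α) : k :=
  ∏ b ∈ A, ∏ a ∈ A, if a < b then ep k f a b else 1

theorem si_mul (A : Finset α) : si k f A * si k f A = 1 := by
  rw [si, ← Finset.prod_mul_distrib]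
  refine Finset.prod_eq_one (fun b _ => ?_)
  rw [← Finset.prod_mul_distrib]
  refine Finset.prod_eq_one (fun a _ => ?_)
  split_ifs
  · have h1 := sc_mul (k := k) a b
    have h2 := sc_mul (k := k) (f a) (f b)
    rw [ep]
    calc _ = (sc k (f a) (f b) * sc k (f a) (f b)) * (sc k a b * sc k a b) := by ring
      _ = 1 := by rw [h1, h2, one_mul]
  · exact one_mul 1

theorem si_insert {v : α} {A : Finset α} (hv : v ∉ A) :
    si k f (insert v A) = si k f A * ∏ a ∈ A, ep k f a v := by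
  rw [si, Finset.prod_insert hv, Finset.prod_insert hv, if_neg (lt_irrefl v), one_mul]
  have h1 : ∀ b ∈ A, (∏ a ∈ insert v A, if a < b then ep k f a b else 1) =
      (if v < b then ep k f v b else 1) * ∏ a ∈ A, if a < b then ep k f a b else 1 := by
    intro b _
    rw [Finset.prod_insert hv]
  rw [Finset.prod_congr rfl h1, Finset.prod_mul_distrib, ← mul_assoc, ← Finset.prod_mul_distrib,
    mul_comm, ← si]
  congr 1
  refine Finset.prod_congr rfl (fun a ha => ?_)
  have hne : a ≠ v := fun h => hv (h ▸ ha)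
  rcases lt_or_gt_of_ne hne with h | h
  · rw [if_pos h, if_neg (not_lt_of_gt h), mul_one]
  · rw [if_neg (not_lt_of_gt h), if_pos h, one_mul, ep_symm hne.symm]

theorem sg_eq_prod (v : α) (A : Finset α) : sg k v A = ∏ a ∈ A, sc k a v := by
  simp only [sc]
  rw [sg, Finset.prod_ite, Finset.prod_const, Finset.prod_const_one, mul_one]

theorem sg_tw {v : α} {A : Finset α} (hv : v ∉ A) :
    sg k v A * si k f (insert v A) = si k f A * sg k (f v) (A.map f) := by
  rw [si_insert hv, sg_eq_prod, sg_eq_prod, Finset.prod_map, mul_left_comm,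
    ← Finset.prod_mul_distrib]
  congr 1
  refine Finset.prod_congr rfl (fun a _ => ?_)
  rw [ep]
  have h1 := sc_mul (k := k) a v
  calc sc k a v * (sc k (f a) (f v) * sc k a v) = sc k (f a) (f v) * (sc k a v * sc k a v) := by ring
    _ = _ := by rw [h1, mul_one]

/-- pulling back a chain -/
def pul (f : α ↪ β) (c : Finset β → k) : Finset α → k := fun A => si k f A * c (A.map f)

/-- pushing a chain forward -/
noncomputable def pus (f : α ↪ β) (b : Finset α → k) : Finset β → k :=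
  fun B => ∑ A : Finset α, if A.map f = B then si k f A * b A else 0

theorem pus_map (b : Finset α → k) (A : Finset α) : pus f b (A.map f) = si k f A * b A := by
  rw [pus, Finset.sum_eq_single A]
  · rw [if_pos rfl]
  · intro B _ hne
    rw [if_neg (fun h => hne (Finset.map_injective _ h))]
  · intro h; exact absurd (Finset.mem_univ _) h

theorem pus_of_ne (b : Finset α → k) {B : Finset β} (h : ¬ ∃ A : Finset α, B = A.map f) :
    pus f b B = 0 := by
  rw [pus]
  refine Finset.sum_eq_zero (fun A _ => if_neg (fun h' => h ⟨A, h'.symm⟩))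

theorem pul_bd {c : Finset β → k} (hc : ∀ B, c B ≠ 0 → ∃ A : Finset α, B = A.map f) :
    bd (pul f c) = pul f (bd c) := by
  funext A
  rw [pul, bd, bd]
  have h1 : ∑ u ∈ (A.map f)ᶜ, sg k u (A.map f) *
      c (insert u (A.map f)) = ∑ u ∈ (Aᶜ).map f,
        sg k u (A.map f) * c (insert u (A.map f)) := by
    symm
    refine Finset.sum_subset ?_ ?_
    · intro u hu
      obtain ⟨x, hx, rfl⟩ := Finset.mem_map.1 hu
      rw [Finset.mem_compl] at hx ⊢
      exact fun h => hx ((Finset.mem_map' _).1 h)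
    · intro u hu hu'
      rw [Finset.mem_compl] at hu
      by_contra hne
      obtain ⟨B, hB⟩ := hc _ (fun h => hne (by rw [h, mul_zero]))
      have : u ∈ B.map f := by rw [← hB]; exact Finset.mem_insert_self _ _
      obtain ⟨x, hx, rfl⟩ := Finset.mem_map.1 this
      apply hu'
      refine Finset.mem_map_of_mem _ (Finset.mem_compl.2 (fun h => hu (Finset.mem_map_of_mem _ h)))
  rw [h1, Finset.sum_map, Finset.mul_sum]
  refine Finset.sum_congr rfl (fun v hv => ?_)
  rw [pul, Finset.map_insert, ← mul_assoc, sg_tw (Finset.mem_compl.1 hv), mul_assoc]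

theorem pul_pus (b : Finset α → k) : pul f (pus f b) = b := by
  funext A
  rw [pul, pus_map, ← mul_assoc, si_mul, one_mul]

theorem pus_supp (b : Finset α → k) (B : Finset β) (h : pus f b B ≠ 0) :
    ∃ A : Finset α, B = A.map f := by
  by_contra hcon
  exact h (pus_of_ne b hcon)

theorem pus_pul {c : Finset β → k}
    (hc : ∀ B, c B ≠ 0 → ∃ A : Finset α, B = A.map f) : pus f (pul f c) = c := by
  funext B
  by_cases h : ∃ A : Finset α, B = A.map f
  · obtain ⟨A, rfl⟩ := h
    rw [pus_map, pul, ← mul_assoc, si_mul, one_mul]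
  · rw [pus_of_ne _ h]
    by_contra hne
    exact h (hc B (Ne.symm hne))

theorem bd_pus_supp (b : Finset α → k) (B : Finset β) (hB : bd (pus f b) B ≠ 0) :
    ∃ A : Finset α, B = A.map f := by
  by_contra h
  apply hB
  rw [bd]
  refine Finset.sum_eq_zero (fun u _ => ?_)
  rw [pus_of_ne, mul_zero]
  rintro ⟨A, hA⟩
  apply h
  have : B ⊆ A.map f := by rw [← hA]; exact Finset.subset_insert _ _
  obtain ⟨A', -, hA'⟩ := Finset.subset_map_iff.1 this
  exact ⟨A', hA'⟩

theorem bd_pus (b : Finset α → k) : bd (pus f b) = pus f (bd b) := by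
  rw [← pus_pul (bd_pus_supp b), ← pul_bd (pus_supp b), pul_pus]

theorem on_supp' (h : Cm f H K X) {j : ℕ} {c : Finset β → k}
    (hc : On K (X.map f) j c) (B : Finset β) (hB : c B ≠ 0) :
    ∃ A : Finset α, B = A.map f := by
  obtain ⟨A, -, hA⟩ := exists_of_mem_cl_tw h (hc B hB).1
  exact ⟨A, hA⟩

theorem on_pul (h : Cm f H K X) {j : ℕ} {c : Finset β → k}
    (hc : On K (X.map f) j c) : On H X j (pul f c) := by
  intro A hA
  obtain ⟨h1, h2⟩ := hc (A.map f) (fun h0 => hA (by rw [pul, h0, mul_zero]))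
  rw [Finset.card_map] at h2
  exact ⟨(mem_cl_tw h).1 h1, h2⟩

theorem on_pus (h : Cm f H K X) {j : ℕ} {b : Finset α → k} (hb : On H X j b) :
    On K (X.map f) j (pus f b) := by
  intro B hB
  obtain ⟨A, rfl⟩ := pus_supp b B hB
  rw [pus_map] at hB
  obtain ⟨h1, h2⟩ := hb A (fun h0 => hB (by rw [h0, mul_zero]))
  exact ⟨(mem_cl_tw h).2 h1, by rw [Finset.card_map, h2]⟩

theorem pus_zero : pus f (0 : Finset α → k) = 0 := by
  funext B
  rw [pus]
  simp

theorem pul_zero : pul f (0 : Finset β → k) = 0 := by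
  funext B
  rw [pul]
  simp

theorem Ex_tw (h : Cm f H K X) {j : ℕ} (hE : Ex k H X j) : Ex k K (X.map f) j := by
  intro c hc h0
  have hs := on_supp' h hc
  obtain ⟨b, hb, hbb⟩ := hE (pul f c) (on_pul h hc) (by rw [pul_bd hs, h0, pul_zero])
  exact ⟨pus f b, on_pus h hb, by rw [bd_pus, hbb, pus_pul hs]⟩

theorem HS_tw {d : ℕ} (h : Cm f H K W) (hS : HS k H d W) : HS k K d (W.map f) := by
  constructor
  · intro κ hκ j hj
    obtain ⟨κ', hκ', rfl⟩ := exists_of_mem_cl_tw h hκ
    rw [Finset.card_map] at hj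
    rw [lkF_tw h (mem_cl.1 hκ').1]
    exact Ex_tw (h.mono lkF_subset) (hS.ex κ' hκ' j hj)
  · intro κ hκ
    obtain ⟨κ', hκ', rfl⟩ := exists_of_mem_cl_tw h hκ
    rw [Finset.card_map, lkF_tw h (mem_cl.1 hκ').1]
    obtain ⟨z, hz, hz0, hne⟩ := hS.top κ' hκ'
    refine ⟨pus f z, on_pus (h.mono lkF_subset) hz, by rw [bd_pus, hz0, pus_zero], ?_⟩
    intro hcon
    apply hne
    rw [← pul_pus (f := f) z, hcon, pul_zero]

theorem NP_tw {d : ℕ} (h : Cm f H K W) (hN : NP H d W) : NP K d (W.map f) := by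
  induction d generalizing W with
  | zero =>
    have h0 : W = ∅ := hN
    rw [h0]
    exact Finset.map_empty _
  | succ d ih =>
    rcases d with _ | d
    · have h' : W.card = 2 ∧ ∀ x ∈ W, ∀ y ∈ W, ¬ H.Adj x y := hN
      refine ⟨by rw [Finset.card_map]; exact h'.1, fun x hx y hy hxy => ?_⟩
      obtain ⟨a, ha, rfl⟩ := Finset.mem_map.1 hx
      obtain ⟨b, hb, rfl⟩ := Finset.mem_map.1 hy
      exact h'.2 a ha b hb ((h a ha b hb).2 hxy)
    · refine ⟨hN.nonempty.map, fun A hA hne hneq => ?_, fun v hv => ?_⟩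
      · obtain ⟨A', hA', rfl⟩ := Finset.subset_map_iff.1 hA
        obtain ⟨a, ha, b, hb, hbA, hab⟩ := hN.2.1 A' hA' (Finset.map_nonempty.1 hne)
          (fun he => hneq (by rw [he]))
        exact ⟨f a, Finset.mem_map_of_mem _ ha, f b, Finset.mem_map_of_mem _ hb,
          fun hm => hbA ((Finset.mem_map' _).1 hm), (h a (hA' ha) b hb).1 hab⟩
      · obtain ⟨x, hx, rfl⟩ := Finset.mem_map.1 hv
        rw [lk_tw h (Finset.Subset.refl _) hx]
        exact ih (h.mono lk_subset) (hN.lk hx)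

theorem fe_tw {R : Type*} [CommRing R] (h : Cm f H K W) (x : R) :
    fe K (W.map f) x = fe H W x := by
  rw [fe, fe]
  symm
  refine Finset.sum_bij (fun A _ => A.map f) ?_ ?_ ?_ ?_
  · intro A hA
    exact (mem_cl_tw h).2 hA
  · intro A _ B _ hAB
    exact Finset.map_injective _ hAB
  · intro B hB
    obtain ⟨A, hA, hBA⟩ := exists_of_mem_cl_tw h hB
    exact ⟨A, hA, hBA.symm⟩
  · intro A _
    rw [Finset.card_map]

theorem lam_tw (h : Cm f H K W) : lam K (W.map f) = lam H W := fe_tw h _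

end Twist

section

variable {ι : Type} {k : ι → Type} [∀ i, Field (k i)] {α β : Type} [LinearOrder α] [Fintype α]
  [LinearOrder β] [Fintype β] {f : α ↪ β} {H : SimpleGraph α} {K : SimpleGraph β} {W : Finset α}

theorem Sp_tw {d : ℕ} (h : Cm f H K W) (hS : Sp k H d W) : Sp k K d (W.map f) :=
  ⟨NP_tw h hS.np, fun i => HS_tw h (hS.hs i)⟩

end

end Pool.Agent.D0H80.CD
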