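import Pool.Agent.D0H80.CD.Conv
import Pool.Agent.D0H80.CD.Tube3

set_option autoImplicit false
set_option linter.unusedSectionVars false
set_option linter.unusedVariables false

/-! # The values of the Charney-Davis quantity -/

namespace Pool.Agent.D0H80.CD

open Pool.Agent.W497.FS

/-- some vertex of `T` has a link isomorphic to `L` -/
def HasLink {N n : ℕ} (T : Finset (Finset (Fin N))) (L : Finset (Finset (Fin n))) : Prop :=
  ∃ x : Fin N, {x} ∈ T ∧ ∃ g : Fin n → Fin N, (∀ a b, {a} ∈ L → {b} ∈ L → g a = g b → a = b) ∧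
    ∀ G : Finset (Fin N), (x ∉ G ∧ insert x G ∈ T) ↔ ∃ A ∈ L, A.image g = G

section

variable {ι : Type} {k : ι → Type} [∀ i, Field (k i)]

/-- longer chains -/
theorem BS.chain {d : ℕ} {μ ν : Type} {M : SimpleGraph μ} {Y : Finset μ}
    {M' : SimpleGraph ν} {Y' : Finset ν} {l : ℚ} (h : BS k d M Y M' Y' l) (N : ℕ) :
    BS k d M Y M Y ((N + 1) * (2 * l)) := by
  induction N with
  | zero =>
    have := h.comp h.symm
    have e : ((0 : ℕ) + 1 : ℚ) * (2 * l) = l + l := by push_cast; ring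
    rw [e]; exact this
  | succ N ih =>
    have := ih.comp (h.comp h.symm)
    have e : ((N + 1 : ℕ) + 1 : ℚ) * (2 * l) = (N + 1) * (2 * l) + (l + l) := by push_cast; ring
    rw [e]; exact this

/-- a chain of any number of copies -/
theorem BS.chain' {d : ℕ} {μ ν : Type} {M : SimpleGraph μ} {Y : Finset μ}
    {M' : SimpleGraph ν} {Y' : Finset ν} {l : ℚ} (h : BS k d M Y M' Y' l) (N : ℕ) :
    BS k d M Y M Y ((N + 1) * l) ∨ BS k d M Y M' Y' ((N + 1) * l) := by
  induction N with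
  | zero =>
    right
    have e : ((0 : ℕ) + 1 : ℚ) * l = l := by push_cast; ring
    rw [e]; exact h
  | succ N ih =>
    have e : ((N + 1 : ℕ) + 1 : ℚ) * l = (N + 1) * l + l := by push_cast; ring
    rw [e]
    rcases ih with h1 | h1
    · exact Or.inr (h1.comp h)
    · exact Or.inl (h1.comp h.symm)

/-- a complex with a prescribed link of a vertex -/
def RS (k : ι → Type) [∀ i, Field (k i)] (d : ℕ) {μ : Type} (M : SimpleGraph μ) (Y : Finset μ)
    (l : ℚ) : Prop :=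
  ∃ (α : Type) (_ : LinearOrder α) (_ : Fintype α) (H : SimpleGraph α) (W : Finset α) (x : α),
    Sp k H d W ∧ x ∈ W ∧ LI H W x M Y ∧ lam H W = l

theorem BS.rs {d : ℕ} {μ ν : Type} {M : SimpleGraph μ} {Y : Finset μ}
    {M' : SimpleGraph ν} {Y' : Finset ν} {l : ℚ} (h : BS k d M Y M' Y' l) : RS k d M Y l := by
  obtain ⟨α, o, ft, H, W, x, x', h1, h2, h3, h4, h5, h6, h7, h8⟩ := h
  exact ⟨α, o, ft, H, W, x, h1, h2, h6, h8⟩

/-- the joins of pentagons -/
theorem pents (m : ℕ) : ∃ (α : Type) (_ : LinearOrder α) (_ : Fintype α) (H : SimpleGraph α)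
    (W : Finset α), Sp k H (2 * m) W ∧ lam H W = (-1 / 4) ^ m := by
  obtain ⟨α, o, ft, H, W, h1, h2, -⟩ := (Rz_pent (k := k)).pow m
  exact ⟨α, o, ft, H, W, by rw [mul_comm]; exact h1, h2⟩

theorem RS.fin {d : ℕ} {n : ℕ} {L : Finset (Finset (Fin n))} {M : SimpleGraph (Fin n)}
    {Y : Finset (Fin n)} (hL : cl M Y = L) {l : ℚ} (h : RS k d M Y l) :
    ∃ (N : ℕ) (T : Finset (Finset (Fin N))), (∀ i, IsFlagSphere (k i) d T) ∧ HasLink T L ∧
      omega T = l := by
  classical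
  obtain ⟨α, _, _, H, W, x, hS, hx, hli, hl⟩ := h
  let e : Fin (Fintype.card α) ≃o α := Fintype.orderIsoFinOfCardEq α rfl
  let f : α ↪o Fin (Fintype.card α) := e.symm.toOrderEmbedding
  let K : SimpleGraph (Fin (Fintype.card α)) := SimpleGraph.comap (fun i => e i) H
  have hc : Cmp f H K W := by
    intro a _ b _
    change H.Adj a b ↔ H.Adj (e (e.symm a)) (e (e.symm b))
    rw [OrderIso.apply_symm_apply, OrderIso.apply_symm_apply]
  have hN := NP_map hc hS.np
  have e1 : lk K (W.map f.toEmbedding) (f x) = (lk H W x).map f.toEmbedding :=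
    lk_map hc (Finset.Subset.refl _) hx
  have hli' : LI K (W.map f.toEmbedding) (f x) M Y := by
    refine hli.tr f ?_ (fun a _ b _ h => f.injective h) ?_ ?_
    · intro a ha
      rw [e1]; exact Finset.mem_map_of_mem _ ha
    · intro b hb
      rw [e1] at hb
      exact Finset.mem_map.1 hb
    · intro a ha b hb
      exact hc a (lk_subset ha) b (lk_subset hb)
  refine ⟨_, cl K (W.map f.toEmbedding), fun i => isFlagSphere_of hN (HS_map hc (hS.hs i)), ?_, ?_⟩
  · have hxm : f x ∈ W.map f.toEmbedding := Finset.mem_map_of_mem _ hx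
    refine ⟨f x, singleton_mem_cl hxm, ?_⟩
    obtain ⟨g, g1, g2, g3, g4⟩ := hli'
    have hLv : ∀ a, {a} ∈ L → a ∈ Y := fun a ha => by
      rw [← hL] at ha
      exact (mem_cl.1 ha).1 (Finset.mem_singleton_self _)
    refine ⟨g, fun a b ha hb hab => g2 a (hLv a ha) b (hLv b hb) hab, fun G => ?_⟩
    have step : (f x ∉ G ∧ insert (f x) G ∈ cl K (W.map f.toEmbedding)) ↔
        G ∈ cl K (lk K (W.map f.toEmbedding) (f x)) := by
      constructor
      · rintro ⟨h1, h2⟩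
        rw [mem_cl] at h2 ⊢
        refine ⟨fun y hy => mem_lk.2 ⟨h2.1 (Finset.mem_insert_of_mem hy), ?_⟩, fun y hy z hz hyz =>
          h2.2 y (Finset.mem_insert_of_mem hy) z (Finset.mem_insert_of_mem hz) hyz⟩
        exact h2.2 _ (Finset.mem_insert_self _ _) y (Finset.mem_insert_of_mem hy)
          (fun h => h1 (h ▸ hy))
      · intro h
        exact ⟨fun h1 => not_mem_lk_self ((mem_cl.1 h).1 h1), (insert_mem_cl hxm h).1⟩
    rw [step, ← hL]
    constructor
    · intro h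
      obtain ⟨h1, h2⟩ := mem_cl.1 h
      refine ⟨Y.filter (fun y => g y ∈ G), ?_, ?_⟩
      · rw [mem_cl]
        refine ⟨Finset.filter_subset _ _, fun y hy z hz hyz => ?_⟩
        obtain ⟨p1, p2⟩ := Finset.mem_filter.1 hy
        obtain ⟨q1, q2⟩ := Finset.mem_filter.1 hz
        exact (g4 y p1 z q1).2 (h2 _ p2 _ q2 (fun he => hyz (g2 y p1 z q1 he)))
      · ext z
        rw [Finset.mem_image]
        constructor
        · rintro ⟨y, hy, rfl⟩
          exact (Finset.mem_filter.1 hy).2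
        · intro hz
          obtain ⟨y, hy, rfl⟩ := g3 z (h1 hz)
          exact ⟨y, Finset.mem_filter.2 ⟨hy, hz⟩, rfl⟩
    · rintro ⟨A, hA, rfl⟩
      obtain ⟨h1, h2⟩ := mem_cl.1 hA
      rw [mem_cl]
      refine ⟨fun y hy => ?_, fun y hy z hz hyz => ?_⟩
      · obtain ⟨a, ha, rfl⟩ := Finset.mem_image.1 hy
        exact g1 a (h1 ha)
      · obtain ⟨a, ha, rfl⟩ := Finset.mem_image.1 hy
        obtain ⟨b, hb, rfl⟩ := Finset.mem_image.1 hz
        exact (g4 a (h1 ha) b (h1 hb)).1 (h2 a ha b hb (fun he => hyz (by rw [he])))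
  · rw [← hl, ← lam_map hc, omega_cl]

/-- the spheres on the vertices `0, ..., n - 1` -/
theorem sp_of [Nonempty ι] {N d : ℕ} {S : Finset (Finset (Fin N))}
    (h : ∀ i, IsFlagSphere (k i) d S) :
    Sp k (skel S) d (vert S) ∧ cl (skel S) (vert S) = S ∧ lam (skel S) (vert S) = omega S := by
  obtain ⟨i₀⟩ := ‹Nonempty ι›
  refine ⟨⟨(h i₀).np, fun i => ?_⟩, (h i₀).cl_eq, ?_⟩
  · obtain ⟨r, hr⟩ := h i
    exact Pool.Agent.W216.FS.HR.main Pool.Agent.W216.FS.BB.main (k i) N d S r hr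
  · exact ((h i₀).omega_eq).symm

/-- the value of a sphere is an integer -/
theorem omega_int {F : Type} [Field F] {N m : ℕ} {T : Finset (Finset (Fin N))}
    (h : IsFlagSphere F (2 * m) T) : ∃ z : ℤ, (-4) ^ m * omega T = z := by
  obtain ⟨z, hz⟩ := exists_int h.np h.eul
  refine ⟨z, ?_⟩
  have e1 : omega T = lam (skel T) (vert T) := h.omega_eq
  have e2 : (-4 : ℚ) ^ m = (-1) ^ m * 4 ^ m := by rw [← mul_pow]; norm_num
  have h4 : (4 : ℚ) ^ m ≠ 0 := by positivity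
  rw [e1, e2]
  calc (-1 : ℚ) ^ m * 4 ^ m * lam (skel T) (vert T)
      = 4 ^ m * ((-1) ^ m * lam (skel T) (vert T)) := by ring
    _ = z := by rw [hz]; field_simp

theorem RS.int [Nonempty ι] {m n : ℕ} {M : SimpleGraph (Fin n)}
    {Y : Finset (Fin n)} {l : ℚ} (h : RS k (2 * m) M Y l) : ∃ z : ℤ, (-4) ^ m * l = z := by
  obtain ⟨i₀⟩ := ‹Nonempty ι›
  obtain ⟨N, T, h1, -, rfl⟩ := h.fin rfl
  exact omega_int (h1 i₀)

theorem pent_val (m : ℕ) : (-4 : ℚ) ^ m * (-1 / 4) ^ m = 1 := by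
  rw [← mul_pow]; norm_num

/-- all large integers are values of spheres with a given link of a vertex -/
theorem large [Nonempty ι] {m n : ℕ} (hm : 1 ≤ m) {M : SimpleGraph (Fin n)} {Y : Finset (Fin n)}
    (hL : Sp k M (2 * m - 1) Y) : ∃ a : ℤ, ∀ z : ℤ, a ≤ z →
      RS k (2 * m) M Y (z / (-4) ^ m) := by
  obtain ⟨e, he⟩ : ∃ e, 2 * m = e + 1 := ⟨2 * m - 1, by omega⟩
  have he' : 2 * m - 1 = e := by omega
  rw [he'] at hL
  have h4 : (-4 : ℚ) ^ m ≠ 0 := by positivity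
  obtain ⟨α, _, _, H, W, hS, hlam⟩ := pents (k := k) m
  rw [he] at hS
  obtain ⟨x, hx, x', hx', hne, hn, hB⟩ := BS.of_sp hS
  obtain ⟨c, hc⟩ := conv e hL (hS.lk hx)
  have hci : ∃ z : ℤ, (-4) ^ m * c = z := by
    have := hc.rs
    rw [← he] at this
    exact this.int
  obtain ⟨a, ha⟩ := hci
  refine ⟨a + 1, fun z hz => ?_⟩
  obtain ⟨j, hj⟩ : ∃ j : ℕ, z = a + (j + 1) := ⟨(z - a - 1).toNat, by omega⟩
  have e1 : (z : ℚ) / (-4) ^ m = c + (j + 1) * lam H W := by
    rw [div_eq_iff h4, hj, hlam]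
    push_cast
    rw [← ha]
    have := pent_val m
    linear_combination (-(j + 1 : ℚ)) * this
  rw [e1, he]
  rcases hB.chain' j with h1 | h1
  · exact (hc.comp h1).rs
  · exact (hc.comp h1).rs

/-- if the inequality fails, then all integers are values of spheres with a given link -/
theorem all_values [Nonempty ι] {m n N₀ : ℕ} {M : SimpleGraph (Fin n)} {Y : Finset (Fin n)}
    (hL : Sp k M (2 * m - 1) Y) {S : Finset (Finset (Fin N₀))}
    (hS : ∀ i, IsFlagSphere (k i) (2 * m) S) (hneg : (-1) ^ m * omega S < 0) (z : ℤ) :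
    RS k (2 * m) M Y (z / (-4) ^ m) := by
  have hm : 1 ≤ m := by
    rcases Nat.eq_zero_or_pos m with rfl | h
    · exact absurd (omega_rank_zero hS) (not_le.2 hneg)
    · exact h
  obtain ⟨e, he⟩ : ∃ e, 2 * m = e + 1 := ⟨2 * m - 1, by omega⟩
  have he' : 2 * m - 1 = e := by omega
  obtain ⟨i₀⟩ := ‹Nonempty ι›
  have hne0 : Nonempty ι := ⟨i₀⟩
  have h4 : (-4 : ℚ) ^ m ≠ 0 := by positivity
  obtain ⟨n₀, hn₀⟩ := omega_int (hS i₀)
  have hn₀' : n₀ ≤ -1 := by
    have e2 : (-4 : ℚ) ^ m = (-1) ^ m * 4 ^ m := by rw [← mul_pow]; norm_num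
    have : (n₀ : ℚ) < 0 := by
      rw [← hn₀, e2]
      have h44 : (0 : ℚ) < 4 ^ m := by positivity
      nlinarith
    have : n₀ < 0 := by exact_mod_cast this
    omega
  obtain ⟨hSp, -, hlam⟩ := sp_of hS
  obtain ⟨α, _, _, P, V, hP, hPl⟩ := pents (k := k) m
  rw [he] at hSp hP
  rw [he'] at hL
  obtain ⟨x, hx, x', hx', hne, hn, hB⟩ := BS.of_sp hSp
  obtain ⟨y, hy, y', hy', hne', hn', hB'⟩ := BS.of_sp hP
  obtain ⟨c₁, hc₁⟩ := conv e hL (hSp.lk hx)
  obtain ⟨c₂, hc₂⟩ := conv e (hSp.lk hx) (hP.lk hy)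
  have hci : ∃ a : ℤ, (-4) ^ m * (c₁ + c₂) = a := by
    have := (hc₁.comp hc₂).rs
    rw [← he] at this
    exact this.int
  obtain ⟨a, ha⟩ := hci
  obtain ⟨N, hN⟩ : ∃ N : ℕ, |z| + |a| ≤ N := ⟨(|z| + |a|).toNat, Int.self_le_toNat _⟩
  have hz := neg_abs_le z
  have haa := le_abs_self a
  have hneg2 : (N + 1 : ℤ) * (2 * n₀) ≤ -(2 * (N + 1)) := by nlinarith
  obtain ⟨j, hj⟩ : ∃ j : ℕ, z = a + (N + 1) * (2 * n₀) + (j + 1) :=
    ⟨(z - a - (N + 1) * (2 * n₀) - 1).toNat, by omega⟩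
  have e1 : (z : ℚ) / (-4) ^ m =
      c₁ + (N + 1) * (2 * lam (skel S) (vert S)) + c₂ + (j + 1) * lam P V := by
    rw [div_eq_iff h4, hj, hPl, hlam]
    push_cast
    rw [← ha, ← hn₀]
    have := pent_val m
    linear_combination (-(j + 1 : ℚ)) * this
  rw [e1, he]
  rcases hB'.chain' j with h1 | h1
  · exact (((hc₁.comp (hB.chain N)).comp hc₂).comp h1).rs
  · exact (((hc₁.comp (hB.chain N)).comp hc₂).comp h1).rs

end

/-! ### Spheres containing a prescribed piece -/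

/-- the complement of the open star of `v` in `T₀` is (isomorphic to) a full subcomplex of `T`, and
its vertices which are not adjacent to `v` in `T₀` have no other neighbours in `T` -/
def Contains {n N : ℕ} (T₀ : Finset (Finset (Fin n))) (v : Fin n)
    (T : Finset (Finset (Fin N))) : Prop :=
  ∃ g : Fin n → Fin N,
    (∀ a b, {a} ∈ T₀ → {b} ∈ T₀ → a ≠ v → b ≠ v → g a = g b → a = b) ∧
    (∀ A : Finset (Fin n), (∀ a ∈ A, {a} ∈ T₀ ∧ a ≠ v) → (A ∈ T₀ ↔ A.image g ∈ T)) ∧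
    (∀ a, {a} ∈ T₀ → a ≠ v → {a, v} ∉ T₀ → ∀ y, {g a, y} ∈ T →
      ∃ b, {b} ∈ T₀ ∧ b ≠ v ∧ g b = y)

section

variable {ι : Type} {k : ι → Type} [∀ i, Field (k i)]

theorem fill [Nonempty ι] {d n : ℕ} {T₀ : Finset (Finset (Fin n))}
    (hT : ∀ i, IsFlagSphere (k i) d T₀) {v : Fin n} (hv : {v} ∈ T₀) {l : ℚ}
    (h : RS k d (skel T₀) (lk (skel T₀) (vert T₀) v) l) :
    ∃ (N : ℕ) (T : Finset (Finset (Fin N))), (∀ i, IsFlagSphere (k i) d T) ∧ Contains T₀ v T ∧
      omega T = l + omega T₀ := by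
  classical
  obtain ⟨hSp, hcl, hlam⟩ := sp_of hT
  set M := skel T₀ with hM
  set Y := vert T₀ with hY
  have hvY : v ∈ Y := mem_vert.2 hv
  obtain ⟨α, _, _, H, W, x, hS, hx, ⟨q, q1, q2, q3, q4⟩, hl⟩ := h
  obtain ⟨γ, oγ, fγ, G, i, j, c1, c2, hG, hSpG, hlamG, hji, hij⟩ := glue_abs (φ := q) hS hSp hx hvY
    q1 q2 (fun a ha => q3 a ha) q4
  set X₁ := (W.map i).erase (i x) with hX₁
  set X₂ := (Y.map j).erase (j v) with hX₂
  set Γ := glueG G X₁ X₂ with hΓ
  set Z := X₁ ∪ X₂ with hZ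
  let e : Fin (Fintype.card γ) ≃o γ := Fintype.orderIsoFinOfCardEq γ rfl
  let f : γ ↪o Fin (Fintype.card γ) := e.symm.toOrderEmbedding
  let K : SimpleGraph (Fin (Fintype.card γ)) := SimpleGraph.comap (fun i => e i) Γ
  have hc : Cmp f Γ K Z := by
    intro a _ b _
    change Γ.Adj a b ↔ Γ.Adj (e (e.symm a)) (e (e.symm b))
    rw [OrderIso.apply_symm_apply, OrderIso.apply_symm_apply]
  have hN := NP_map hc hSpG.np
  have hjY : ∀ a ∈ Y, a ≠ v → j a ∈ X₂ := fun a ha hav =>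
    Finset.mem_erase.2 ⟨fun h => hav (j.injective h), Finset.mem_map_of_mem _ ha⟩
  refine ⟨_, cl K (Z.map f.toEmbedding), fun i => isFlagSphere_of hN (HS_map hc (hSpG.hs i)),
    ⟨fun a => f (j a), ?_, ?_, ?_⟩, ?_⟩
  · intro a b _ _ _ _ h
    exact j.injective (f.injective h)
  · intro A hA
    have h0 : A.image (fun a => f (j a)) = (A.map j).map f.toEmbedding := by
      rw [Finset.map_eq_image, Finset.map_eq_image, Finset.image_image]
      rfl
    rw [h0, mem_cl_map hc, ← hcl, mem_cl, mem_cl]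
    have hAY : A ⊆ Y := fun a ha => mem_vert.2 (hA a ha).1
    constructor
    · rintro ⟨h1, h2⟩
      refine ⟨fun p hp => ?_, fun p hp p' hp' hne => ?_⟩
      · obtain ⟨a, ha, rfl⟩ := Finset.mem_map.1 hp
        exact Finset.mem_union_right _ (hjY a (hAY ha) (hA a ha).2)
      · obtain ⟨a, ha, rfl⟩ := Finset.mem_map.1 hp
        obtain ⟨b, hb, rfl⟩ := Finset.mem_map.1 hp'
        exact ⟨(c2 a (hAY ha) b (hAY hb)).1 (h2 a ha b hb (fun he => hne (by rw [he]))),
          Or.inr ⟨hjY a (hAY ha) (hA a ha).2, hjY b (hAY hb) (hA b hb).2⟩⟩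
    · rintro ⟨h1, h2⟩
      refine ⟨hAY, fun a ha b hb hab => ?_⟩
      have h3 := h2 (j a) (Finset.mem_map_of_mem _ ha) (j b) (Finset.mem_map_of_mem _ hb)
        (fun he => hab (j.injective he))
      exact (c2 a (hAY ha) b (hAY hb)).2 h3.1
  · intro a ha hav hn y hy
    have haY : a ∈ Y := mem_vert.2 ha
    obtain ⟨h1, h2⟩ := mem_cl.1 hy
    have hyZ := h1 (Finset.mem_insert_of_mem (Finset.mem_singleton_self y))
    obtain ⟨p, hp, hpy⟩ := Finset.mem_map.1 hyZ
    have hpy' : f p = y := hpy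
    by_cases hpe : f (j a) = y
    · exact ⟨a, ha, hav, hpe⟩
    · have h3 := h2 (f (j a)) (Finset.mem_insert_self _ _) y
        (Finset.mem_insert_of_mem (Finset.mem_singleton_self y)) hpe
      rw [← hpy'] at h3
      have hjaZ : j a ∈ Z := Finset.mem_union_right _ (hjY a haY hav)
      have h4 : Γ.Adj (j a) p := (hc (j a) hjaZ p hp).2 h3
      rcases h4.2 with h5 | h5
      · exfalso
        have h6 : j a ∈ lk G (Y.map j) (j v) := by
          rw [hG.lk₂]
          exact Finset.mem_inter.2 ⟨h5.1, hjY a haY hav⟩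
        have h7 : M.Adj v a := (c2 v hvY a haY).2 (mem_lk.1 h6).2
        apply hn
        rw [Finset.pair_comm]
        exact h7.2
      · obtain ⟨h6, h7⟩ := Finset.mem_erase.1 h5.2
        obtain ⟨b, hb, rfl⟩ := Finset.mem_map.1 h7
        exact ⟨b, mem_vert.1 hb, fun h => h6 (by rw [h]), hpy'⟩
  · rw [omega_cl, lam_map hc, hlamG, hl, hlam]

/-- a sphere with vanishing quantity -/
theorem zero_val {m : ℕ} (hm : 1 ≤ m) : ∃ (α : Type) (_ : LinearOrder α) (_ : Fintype α)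
    (H : SimpleGraph α) (W : Finset α), Sp k H (2 * m) W ∧ lam H W = 0 := by
  obtain ⟨e, he⟩ : ∃ e, 2 * m = e + 1 := ⟨2 * m - 1, by omega⟩
  obtain ⟨α, o, ft, H, W, h1, h2⟩ := pents (k := k) m
  rw [he] at h1
  obtain ⟨x, hx⟩ := h1.np.nonempty
  obtain ⟨s1, s2⟩ := Sp_join (h1.lk hx) (Sp_pair (k := k))
  refine ⟨_, inferInstance, inferInstance, _, _, by rw [he]; exact s1, ?_⟩
  have h3 : (0 : Fin 2) ≠ 1 := by decide
  have h4 : ¬ (⊥ : SimpleGraph (Fin 2)).Adj 0 1 := fun h => h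
  rw [s2, lam_pair h3 h4, mul_zero]

theorem exists_fin {d : ℕ} {α : Type} [LinearOrder α] [Fintype α] {H : SimpleGraph α}
    {W : Finset α} (hS : Sp k H d W) :
    ∃ (N : ℕ) (T : Finset (Finset (Fin N))), (∀ i, IsFlagSphere (k i) d T) ∧
      omega T = lam H W := by
  classical
  let e : Fin (Fintype.card α) ≃o α := Fintype.orderIsoFinOfCardEq α rfl
  let f : α ↪o Fin (Fintype.card α) := e.symm.toOrderEmbedding
  let K : SimpleGraph (Fin (Fintype.card α)) := SimpleGraph.comap (fun i => e i) H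
  have hc : Cmp f H K W := by
    intro a _ b _
    change H.Adj a b ↔ H.Adj (e (e.symm a)) (e (e.symm b))
    rw [OrderIso.apply_symm_apply, OrderIso.apply_symm_apply]
  have hN := NP_map hc hS.np
  exact ⟨_, cl K (W.map f.toEmbedding), fun i => isFlagSphere_of hN (HS_map hc (hS.hs i)), by
    rw [← lam_map hc, omega_cl]⟩

/-- the nonnegative integers are values -/
theorem nat_val {m : ℕ} (hm : 1 ≤ m) (z : ℕ) : ∃ (N : ℕ) (T : Finset (Finset (Fin N))),
    (∀ i, IsFlagSphere (k i) (2 * m) T) ∧ (-4) ^ m * omega T = z := by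
  rcases z with _ | z
  · obtain ⟨α, _, _, H, W, h1, h2⟩ := zero_val (k := k) hm
    obtain ⟨N, T, h3, h4⟩ := exists_fin h1
    exact ⟨N, T, h3, by rw [h4, h2]; simp⟩
  · obtain ⟨e, he⟩ : ∃ e, 2 * m = e + 1 := ⟨2 * m - 1, by omega⟩
    obtain ⟨α, _, _, H, W, h1, h2⟩ := pents (k := k) m
    rw [he] at h1
    obtain ⟨x, hx, x', hx', hne, hn, hB⟩ := BS.of_sp h1
    have key : ∀ {μ ν : Type} {M : SimpleGraph μ} {Y : Finset μ}
      {M' : SimpleGraph ν} {Y' : Finset ν}, BS k (e + 1) M Y M' Y' ((z + 1) * lam H W) →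
        ∃ (N : ℕ) (T : Finset (Finset (Fin N))), (∀ i, IsFlagSphere (k i) (2 * m) T) ∧
          (-4) ^ m * omega T = ((z + 1 : ℕ) : ℚ) := by
      intro μ ν M Y M' Y' h
      obtain ⟨β, _, _, K, V, y, y', h3, -, -, -, -, -, -, h4⟩ := h
      rw [← he] at h3
      obtain ⟨N, T, h5, h6⟩ := exists_fin h3
      refine ⟨N, T, h5, ?_⟩
      rw [h6, h4, h2]
      have := pent_val m
      push_cast
      linear_combination (z + 1 : ℚ) * this
    rcases hB.chain' z with h | h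
    · exact key h
    · exact key h

end

end Pool.Agent.D0H80.CD
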