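import Pool.Agent.D0H80.CD.Values

set_option autoImplicit false
set_option linter.unusedSectionVars false
set_option linter.unusedVariables false

/-! # One edge of arbitrary weight -/

namespace Pool.Agent.D0H80.CD

open Pool.Agent.W497.FS

/-- the quantity `ω` with weight `p` at the edge `e` and weight `2` at all others: the group of `σ`
has order `2 p 2^(|σ| - 2)` if `e ⊆ σ` and `2^|σ|` otherwise -/
def omegaEdge {N : ℕ} (T : Finset (Finset (Fin N))) (e : Finset (Fin N)) (p : ℕ) : ℚ :=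
  ∑ σ ∈ T, (-1) ^ σ.card / (if e ⊆ σ then 2 * (p : ℚ) * 2 ^ (σ.card - 2) else 2 ^ σ.card)

theorem omegaEdge_eq {N : ℕ} {T : Finset (Finset (Fin N))} {e : Finset (Fin N)} {p : ℕ}
    (he : e.card = 2) (hp : 1 ≤ p) : omegaEdge T e p = omega T -
      (1 - 2 / p) * ∑ σ ∈ T.filter (fun σ => e ⊆ σ), (-1 / 2 : ℚ) ^ σ.card := by
  have hp0 : (p : ℚ) ≠ 0 := by
    have : (0 : ℚ) < p := by exact_mod_cast hp
    exact this.ne'
  rw [omegaEdge, omega, Finset.mul_sum, Finset.sum_filter, ← Finset.sum_sub_distrib]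
  refine Finset.sum_congr rfl (fun σ _ => ?_)
  by_cases h : e ⊆ σ
  · rw [if_pos h, if_pos h, div_pow]
    obtain ⟨c, hc⟩ : ∃ c, σ.card = c + 2 := ⟨σ.card - 2, by
      have := Finset.card_le_card h
      omega⟩
    rw [hc]
    have e1 : c + 2 - 2 = c := by omega
    rw [e1]
    have h2 : (2 : ℚ) ^ c ≠ 0 := by positivity
    field_simp
    ring
  · rw [if_neg h, if_neg h, sub_zero]

/-- the faces containing an edge with a vertex not adjacent to the removed one are the same -/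
theorem star_sum {n N : ℕ} {T₀ : Finset (Finset (Fin n))} {v : Fin n}
    {T : Finset (Finset (Fin N))} (hT₀ : ∀ F ∈ T₀, ∀ G ⊆ F, G ∈ T₀)
    (hT : ∀ F ∈ T, ∀ G ⊆ F, G ∈ T) {g : Fin n → Fin N}
    (g1 : ∀ a b, {a} ∈ T₀ → {b} ∈ T₀ → a ≠ v → b ≠ v → g a = g b → a = b)
    (g2 : ∀ A : Finset (Fin n), (∀ a ∈ A, {a} ∈ T₀ ∧ a ≠ v) → (A ∈ T₀ ↔ A.image g ∈ T))
    (g3 : ∀ a, {a} ∈ T₀ → a ≠ v → {a, v} ∉ T₀ → ∀ y, {g a, y} ∈ T →
      ∃ b, {b} ∈ T₀ ∧ b ≠ v ∧ g b = y)
    {a b : Fin n} (hab : {a, b} ∈ T₀) (hav : a ≠ v) (hbv : b ≠ v) (hn : {a, v} ∉ T₀) :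
    ∑ σ ∈ T.filter (fun σ => ({g a, g b} : Finset (Fin N)) ⊆ σ), (-1 / 2 : ℚ) ^ σ.card =
      ∑ A ∈ T₀.filter (fun A => ({a, b} : Finset (Fin n)) ⊆ A), (-1 / 2 : ℚ) ^ A.card := by
  classical
  have ha : {a} ∈ T₀ := hT₀ _ hab _ (by intro x hx; rw [Finset.mem_singleton] at hx; simp [hx])
  have hb : {b} ∈ T₀ := hT₀ _ hab _ (by intro x hx; rw [Finset.mem_singleton] at hx; simp [hx])
  have hver : ∀ A ∈ T₀, ({a, b} : Finset (Fin n)) ⊆ A → ∀ c ∈ A, {c} ∈ T₀ ∧ c ≠ v := by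
    intro A hA hs c hc
    refine ⟨hT₀ A hA _ (Finset.singleton_subset_iff.2 hc), ?_⟩
    rintro rfl
    apply hn
    refine hT₀ A hA _ ?_
    intro x hx
    rcases Finset.mem_insert.1 hx with h | h
    · rw [h]; exact hs (Finset.mem_insert_self _ _)
    · rw [Finset.mem_singleton.1 h]; exact hc
  have hinj : ∀ A ∈ T₀, ({a, b} : Finset (Fin n)) ⊆ A → Set.InjOn g A := by
    intro A hA hs c hc c' hc' he
    obtain ⟨h1, h2⟩ := hver A hA hs c hc
    obtain ⟨h3, h4⟩ := hver A hA hs c' hc'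
    exact g1 c c' h1 h3 h2 h4 he
  symm
  refine Finset.sum_bij (fun A _ => A.image g) ?_ ?_ ?_ ?_
  · intro A hA
    obtain ⟨h1, h2⟩ := Finset.mem_filter.1 hA
    refine Finset.mem_filter.2 ⟨(g2 A (hver A h1 h2)).1 h1, ?_⟩
    intro x hx
    rcases Finset.mem_insert.1 hx with h | h
    · rw [h]; exact Finset.mem_image_of_mem g (h2 (Finset.mem_insert_self _ _))
    · rw [Finset.mem_singleton.1 h]
      exact Finset.mem_image_of_mem g (h2 (Finset.mem_insert_of_mem (Finset.mem_singleton_self _)))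
  · intro A hA B hB he
    obtain ⟨h1, h2⟩ := Finset.mem_filter.1 hA
    obtain ⟨h3, h4⟩ := Finset.mem_filter.1 hB
    have he' : A.image g = B.image g := he
    ext c
    constructor
    · intro hc
      have : g c ∈ B.image g := by rw [← he']; exact Finset.mem_image_of_mem g hc
      obtain ⟨c', hc', hcc⟩ := Finset.mem_image.1 this
      obtain ⟨p1, p2⟩ := hver A h1 h2 c hc
      obtain ⟨q1, q2⟩ := hver B h3 h4 c' hc'
      rw [← g1 c' c q1 p1 q2 p2 hcc]
      exact hc'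
    · intro hc
      have : g c ∈ A.image g := by rw [he']; exact Finset.mem_image_of_mem g hc
      obtain ⟨c', hc', hcc⟩ := Finset.mem_image.1 this
      obtain ⟨p1, p2⟩ := hver B h3 h4 c hc
      obtain ⟨q1, q2⟩ := hver A h1 h2 c' hc'
      rw [← g1 c' c q1 p1 q2 p2 hcc]
      exact hc'
  · intro σ hσ
    obtain ⟨h1, h2⟩ := Finset.mem_filter.1 hσ
    have hga : g a ∈ σ := h2 (Finset.mem_insert_self _ _)
    have hgb : g b ∈ σ := h2 (Finset.mem_insert_of_mem (Finset.mem_singleton_self _))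
    have hy : ∀ y ∈ σ, ∃ c, {c} ∈ T₀ ∧ c ≠ v ∧ g c = y := by
      intro y hy
      refine g3 a ha hav hn y (hT σ h1 _ ?_)
      intro x hx
      rcases Finset.mem_insert.1 hx with h | h
      · rw [h]; exact hga
      · rw [Finset.mem_singleton.1 h]; exact hy
    set A := Finset.univ.filter (fun c => {c} ∈ T₀ ∧ c ≠ v ∧ g c ∈ σ) with hA
    have hAi : A.image g = σ := by
      ext y
      rw [Finset.mem_image]
      constructor
      · rintro ⟨c, hc, rfl⟩
        exact (Finset.mem_filter.1 hc).2.2.2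
      · intro hyσ
        obtain ⟨c, c1, c2, rfl⟩ := hy y hyσ
        exact ⟨c, Finset.mem_filter.2 ⟨Finset.mem_univ _, c1, c2, hyσ⟩, rfl⟩
    have hAT : A ∈ T₀ := by
      rw [g2 A (fun c hc => ⟨(Finset.mem_filter.1 hc).2.1, (Finset.mem_filter.1 hc).2.2.1⟩), hAi]
      exact h1
    refine ⟨A, Finset.mem_filter.2 ⟨hAT, ?_⟩, hAi⟩
    intro x hx
    rcases Finset.mem_insert.1 hx with h | h
    · rw [h]; exact Finset.mem_filter.2 ⟨Finset.mem_univ _, ha, hav, hga⟩
    · rw [Finset.mem_singleton.1 h]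
      exact Finset.mem_filter.2 ⟨Finset.mem_univ _, hb, hbv, hgb⟩
  · intro A hA
    obtain ⟨h1, h2⟩ := Finset.mem_filter.1 hA
    rw [Finset.card_image_of_injOn (hinj A h1 h2)]

/-- the sum over the faces containing an edge -/
theorem star_lam {α : Type} {H : SimpleGraph α} {W κ : Finset α} [DecidableEq α]
    (hκ : κ ∈ cl H W) (h2 : κ.card = 2) :
    ∑ σ ∈ (cl H W).filter (fun σ => κ ⊆ σ), (-1 / 2 : ℚ) ^ σ.card =
      1 / 4 * lam H (lkF H W κ) := by
  have h := sum_sup (H := H) hκ (fun n => (-1 / 2 : ℚ) ^ n)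
  rw [lam, fe, Finset.mul_sum]
  refine Eq.trans ?_ (h.trans ?_)
  · refine Finset.sum_congr ?_ (fun _ _ => rfl)
    ext σ
    simp
  · refine Finset.sum_congr rfl (fun σ _ => ?_)
    rw [h2]
    ring

section

variable {ι : Type} {k : ι → Type} [∀ i, Field (k i)]

/-- the sign for spheres with one edge of arbitrary weight -/
theorem edge_nonneg [Nonempty ι] {m N : ℕ} {T : Finset (Finset (Fin N))}
    (hC : ∀ (N : ℕ) (S : Finset (Finset (Fin N))), (∀ i, IsFlagSphere (k i) (2 * (m + 1)) S) →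
      0 ≤ (-1) ^ (m + 1) * omega S)
    (hC' : ∀ (N : ℕ) (S : Finset (Finset (Fin N))), (∀ i, IsFlagSphere (k i) (2 * m) S) →
      0 ≤ (-1) ^ m * omega S)
    (hT : ∀ i, IsFlagSphere (k i) (2 * (m + 1)) T) {e : Finset (Fin N)} (heT : e ∈ T)
    (he : e.card = 2) {p : ℕ} (hp : 2 ≤ p) : 0 ≤ (-1) ^ (m + 1) * omegaEdge T e p := by
  classical
  obtain ⟨hSp, hcl, -⟩ := sp_of hT
  rw [omegaEdge_eq he (by omega)]
  have heC : e ∈ cl (skel T) (vert T) := by rw [hcl]; exact heT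
  have h1 : ∑ σ ∈ T.filter (fun σ => e ⊆ σ), (-1 / 2 : ℚ) ^ σ.card =
      1 / 4 * lam (skel T) (lkF (skel T) (vert T) e) := by
    have := star_lam heC he
    rw [hcl] at this
    exact this
  have h2 : Sp k (skel T) (2 * m) (lkF (skel T) (vert T) e) := by
    obtain ⟨d, hd, hNe, -⟩ := hSp.np.lkF heC
    have hd' : d = 2 * m := by omega
    rw [hd'] at hNe
    refine ⟨hNe, fun i => ?_⟩
    have h := HS.lkF (hSp.hs i) heC (by omega)
    have e0 : 2 * (m + 1) - e.card = 2 * m := by omega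
    rw [e0] at h
    exact h
  obtain ⟨N', T', h3, h4⟩ := exists_fin h2
  have h5 := hC' N' T' h3
  have h6 := hC N T hT
  rw [h1, ← h4]
  have hp2 : (2 : ℚ) ≤ p := by exact_mod_cast hp
  have h7 : (0 : ℚ) ≤ 1 - 2 / p := by
    rw [sub_nonneg, div_le_one (by linarith)]
    exact hp2
  have h8 := mul_nonneg h7 h5
  have e1 : (-1 : ℚ) ^ (m + 1) * (omega T - (1 - 2 / p) * (1 / 4 * omega T')) =
      (-1) ^ (m + 1) * omega T + 1 / 4 * ((1 - 2 / p) * ((-1) ^ m * omega T')) := by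
    rw [pow_succ]; ring
  rw [e1]
  linarith

/-- a sphere with a vertex and an edge far from it whose link has a given value -/
theorem exists_piece [Nonempty ι] {m : ℕ} (hm : 1 ≤ m) (J : ℕ) :
    ∃ (n : ℕ) (T₀ : Finset (Finset (Fin n))) (v a b : Fin n),
      (∀ i, IsFlagSphere (k i) (2 * (m + 1)) T₀) ∧ {v} ∈ T₀ ∧ {a, b} ∈ T₀ ∧ a ≠ b ∧ a ≠ v ∧
        b ≠ v ∧ {a, v} ∉ T₀ ∧
        (-4) ^ m * ∑ A ∈ T₀.filter (fun A => ({a, b} : Finset (Fin n)) ⊆ A), (-1 / 2 : ℚ) ^ A.card =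
          J / 4 := by
  classical
  obtain ⟨N, Q, hQ, hJ⟩ := nat_val (k := k) hm J
  obtain ⟨hSQ, -, hlQ⟩ := sp_of hQ
  obtain ⟨s1, s2⟩ := Sp_join hSQ (Sp_pentagon (k := k))
  set M := skel Q with hM
  set Y := vert Q with hY
  set Γ := joinG M pent with hΓ
  set Z := JW Y (Finset.univ : Finset (Fin 5)) with hZ
  let e : Fin (Fintype.card (Fin N ⊕ₗ Fin 5)) ≃o (Fin N ⊕ₗ Fin 5) :=
    Fintype.orderIsoFinOfCardEq _ rfl
  let f : (Fin N ⊕ₗ Fin 5) ↪o Fin (Fintype.card (Fin N ⊕ₗ Fin 5)) := e.symm.toOrderEmbedding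
  let K : SimpleGraph (Fin (Fintype.card (Fin N ⊕ₗ Fin 5))) := SimpleGraph.comap (fun i => e i) Γ
  have hc : Cmp f Γ K Z := by
    intro a _ b _
    change Γ.Adj a b ↔ Γ.Adj (e (e.symm a)) (e (e.symm b))
    rw [OrderIso.apply_symm_apply, OrderIso.apply_symm_apply]
  have hN := NP_map hc s1.np
  have hd : 2 * m + 2 = 2 * (m + 1) := by ring
  have hjr : ∀ t : Fin 5, (jr t : Fin N ⊕ₗ Fin 5) ∈ Z := fun t => mem_JW_r.2 (Finset.mem_univ _)
  have hne : ∀ s t : Fin 5, s ≠ t → (jr s : Fin N ⊕ₗ Fin 5) ≠ jr t := fun s t h he => h (jr_inj he)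
  have n23 : (2 : Fin 5) ≠ 3 := by decide
  have n20 : (2 : Fin 5) ≠ 0 := by decide
  have n30 : (3 : Fin 5) ≠ 0 := by decide
  have a23 : pent.Adj 2 3 := by decide
  have a20 : ¬ pent.Adj 2 0 := by decide
  have hκ : ({jr 2, jr 3} : Finset (Fin N ⊕ₗ Fin 5)) ∈ cl Γ Z := by
    rw [mem_cl]
    refine ⟨?_, ?_⟩
    · intro x hx
      rcases Finset.mem_insert.1 hx with h | h
      · rw [h]; exact hjr 2
      · rw [Finset.mem_singleton.1 h]; exact hjr 3
    · intro x hx y hy hxy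
      rcases Finset.mem_insert.1 hx with h | h <;> rcases Finset.mem_insert.1 hy with h' | h'
      · exact absurd (h.trans h'.symm) hxy
      · rw [h, Finset.mem_singleton.1 h']; exact a23
      · rw [Finset.mem_singleton.1 h, h']; exact a23.symm
      · exact absurd ((Finset.mem_singleton.1 h).trans (Finset.mem_singleton.1 h').symm) hxy
  have hmapP : ({f (jr 2), f (jr 3)} : Finset (Fin (Fintype.card (Fin N ⊕ₗ Fin 5)))) =
      ({jr 2, jr 3} : Finset (Fin N ⊕ₗ Fin 5)).map f.toEmbedding := by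
    rw [Finset.map_insert, Finset.map_singleton]
    rfl
  have hκ' : ({f (jr 2), f (jr 3)} : Finset (Fin (Fintype.card (Fin N ⊕ₗ Fin 5)))) ∈
      cl K (Z.map f.toEmbedding) := by
    rw [hmapP]; exact (mem_cl_map hc).2 hκ
  refine ⟨_, cl K (Z.map f.toEmbedding), f (jr 0), f (jr 2), f (jr 3), fun i => ?_, ?_, ?_, ?_, ?_,
    ?_, ?_, ?_⟩
  · have := isFlagSphere_of hN (HS_map hc (s1.hs i))
    rw [hd] at this
    exact this
  · exact singleton_mem_cl (Finset.mem_map_of_mem _ (hjr 0))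
  · exact hκ'
  · exact fun h => hne 2 3 n23 (f.injective h)
  · exact fun h => hne 2 0 n20 (f.injective h)
  · exact fun h => hne 3 0 n30 (f.injective h)
  · intro h
    have h1 := (mem_cl.1 h).2 (f (jr 2)) (Finset.mem_insert_self _ _) (f (jr 0))
      (Finset.mem_insert_of_mem (Finset.mem_singleton_self _))
      (fun h => hne 2 0 n20 (f.injective h))
    exact a20 ((hc _ (hjr 2) _ (hjr 0)).2 h1)
  · have hcard : ({f (jr 2), f (jr 3)} : Finset (Fin (Fintype.card (Fin N ⊕ₗ Fin 5)))).card = 2 :=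
      Finset.card_pair (fun h => hne 2 3 n23 (f.injective h))
    have h1 := star_lam hκ' hcard
    have h2 : lkF K (Z.map f.toEmbedding) {f (jr 2), f (jr 3)} =
        (lkF Γ Z {jr 2, jr 3}).map f.toEmbedding := by
      rw [hmapP]
      exact lkF_map hc (mem_cl.1 hκ).1
    have h3 : lam K (lkF K (Z.map f.toEmbedding) {f (jr 2), f (jr 3)}) =
        lam Γ (lkF Γ Z {jr 2, jr 3}) := by
      rw [h2]; exact lam_map (hc.mono lkF_subset)
    let jle : Fin N ↪ (Fin N ⊕ₗ Fin 5) := ⟨jl, fun a b h => jl_inj h⟩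
    have h4 : lkF Γ Z {jr 2, jr 3} = Y.map jle := by
      ext q
      rw [mem_lkF, Finset.mem_map]
      rcases jcases q with ⟨y, rfl⟩ | ⟨t, rfl⟩
      · rw [mem_JW_l]
        constructor
        · rintro ⟨h, -⟩
          exact ⟨y, h, rfl⟩
        · rintro ⟨y', hy', he⟩
          have : y' = y := jl_inj he
          refine ⟨this ▸ hy', fun z hz => ?_⟩
          rcases Finset.mem_insert.1 hz with h | h
          · rw [h]; exact jradj
          · rw [Finset.mem_singleton.1 h]; exact jradj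
      · constructor
        · rintro ⟨-, h⟩
          have p1 : pent.Adj 2 t := h _ (Finset.mem_insert_self _ _)
          have p2 : pent.Adj 3 t := h _ (Finset.mem_insert_of_mem (Finset.mem_singleton_self _))
          have p3 : ∀ t : Fin 5, pent.Adj 2 t → ¬ pent.Adj 3 t := by decide
          exact absurd p2 (p3 t p1)
        · rintro ⟨y', hy', he⟩
          exact absurd he jlr
    have h5 : lam Γ (lkF Γ Z {jr 2, jr 3}) = omega Q := by
      rw [h4, ← hlQ]
      exact lam_tw (f := jle) (H := M) (K := Γ) (W := Y) (fun a _ b _ => Iff.rfl)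
    have h6 : ∑ A ∈ (cl K (Z.map f.toEmbedding)).filter
        (fun A => ({f (jr 2), f (jr 3)} : Finset (Fin (Fintype.card (Fin N ⊕ₗ Fin 5)))) ⊆ A),
          (-1 / 2 : ℚ) ^ A.card = 1 / 4 * omega Q := by
      rw [h1, h3, h5]
    refine Eq.trans (congrArg (fun t => (-4 : ℚ) ^ m * t) h6) ?_
    rw [mul_left_comm, hJ]
    ring

end

end Pool.Agent.D0H80.CD
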